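import Pool.Agent.Helper985.SE.Defs

set_option autoImplicit false

open MeasureTheory
open scoped BigOperators

namespace Pool.Agent.Helper985.SE

variable {M : Type}

theorem inner_fock (u v : Fock M) : inner ℂ u v = fockInner u v := rfl

theorem coeff_an (m : M) (n : M →₀ ℕ) (v : Fock M) :
    Fock.coeff n (an m v) = Fock.coeff (n + Finsupp.single m 1) v * ((n m : ℂ) + 1) := by
  unfold Fock.coeff an
  exact MvPolynomial.coeff_pderiv v n

theorem coeff_cr_add (m : M) (n : M →₀ ℕ) (v : Fock M) :
    Fock.coeff (n + Finsupp.single m 1) (cr m v) = Fock.coeff n v := by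
  unfold Fock.coeff cr
  rw [add_comm]
  exact MvPolynomial.coeff_X_mul n m v

theorem coeff_cr_zero (m : M) (n : M →₀ ℕ) (v : Fock M) (h : n m = 0) :
    Fock.coeff n (cr m v) = 0 := by
  classical
  have h1 : MvPolynomial.coeff n ((MvPolynomial.X m : MvPolynomial M ℂ) * v.poly)
      = 0 := by
    rw [MvPolynomial.coeff_X_mul' n m, if_neg]
    simpa using h
  exact h1

theorem factorial_prod_succ (m : M) (n : M →₀ ℕ) :
    ((n + Finsupp.single m 1).prod fun _ j => (j.factorial : ℂ)) =
      ((n m : ℂ) + 1) * (n.prod fun _ j => (j.factorial : ℂ)) := by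
  classical
  have h1 : ∀ k : M →₀ ℕ, ∀ S : Finset M, k.support ⊆ S →
      (k.prod fun _ j => (j.factorial : ℂ)) = ∏ i ∈ S, ((k i).factorial : ℂ) := by
    intro k S hS
    exact Finsupp.prod_of_support_subset _ hS _ (by simp)
  rw [h1 (n + Finsupp.single m 1) (insert m n.support), h1 n (insert m n.support) (Finset.subset_insert _ _)]
  · rw [← Finset.mul_prod_erase _ _ (Finset.mem_insert_self m n.support),
      ← Finset.mul_prod_erase _ _ (Finset.mem_insert_self m n.support)]
    have h2 : ∏ x ∈ (insert m n.support).erase m,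
          ((((n + Finsupp.single m 1 : M →₀ ℕ) x).factorial : ℕ) : ℂ) =
        ∏ x ∈ (insert m n.support).erase m, ((n x).factorial : ℂ) := by
      apply Finset.prod_congr rfl
      intro x hx
      have hxm : x ≠ m := Finset.ne_of_mem_erase hx
      have h3 : (n + Finsupp.single m 1 : M →₀ ℕ) x = n x := by
        rw [Finsupp.add_apply, Finsupp.single_apply, if_neg (Ne.symm hxm), add_zero]
      rw [h3]
    rw [h2]
    simp only [Finsupp.coe_add, Pi.add_apply, Finsupp.single_eq_same, Nat.factorial_succ]
    push_cast
    ring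
  · intro x hx
    rw [Finset.mem_insert]
    by_contra hcon
    push Not at hcon
    have h4 : n x = 0 := by
      simpa using hcon.2
    have h5 : (n + Finsupp.single m 1 : M →₀ ℕ) x ≠ 0 := by
      simpa using hx
    apply h5
    rw [Finsupp.add_apply, Finsupp.single_apply, if_neg (Ne.symm hcon.1), h4, add_zero]

theorem mem_support_iff_coeff (n : M →₀ ℕ) (v : Fock M) :
    n ∈ v.poly.support ↔ Fock.coeff n v ≠ 0 :=
  MvPolynomial.mem_support_iff

theorem inner_cr_left (m : M) (u v : Fock M) :
    inner ℂ (cr m u) v = inner ℂ u (an m v) := by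
  classical
  rw [inner_fock, inner_fock]
  -- sum over a big set
  have hsupp : (cr m u).poly.support ⊆
      (u.poly.support).map
        (addRightEmbedding (Finsupp.single m 1)) := by
    intro n hn
    have h0 : Fock.coeff n (cr m u) ≠ 0 := (mem_support_iff_coeff _ _).mp hn
    have h1 : n m ≠ 0 := by
      intro h
      exact h0 (coeff_cr_zero m n u h)
    have h2 : n - Finsupp.single m 1 + Finsupp.single m 1 = n := by
      ext x
      by_cases hx : x = m
      · subst hx
        simp
        omega
      · simp [Finsupp.single_apply, Ne.symm hx]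
    rw [Finset.mem_map]
    refine ⟨n - Finsupp.single m 1, ?_, by simpa using h2⟩
    apply (mem_support_iff_coeff _ _).mpr
    rw [← h2, coeff_cr_add] at h0
    exact h0
  rw [fockInner_eq_sum _ _ _ hsupp, Finset.sum_map]
  unfold fockInner
  apply Finset.sum_congr rfl
  intro n _
  rw [coeff_an]
  simp only [addRightEmbedding_apply]
  rw [coeff_cr_add, factorial_prod_succ]
  ring

theorem inner_cr_right (m : M) (u v : Fock M) :
    inner ℂ u (cr m v) = inner ℂ (an m u) v := by
  rw [← inner_conj_symm, inner_cr_left, inner_conj_symm]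

theorem an_cr [DecidableEq M] (m m' : M) (v : Fock M) :
    an m (cr m' v) = cr m' (an m v) + (if m = m' then v else 0) := by
  have h1 : MvPolynomial.pderiv m ((MvPolynomial.X m' : MvPolynomial M ℂ) * v.poly) =
    (MvPolynomial.X m' : MvPolynomial M ℂ) * MvPolynomial.pderiv m v.poly +
      (if m = m' then v.poly else 0) := by
    rw [MvPolynomial.pderiv_mul, MvPolynomial.pderiv_X]
    by_cases h : m = m'
    · subst h
      simp
      exact add_comm _ _
    · have h' : Pi.single (M := fun _ : M => MvPolynomial M ℂ) m (1 : MvPolynomial M ℂ) m' = 0 := by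
        rw [Pi.single_apply, if_neg (Ne.symm h)]
      rw [h', if_neg h]
      simp
  exact h1

theorem an_vacuum (m : M) : an m (vacuum M) = 0 := by
  unfold an vacuum
  exact MvPolynomial.pderiv_one

theorem inner_vacuum : inner ℂ (vacuum M) (vacuum M) = (1 : ℂ) := by
  classical
  rw [inner_fock]
  rw [fockInner_eq_sum _ _ {0}]
  · have h1 : Fock.coeff 0 (vacuum M) = 1 := by
      show MvPolynomial.coeff 0 (1 : MvPolynomial M ℂ) = 1
      simp
    simp [h1]
  · intro n hn
    have h1 : MvPolynomial.coeff n (1 : MvPolynomial M ℂ) ≠ 0 := MvPolynomial.mem_support_iff.mp hn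
    rw [MvPolynomial.coeff_one] at h1
    simp at h1
    simp [h1]

end Pool.Agent.Helper985.SE
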