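import Pool.Agent.Helper985.SE.Alg2

set_option autoImplicit false

open MeasureTheory
open scoped BigOperators ComplexConjugate

namespace Pool.Agent.Helper985.SE

/-- Bessel inequality for vector valued sequences. -/
theorem bessel_vec {M ι V : Type} [Fintype M] [Fintype ι] [DecidableEq ι]
    [NormedAddCommGroup V] [InnerProductSpace ℂ V]
    (y : M → V) (g : ι → M → ℂ) (c : ℝ) (hc : 0 < c)
    (hg : ∀ i l, ∑ m, g i m * conj (g l m) = if i = l then (c : ℂ) else 0) :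
    ∑ i, ‖∑ m, g i m • y m‖ ^ 2 ≤ c * ∑ m, ‖y m‖ ^ 2 := by
  set P : ι → V := fun i => ∑ m, g i m • y m with hP
  have hself : ∀ v : V, inner ℂ v v = ((‖v‖ ^ 2 : ℝ) : ℂ) := by
    intro v
    rw [inner_self_eq_norm_sq_to_K]
    push_cast
    rfl
  have key : ∑ m, inner ℂ (y m - (c⁻¹ : ℂ) • ∑ i, conj (g i m) • P i)
        (y m - (c⁻¹ : ℂ) • ∑ i, conj (g i m) • P i) =
      (∑ m, inner ℂ (y m) (y m)) - (c⁻¹ : ℂ) * ∑ i, inner ℂ (P i) (P i) := by
    have hcc : conj (c⁻¹ : ℂ) = (c⁻¹ : ℂ) := by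
      rw [map_inv₀, Complex.conj_ofReal]
    have e1 : ∑ m, inner ℂ (y m) (∑ i, conj (g i m) • P i) = ∑ i, inner ℂ (P i) (P i) := by
      simp only [inner_sum, inner_smul_right]
      rw [Finset.sum_comm]
      apply Finset.sum_congr rfl
      intro i _
      nth_rewrite 2 [hP]
      simp only [sum_inner, inner_smul_left]
    have e2 : ∑ m, inner ℂ (∑ i, conj (g i m) • P i) (y m) = ∑ i, inner ℂ (P i) (P i) := by
      simp only [sum_inner, inner_smul_left, Complex.conj_conj]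
      rw [Finset.sum_comm]
      apply Finset.sum_congr rfl
      intro i _
      nth_rewrite 3 [hP]
      simp only [inner_sum, inner_smul_right]
    have e3 : ∑ m, inner ℂ (∑ i, conj (g i m) • P i) (∑ i, conj (g i m) • P i) =
        (c : ℂ) * ∑ i, inner ℂ (P i) (P i) := by
      simp only [sum_inner, inner_sum, inner_smul_left, inner_smul_right, Complex.conj_conj]
      rw [Finset.sum_comm]
      have this : ∀ i, ∑ m, conj (g i m) * ∑ l, g l m * inner ℂ (P l) (P i) =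
          (c : ℂ) * inner ℂ (P i) (P i) := by
        intro i
        simp only [Finset.mul_sum]
        rw [Finset.sum_comm]
        have h2 : ∀ l, ∑ m, conj (g i m) * (g l m * inner ℂ (P l) (P i)) =
            (if l = i then (c : ℂ) else 0) * inner ℂ (P l) (P i) := by
          intro l
          rw [← hg l i, Finset.sum_mul]
          apply Finset.sum_congr rfl
          intro m _
          ring
        rw [Finset.sum_congr rfl (fun l _ => h2 l)]
        simp
      rw [Finset.mul_sum]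
      exact Finset.sum_congr rfl (fun i _ => this i)
    have hc' : (c : ℂ) ≠ 0 := by exact_mod_cast hc.ne'
    simp only [inner_sub_left, inner_sub_right, inner_smul_left, inner_smul_right, hcc]
    simp only [Finset.sum_sub_distrib, ← Finset.mul_sum]
    rw [e1, e2, e3]
    field_simp
    ring
  have hnn : 0 ≤ ∑ m, ‖y m - (c⁻¹ : ℂ) • ∑ i, conj (g i m) • P i‖ ^ 2 :=
    Finset.sum_nonneg (fun m _ => by positivity)
  have key2 : ∑ m, ‖y m - (c⁻¹ : ℂ) • ∑ i, conj (g i m) • P i‖ ^ 2 =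
      (∑ m, ‖y m‖ ^ 2) - c⁻¹ * ∑ i, ‖P i‖ ^ 2 := by
    simp only [hself] at key
    exact_mod_cast key
  rw [key2] at hnn
  have h5 : c⁻¹ * ∑ i, ‖P i‖ ^ 2 ≤ ∑ m, ‖y m‖ ^ 2 := by linarith
  calc ∑ i, ‖P i‖ ^ 2 = c * (c⁻¹ * ∑ i, ‖P i‖ ^ 2) := by field_simp
    _ ≤ c * ∑ m, ‖y m‖ ^ 2 := by
      apply mul_le_mul_of_nonneg_left h5 hc.le

variable {M : Type} [Fintype M]

/-- `‖(a(c) - a*(c̄)) v‖² ≤ 4 ‖a(c) v‖² + 2 ‖c‖² ‖v‖²`. -/
theorem norm_anC_sub_crC_sq_le (c : M → ℂ) (v : Fock M) :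
    ‖anC c v - crC (fun m => conj (c m)) v‖ ^ 2 ≤
      4 * ‖anC c v‖ ^ 2 + 2 * (∑ m, ‖c m‖ ^ 2) * ‖v‖ ^ 2 := by
  have h1 := parallelogram_law_with_norm ℂ (anC c v) (crC (fun m => conj (c m)) v)
  have h2 := norm_crC_sq (fun m => conj (c m)) v
  simp only [Complex.conj_conj, RCLike.norm_conj] at h2
  have h3 : 0 ≤ ‖anC c v + crC (fun m => conj (c m)) v‖ * ‖anC c v + crC (fun m => conj (c m)) v‖ :=
    by positivity
  nlinarith [h1, h2, h3]

/-- `‖(a(c) + a*(c̄)) v‖² ≤ 4 ‖a(c) v‖² + 2 ‖c‖² ‖v‖²`. -/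
theorem norm_anC_add_crC_sq_le (c : M → ℂ) (v : Fock M) :
    ‖anC c v + crC (fun m => conj (c m)) v‖ ^ 2 ≤
      4 * ‖anC c v‖ ^ 2 + 2 * (∑ m, ‖c m‖ ^ 2) * ‖v‖ ^ 2 := by
  have h1 := parallelogram_law_with_norm ℂ (anC c v) (crC (fun m => conj (c m)) v)
  have h2 := norm_crC_sq (fun m => conj (c m)) v
  simp only [Complex.conj_conj, RCLike.norm_conj] at h2
  have h3 : 0 ≤ ‖anC c v - crC (fun m => conj (c m)) v‖ * ‖anC c v - crC (fun m => conj (c m)) v‖ :=
    by positivity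
  nlinarith [h1, h2, h3]

end Pool.Agent.Helper985.SE
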