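import Pool.Agent.Helper985.SE.Vel

set_option autoImplicit false

open MeasureTheory
open scoped BigOperators ComplexConjugate ENNReal

namespace Pool.Agent.Helper985.SE

/-- one-dimensional moment integrand -/
noncomputable def mom (a b : ℕ) (z : ℂ) : ℂ :=
  z ^ a * (conj z) ^ b * ((Real.exp (-‖z‖ ^ 2) : ℝ) : ℂ)

theorem continuous_mom (a b : ℕ) : Continuous (mom a b) := by
  unfold mom
  fun_prop

theorem mom_ne (a b : ℕ) (h : a ≠ b) : ∫ z : ℂ, mom a b z = 0 := by
  have hab : ((a : ℝ) - b) ≠ 0 := by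
    intro h0
    apply h
    have : (a : ℝ) = b := by linarith
    exact_mod_cast this
  set θ : ℝ := Real.pi / ((a : ℝ) - b) with hθ
  set c : Circle := Circle.exp θ with hc
  have hmp := (rotation c).measurePreserving
  have h1 := hmp.integral_comp' (f := (rotation c).toHomeomorph.toMeasurableEquiv) (g := mom a b)
  have h2 : ∀ z : ℂ, mom a b (rotation c z) = -mom a b z := by
    intro z
    unfold mom
    have hn : ‖(rotation c) z‖ = ‖z‖ := (rotation c).norm_map z
    rw [hn, rotation_apply]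
    have e1 : (c : ℂ) ^ a * (conj (c : ℂ)) ^ b = -1 := by
      rw [hc, Circle.coe_exp, ← Complex.exp_conj, ← Complex.exp_nat_mul, ← Complex.exp_nat_mul,
        ← Complex.exp_add]
      have e2 : (a : ℂ) * ((θ : ℂ) * Complex.I) + (b : ℂ) * conj ((θ : ℂ) * Complex.I) =
          (Real.pi : ℂ) * Complex.I := by
        rw [map_mul, Complex.conj_ofReal, Complex.conj_I]
        have e3 : (((a : ℝ) - b) * θ : ℝ) = Real.pi := by
          rw [hθ]; field_simp
        have e4 : ((a : ℂ) - b) * (θ : ℂ) = (Real.pi : ℂ) := by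
          rw [← e3]; push_cast; ring
        calc _ = (((a : ℂ) - b) * (θ : ℂ)) * Complex.I := by ring
          _ = _ := by rw [e4]
      rw [e2, Complex.exp_pi_mul_I]
    rw [map_mul, mul_pow, mul_pow]
    calc (c : ℂ) ^ a * z ^ a * ((conj (c : ℂ)) ^ b * (conj z) ^ b) * _ =
        ((c : ℂ) ^ a * (conj (c : ℂ)) ^ b) * (z ^ a * (conj z) ^ b * ((Real.exp (-‖z‖ ^ 2) : ℝ) : ℂ)) := by
          ring
      _ = _ := by rw [e1]; ring
  have h3 : ∫ z : ℂ, mom a b (rotation c z) = ∫ z : ℂ, mom a b z := h1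
  simp only [h2, integral_neg] at h3
  have h4 : (2 : ℂ) * ∫ z : ℂ, mom a b z = 0 := by
    linear_combination (-1 : ℂ) * h3
  simpa using h4

theorem mom_norm (a b : ℕ) (z : ℂ) : ‖mom a b z‖ = ‖z‖ ^ (a + b) * Real.exp (-‖z‖ ^ 2) := by
  unfold mom
  rw [norm_mul, norm_mul, norm_pow, norm_pow, RCLike.norm_conj, Complex.norm_real,
    Real.norm_of_nonneg (Real.exp_pos _).le, pow_add]

theorem mom_integrable (a b : ℕ) : Integrable (mom a b) := by
  have h1 : ∫ z : ℂ, ‖z‖ ^ ((a + b : ℕ) : ℝ) * Real.exp (-‖z‖ ^ (2 : ℝ)) ≠ 0 := by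
    rw [Complex.integral_rpow_mul_exp_neg_rpow (by norm_num) (by
      have : (0 : ℝ) ≤ ((a + b : ℕ) : ℝ) := Nat.cast_nonneg _
      linarith)]
    have hg : 0 < Real.Gamma ((((a + b : ℕ) : ℝ) + 2) / 2) := by
      apply Real.Gamma_pos_of_pos
      positivity
    have := Real.pi_pos
    positivity
  have h2 : Integrable (fun z : ℂ => ‖z‖ ^ ((a + b : ℕ) : ℝ) * Real.exp (-‖z‖ ^ (2 : ℝ))) := by
    by_contra hcon
    exact h1 (integral_undef hcon)
  apply h2.mono' (continuous_mom a b).aestronglyMeasurable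
  apply Filter.Eventually.of_forall
  intro z
  rw [mom_norm]
  apply le_of_eq
  rw [Real.rpow_natCast]
  congr 2
  norm_cast

theorem mom_self (a : ℕ) : ∫ z : ℂ, mom a a z = ((Real.pi * (a.factorial : ℝ) : ℝ) : ℂ) := by
  have h0 : ∀ z : ℂ, mom a a z = ((‖z‖ ^ ((2 * a : ℕ) : ℝ) * Real.exp (-‖z‖ ^ (2 : ℝ)) : ℝ) : ℂ) := by
    intro z
    unfold mom
    rw [← mul_pow, Complex.mul_conj', Real.rpow_natCast]
    push_cast
    rw [← pow_mul]
    congr 2
    norm_cast
  simp only [h0]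
  rw [integral_complex_ofReal, Complex.integral_rpow_mul_exp_neg_rpow (by norm_num) (by
    have : (0 : ℝ) ≤ ((2 * a : ℕ) : ℝ) := Nat.cast_nonneg _
    linarith)]
  congr 1
  have h1 : (((2 * a : ℕ) : ℝ) + 2) / 2 = (a : ℝ) + 1 := by push_cast; ring
  rw [h1, Real.Gamma_nat_eq_factorial]
  ring

theorem mom_eq (a b : ℕ) :
    ∫ z : ℂ, mom a b z = if a = b then ((Real.pi * (a.factorial : ℝ) : ℝ) : ℂ) else 0 := by
  split_ifs with h
  · subst h; exact mom_self a
  · exact mom_ne a b h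

variable {M : Type} [Fintype M]

/-- Evaluation of the holomorphic function representing a Fock vector. -/
noncomputable def ev (z : M → ℂ) : Fock M →ₗ[ℂ] ℂ :=
  (MvPolynomial.aeval z : MvPolynomial M ℂ →ₐ[ℂ] ℂ).toLinearMap

omit [Fintype M] in
theorem ev_eq (z : M → ℂ) (v : Fock M) : ev z v = MvPolynomial.eval z v.poly := by
  show MvPolynomial.aeval z v.poly = _
  rw [MvPolynomial.aeval_eq_eval]

omit [Fintype M] in
theorem ev_cr (z : M → ℂ) (m : M) (v : Fock M) : ev z (cr m v) = z m * ev z v := by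
  rw [ev_eq, ev_eq]
  show MvPolynomial.eval z ((MvPolynomial.X m : MvPolynomial M ℂ) * v.poly) = _
  rw [map_mul, MvPolynomial.eval_X]

theorem ev_sum (z : M → ℂ) (v : Fock M) :
    ev z v = ∑ n ∈ v.poly.support, Fock.coeff n v * ∏ i, z i ^ n i := by
  rw [ev_eq, MvPolynomial.eval_eq']
  rfl

/-- the Gaussian weight `exp (-|z|²/2)` -/
noncomputable def gw (z : M → ℂ) : ℝ := Real.exp (-(∑ i, ‖z i‖ ^ 2) / 2)

theorem gw_pos (z : M → ℂ) : 0 < gw z := Real.exp_pos _

theorem gw_sq (z : M → ℂ) : gw z ^ 2 = ∏ i, Real.exp (-‖z i‖ ^ 2) := by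
  unfold gw
  rw [← Real.exp_sum, ← Real.exp_nat_mul]
  congr 1
  rw [Finset.sum_neg_distrib]
  push_cast
  ring

theorem continuous_gw : Continuous (gw : (M → ℂ) → ℝ) := by
  unfold gw
  fun_prop

theorem continuous_ev (v : Fock M) : Continuous (fun z : M → ℂ => ev z v) := by
  simp only [ev_sum]
  fun_prop

theorem norm_sq_eq_sum (v : Fock M) :
    ‖v‖ ^ 2 = ∑ n ∈ v.poly.support, ‖Fock.coeff n v‖ ^ 2 * ∏ i, ((n i).factorial : ℝ) := by
  have h1 := inner_self_real v
  rw [inner_fock, fockInner_self] at h1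
  have h2 : (∑ n ∈ v.poly.support,
      ‖Fock.coeff n v‖ ^ 2 * (n.prod fun _ j => (j.factorial : ℝ)) : ℝ) = ‖v‖ ^ 2 := by
    exact_mod_cast h1
  rw [← h2]
  apply Finset.sum_congr rfl
  intro n _
  congr 1
  rw [Finsupp.prod_fintype]
  intro i
  simp

theorem integrable_cross (n n' : M →₀ ℕ) :
    Integrable (fun z : M → ℂ => ∏ i, mom (n i) (n' i) (z i)) :=
  Integrable.fintype_prod (fun i => mom_integrable (n i) (n' i))

theorem integral_cross (n n' : M →₀ ℕ) :
    ∫ z : M → ℂ, ∏ i, mom (n i) (n' i) (z i) =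
      if n = n' then ((Real.pi ^ (Fintype.card M) * ∏ i, ((n i).factorial : ℝ) : ℝ) : ℂ) else 0 := by
  rw [integral_fintype_prod_volume_eq_prod]
  simp only [mom_eq]
  split_ifs with h
  · subst h
    simp only [if_true]
    push_cast
    rw [Finset.prod_mul_distrib, Finset.prod_const, Finset.card_univ]
  · have : ∃ i, n i ≠ n' i := by
      by_contra hcon
      push Not at hcon
      exact h (Finsupp.ext hcon)
    obtain ⟨i, hi⟩ := this
    apply Finset.prod_eq_zero (Finset.mem_univ i)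
    rw [if_neg hi]

theorem ev_sq_expand (z : M → ℂ) (v : Fock M) :
    ((‖ev z v‖ ^ 2 * gw z ^ 2 : ℝ) : ℂ) =
      ∑ n ∈ v.poly.support, ∑ n' ∈ v.poly.support,
        (Fock.coeff n v * conj (Fock.coeff n' v)) * ∏ i, mom (n i) (n' i) (z i) := by
  have h1 : ((‖ev z v‖ ^ 2 * gw z ^ 2 : ℝ) : ℂ) = ev z v * conj (ev z v) * ((gw z ^ 2 : ℝ) : ℂ) := by
    rw [Complex.mul_conj']
    push_cast
    ring
  rw [h1, ev_sum, map_sum, Finset.sum_mul_sum, Finset.sum_mul]
  apply Finset.sum_congr rfl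
  intro n _
  rw [Finset.sum_mul]
  apply Finset.sum_congr rfl
  intro n' _
  rw [gw_sq]
  unfold mom
  rw [Finset.prod_mul_distrib, Finset.prod_mul_distrib, map_mul, map_prod]
  push_cast
  simp only [map_pow]
  ring

theorem integrable_ev_sq (v : Fock M) :
    Integrable (fun z : M → ℂ => ‖ev z v‖ ^ 2 * gw z ^ 2) := by
  have h : Integrable (fun z : M → ℂ => ((‖ev z v‖ ^ 2 * gw z ^ 2 : ℝ) : ℂ)) := by
    simp only [ev_sq_expand]
    apply integrable_finsetSum
    intro n _
    apply integrable_finsetSum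
    intro n' _
    exact (integrable_cross n n').const_mul _
  have h2 := h.re
  simp only [RCLike.re_to_complex, Complex.ofReal_re] at h2
  exact h2

theorem integral_ev_sq (v : Fock M) :
    ∫ z : M → ℂ, ‖ev z v‖ ^ 2 * gw z ^ 2 = Real.pi ^ (Fintype.card M) * ‖v‖ ^ 2 := by
  have h : ∫ z : M → ℂ, ((‖ev z v‖ ^ 2 * gw z ^ 2 : ℝ) : ℂ) =
      ((Real.pi ^ (Fintype.card M) * ‖v‖ ^ 2 : ℝ) : ℂ) := by
    simp only [ev_sq_expand]
    rw [integral_finsetSum _ (fun n _ => integrable_finsetSum _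
      (fun n' _ => (integrable_cross n n').const_mul _))]
    simp only [integral_finsetSum _ (fun n' _ => (integrable_cross _ n').const_mul _),
      integral_const_mul, integral_cross]
    simp only [mul_ite, mul_zero, Finset.sum_ite_eq]
    rw [norm_sq_eq_sum, Finset.mul_sum]
    push_cast
    apply Finset.sum_congr rfl
    intro n hn
    rw [if_pos hn, Complex.mul_conj']
    ring
  rw [integral_complex_ofReal] at h
  exact_mod_cast h

end Pool.Agent.Helper985.SE
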