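import Pool.Agent.Helper985.SE.Barg1

set_option autoImplicit false

open MeasureTheory
open scoped BigOperators ComplexConjugate ENNReal

namespace Pool.Agent.Helper985.SE

variable {M : Type} [Fintype M]

/-- `L²` norm of a function of the electron position and the complex field coordinates. -/
noncomputable def NN (Φ : E3 × (M → ℂ) → ℂ) : ℝ≥0∞ := eLpNorm Φ 2 volume

theorem NN_sq (Φ : E3 × (M → ℂ) → ℂ) : NN Φ ^ 2 = ∫⁻ p, ‖Φ p‖ₑ ^ 2 := by
  have h := eLpNorm_nnreal_pow_eq_lintegral (f := Φ) (μ := (volume : Measure (E3 × (M → ℂ))))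
    (p := 2) (by norm_num)
  unfold NN
  have h2 : ((2 : NNReal) : ℝ≥0∞) = 2 := rfl
  rw [h2] at h
  have h3 : ((2 : NNReal) : ℝ) = ((2 : ℕ) : ℝ) := by norm_num
  rw [h3] at h
  simp only [ENNReal.rpow_natCast] at h
  exact h

/-- The operator `Φ ↦ e^{i Re (F(x)·z)} Φ(x + v, z + i conj F(x))`. -/
noncomputable def SS (F : E3 → M → ℂ) (v : E3) (Φ : E3 × (M → ℂ) → ℂ) : E3 × (M → ℂ) → ℂ :=
  fun p => Complex.exp (Complex.I * (((∑ i, F p.1 i * p.2 i).re : ℝ) : ℂ)) *
    Φ (p.1 + v, fun i => p.2 i + Complex.I * conj (F p.1 i))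

theorem norm_phase (r : ℝ) : ‖Complex.exp (Complex.I * (r : ℂ))‖ = 1 := by
  rw [mul_comm]; exact Complex.norm_exp_ofReal_mul_I r

theorem measurePreserving_shift (F : E3 → M → ℂ) (hF : Continuous F) (v : E3) :
    MeasurePreserving (fun p : E3 × (M → ℂ) =>
      ((p.1 + v, fun i => p.2 i + Complex.I * conj (F p.1 i)) : E3 × (M → ℂ))) volume volume := by
  have h1 : MeasurePreserving (fun x : E3 => x + v) volume volume :=
    measurePreserving_add_right volume v
  refine MeasurePreserving.skew_product (f := fun x : E3 => x + v)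
    (g := fun (x : E3) (z : M → ℂ) => fun i => z i + Complex.I * conj (F x i)) h1 ?_ ?_
  · apply Continuous.measurable
    apply continuous_pi
    intro i
    have h2 : Continuous (fun x : E3 => F x i) := (continuous_apply i).comp hF
    apply Continuous.add
    · exact (continuous_apply i).comp continuous_snd
    · exact continuous_const.mul (Complex.continuous_conj.comp (h2.comp continuous_fst))
  · apply Filter.Eventually.of_forall
    intro x
    have h3 : MeasurePreserving (fun z : M → ℂ => z + fun i => Complex.I * conj (F x i))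
        volume volume := measurePreserving_add_right volume _
    exact h3.map_eq

theorem continuous_SS {F : E3 → M → ℂ} (hF : Continuous F) (v : E3) {Φ : E3 × (M → ℂ) → ℂ}
    (hΦ : Continuous Φ) : Continuous (SS F v Φ) := by
  unfold SS
  have h2 : ∀ i, Continuous (fun x : E3 => F x i) := fun i => (continuous_apply i).comp hF
  apply Continuous.mul
  · apply Complex.continuous_exp.comp
    apply continuous_const.mul
    apply Complex.continuous_ofReal.comp
    apply Complex.continuous_re.comp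
    apply continuous_finset_sum
    intro i _
    exact ((h2 i).comp continuous_fst).mul ((continuous_apply i).comp continuous_snd)
  · apply hΦ.comp
    apply Continuous.prodMk
    · exact continuous_fst.add continuous_const
    · apply continuous_pi
      intro i
      apply Continuous.add
      · exact (continuous_apply i).comp continuous_snd
      · exact continuous_const.mul (Complex.continuous_conj.comp ((h2 i).comp continuous_fst))

theorem NN_SS {F : E3 → M → ℂ} (hF : Continuous F) (v : E3) {Φ : E3 × (M → ℂ) → ℂ}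
    (hΦ : Continuous Φ) : NN (SS F v Φ) = NN Φ := by
  have h1 := eLpNorm_comp_measurePreserving (p := 2) hΦ.aestronglyMeasurable
    (measurePreserving_shift F hF v)
  unfold NN
  rw [← h1]
  apply eLpNorm_congr_norm_ae
  apply Filter.Eventually.of_forall
  intro p
  simp only [SS, Function.comp]
  rw [norm_mul, norm_phase, one_mul]

theorem SS_sub (F : E3 → M → ℂ) (v : E3) (Φ Φ' : E3 × (M → ℂ) → ℂ) :
    SS F v (Φ - Φ') = SS F v Φ - SS F v Φ' := by
  funext p
  simp only [SS, Pi.sub_apply]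
  ring

theorem SS_zero (Φ : E3 × (M → ℂ) → ℂ) : SS (fun _ => 0) 0 Φ = Φ := by
  funext p
  simp [SS]

/-- composition of two commuting shifts -/
theorem SS_SS (F G : E3 → M → ℂ) (v w : E3) (Φ : E3 × (M → ℂ) → ℂ)
    (h : ∀ x, (∑ i, G (x + v) i * conj (F x i)).im = 0) :
    SS F v (SS G w Φ) = SS (fun x => F x + G (x + v)) (v + w) Φ := by
  funext p
  simp only [SS, Pi.add_apply]
  rw [← mul_assoc, ← Complex.exp_add]
  have e1 : (∑ i, G (p.1 + v) i * (p.2 i + Complex.I * conj (F p.1 i))).re =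
      (∑ i, G (p.1 + v) i * p.2 i).re := by
    have : ∑ i, G (p.1 + v) i * (p.2 i + Complex.I * conj (F p.1 i)) =
        (∑ i, G (p.1 + v) i * p.2 i) + Complex.I * ∑ i, G (p.1 + v) i * conj (F p.1 i) := by
      rw [Finset.mul_sum, ← Finset.sum_add_distrib]
      apply Finset.sum_congr rfl
      intro i _
      ring
    rw [this, Complex.add_re, Complex.I_mul_re, h]
    simp
  rw [e1]
  have e2 : (∑ i, (F p.1 i + G (p.1 + v) i) * p.2 i).re =
      (∑ i, F p.1 i * p.2 i).re + (∑ i, G (p.1 + v) i * p.2 i).re := by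
    rw [← Complex.add_re, ← Finset.sum_add_distrib]
    congr 1
    apply Finset.sum_congr rfl
    intro i _
    ring
  rw [e2]
  congr 2
  · push_cast; ring
  · rw [add_assoc]
    congr 1
    funext i
    rw [map_add]
    ring

/-- two anticommuting field shifts -/
theorem SS_anti (F G : E3 → M → ℂ) (Φ : E3 × (M → ℂ) → ℂ)
    (h : ∀ x, (∑ i, G x i * conj (F x i)).im = Real.pi / 2) :
    SS F 0 (SS G 0 Φ) = -SS G 0 (SS F 0 Φ) := by
  funext p
  simp only [SS, Pi.neg_apply, add_zero]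
  rw [← mul_assoc, ← Complex.exp_add, ← mul_assoc, ← Complex.exp_add]
  have e0 : ∀ F G : E3 → M → ℂ, (∑ i, G p.1 i * (p.2 i + Complex.I * conj (F p.1 i))).re =
      (∑ i, G p.1 i * p.2 i).re - (∑ i, G p.1 i * conj (F p.1 i)).im := by
    intro F G
    have : ∑ i, G p.1 i * (p.2 i + Complex.I * conj (F p.1 i)) =
        (∑ i, G p.1 i * p.2 i) + Complex.I * ∑ i, G p.1 i * conj (F p.1 i) := by
      rw [Finset.mul_sum, ← Finset.sum_add_distrib]
      apply Finset.sum_congr rfl
      intro i _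
      ring
    rw [this, Complex.add_re, Complex.I_mul_re]
    ring
  rw [e0 F G, e0 G F]
  have h2 : (∑ i, F p.1 i * conj (G p.1 i)).im = -(Real.pi / 2) := by
    rw [← h p.1, ← Complex.conj_im, map_sum]
    congr 1
    apply Finset.sum_congr rfl
    intro i _
    rw [map_mul, Complex.conj_conj]
    ring
  rw [h, h2]
  have h3 : (fun i => p.2 i + Complex.I * conj (F p.1 i) + Complex.I * conj (G p.1 i)) =
      (fun i => p.2 i + Complex.I * conj (G p.1 i) + Complex.I * conj (F p.1 i)) := by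
    funext i; ring
  rw [h3, ← neg_mul]
  congr 1
  set a := (∑ i, F p.1 i * p.2 i).re
  set b := (∑ i, G p.1 i * p.2 i).re
  have h4 : Complex.I * (a : ℂ) + Complex.I * ((b - Real.pi / 2 : ℝ) : ℂ) =
      (Complex.I * (b : ℂ) + Complex.I * ((a - -(Real.pi / 2) : ℝ) : ℂ)) + (-(Real.pi * Complex.I)) := by
    push_cast; ring
  rw [h4, Complex.exp_add _ (-(Real.pi * Complex.I)), Complex.exp_neg, Complex.exp_pi_mul_I]
  norm_num

theorem NN_add_le {Φ Φ' : E3 × (M → ℂ) → ℂ} (h : Continuous Φ) (h' : Continuous Φ') :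
    NN (Φ + Φ') ≤ NN Φ + NN Φ' :=
  eLpNorm_add_le h.aestronglyMeasurable h'.aestronglyMeasurable (by norm_num)

/-- The commutator inequality: anticommuting isometries cannot both be close to the identity. -/
theorem NN_le_of_anti {F G : E3 → M → ℂ} (hF : Continuous F) (hG : Continuous G)
    {Φ : E3 × (M → ℂ) → ℂ} (hΦ : Continuous Φ)
    (h : ∀ x, (∑ i, G x i * conj (F x i)).im = Real.pi / 2) :
    2 * NN Φ ≤ 2 * (NN (SS F 0 Φ - Φ) + NN (SS G 0 Φ - Φ)) := by
  have hanti := SS_anti F G Φ h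
  have c1 : Continuous (SS F 0 Φ) := continuous_SS hF 0 hΦ
  have c2 : Continuous (SS G 0 Φ) := continuous_SS hG 0 hΦ
  have c3 : Continuous (SS F 0 Φ - Φ) := c1.sub hΦ
  have c4 : Continuous (SS G 0 Φ - Φ) := c2.sub hΦ
  have e1 : -((2 : ℂ) • Φ) = ((SS F 0 (SS G 0 Φ - Φ)) + (SS F 0 Φ - Φ)) +
      ((SS G 0 (SS F 0 Φ - Φ)) + (SS G 0 Φ - Φ)) := by
    rw [SS_sub, SS_sub, hanti]
    funext p
    simp only [Pi.add_apply, Pi.sub_apply, Pi.neg_apply, Pi.smul_apply, smul_eq_mul]
    ring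
  have e2 : NN (-((2 : ℂ) • Φ)) = 2 * NN Φ := by
    unfold NN
    rw [eLpNorm_neg, eLpNorm_const_smul]
    congr 1
    simp [enorm_eq_nnnorm]
  rw [← e2, e1]
  refine (NN_add_le ((continuous_SS hF 0 c4).add c3) ((continuous_SS hG 0 c3).add c4)).trans ?_
  refine (add_le_add (NN_add_le (continuous_SS hF 0 c4) c3)
    (NN_add_le (continuous_SS hG 0 c3) c4)).trans ?_
  rw [NN_SS hF 0 c4, NN_SS hG 0 c3]
  apply le_of_eq
  ring

/-- Jensen's inequality on the unit interval. -/
theorem enorm_integral_sq_le {K : ℝ → ℂ} (hK : Continuous K) :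
    ‖∫ t in (0 : ℝ)..1, K t‖ₑ ^ 2 ≤ ∫⁻ t in Set.Ioc (0 : ℝ) 1, ‖K t‖ₑ ^ 2 := by
  have h1 : ‖∫ t in (0 : ℝ)..1, K t‖ ≤ ∫ t in (0 : ℝ)..1, ‖K t‖ :=
    intervalIntegral.norm_integral_le_integral_norm (by norm_num)
  set c := ∫ t in (0 : ℝ)..1, ‖K t‖ with hc
  have hi1 : IntervalIntegrable (fun t => ‖K t‖) volume 0 1 := hK.norm.intervalIntegrable _ _
  have hi2 : IntervalIntegrable (fun t => ‖K t‖ ^ 2) volume 0 1 :=
    (hK.norm.pow 2).intervalIntegrable _ _
  have h2 : 0 ≤ ∫ t in (0 : ℝ)..1, (‖K t‖ - c) ^ 2 :=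
    intervalIntegral.integral_nonneg (by norm_num) (fun t _ => sq_nonneg _)
  have h3 : ∫ t in (0 : ℝ)..1, (‖K t‖ - c) ^ 2 = (∫ t in (0 : ℝ)..1, ‖K t‖ ^ 2) - c ^ 2 := by
    have e : ∀ t, (‖K t‖ - c) ^ 2 = ‖K t‖ ^ 2 - (2 * c) * ‖K t‖ + c ^ 2 := by intro t; ring
    simp only [e]
    rw [intervalIntegral.integral_add (hi2.sub (hi1.const_mul _)) (by simp),
      intervalIntegral.integral_sub hi2 (hi1.const_mul _), intervalIntegral.integral_const_mul,
      ← hc]
    simp
    ring
  have h4 : ‖∫ t in (0 : ℝ)..1, K t‖ ^ 2 ≤ ∫ t in (0 : ℝ)..1, ‖K t‖ ^ 2 := by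
    have h5 : ‖∫ t in (0 : ℝ)..1, K t‖ ^ 2 ≤ c ^ 2 := pow_le_pow_left₀ (norm_nonneg _) h1 2
    linarith
  have h6 : ∫⁻ t in Set.Ioc (0 : ℝ) 1, ‖K t‖ₑ ^ 2 =
      ENNReal.ofReal (∫ t in (0 : ℝ)..1, ‖K t‖ ^ 2) := by
    rw [intervalIntegral.integral_of_le (by norm_num),
      ofReal_integral_eq_lintegral_ofReal hi2.1 (Filter.Eventually.of_forall
        (fun t => by positivity))]
    apply lintegral_congr
    intro t
    rw [← ofReal_norm_eq_enorm, ENNReal.ofReal_pow (norm_nonneg _)]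
  rw [h6, ← ofReal_norm_eq_enorm, ← ENNReal.ofReal_pow (norm_nonneg _)]
  exact ENNReal.ofReal_le_ofReal h4

end Pool.Agent.Helper985.SE
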