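import Pool.Agent.Helper985.SE.Barg2

set_option autoImplicit false

open MeasureTheory
open scoped BigOperators ComplexConjugate ENNReal

namespace Pool.Agent.Helper985.SE

theorem FS.expand {X : Type} [NormedAddCommGroup X] [NormedSpace ℝ X]
    {V : Type} [NormedAddCommGroup V] [InnerProductSpace ℂ V] {f : X → V} (hf : FS f) :
    ∃ (r : ℕ) (c : Fin r → X → ℂ) (e : Fin r → V),
      (∀ j, ContDiff ℝ ((⊤ : ℕ∞) : WithTop ℕ∞) (c j)) ∧ ∀ x, f x = ∑ j, c j x • e j := by
  obtain ⟨E, hE, hfE⟩ := hf.finite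
  let b := stdOrthonormalBasis ℂ E
  refine ⟨Module.finrank ℂ E, fun j x => inner ℂ (b j : V) (f x), fun j => (b j : V), ?_, ?_⟩
  · intro j
    exact contDiff_const.inner ℂ hf.smooth
  · intro x
    have h1 := b.sum_repr' (⟨f x, hfE x⟩ : E)
    have h2 := congrArg (fun w : E => (w : V)) h1
    simp only [Submodule.coe_sum, Submodule.coe_smul, Submodule.coe_inner] at h2
    exact h2.symm

variable {M : Type} [Fintype M]

/-- The function on `ℝ³ × ℂ^M` representing a wave function. -/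
noncomputable def BB (Ψ : E3 → Fock M) : E3 × (M → ℂ) → ℂ :=
  fun p => ev p.2 (Ψ p.1) * ((gw p.2 : ℝ) : ℂ)

theorem continuous_BB {Ψ : E3 → Fock M} (h : FS Ψ) : Continuous (BB Ψ) := by
  obtain ⟨r, c, e, hc, he⟩ := h.expand
  have h1 : BB Ψ = fun p => (∑ j, c j p.1 * ev p.2 (e j)) * ((gw p.2 : ℝ) : ℂ) := by
    funext p
    unfold BB
    rw [he]
    simp only [map_sum, map_smul, smul_eq_mul]
  rw [h1]
  apply Continuous.mul
  · apply continuous_finset_sum
    intro j _
    exact ((hc j).continuous.comp continuous_fst).mul ((continuous_ev (e j)).comp continuous_snd)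
  · exact Complex.continuous_ofReal.comp (continuous_gw.comp continuous_snd)

theorem hasDerivAt_ev (ζ : ℝ → M → ℂ) (ζ' : M → ℂ) (t : ℝ)
    (hζ : ∀ i, HasDerivAt (fun s => ζ s i) (ζ' i) t) (v : Fock M) :
    HasDerivAt (fun s => ev (ζ s) v) (∑ i, ζ' i * ev (ζ t) (an i v)) t := by
  classical
  have key : ∀ p : MvPolynomial M ℂ,
      HasDerivAt (fun s => MvPolynomial.eval (ζ s) p)
        (∑ i, ζ' i * MvPolynomial.eval (ζ t) (MvPolynomial.pderiv i p)) t := by
    intro p
    induction p using MvPolynomial.induction_on with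
    | C a =>
      simp only [MvPolynomial.eval_C, MvPolynomial.pderiv_C, map_zero, mul_zero,
        Finset.sum_const_zero]
      exact hasDerivAt_const _ _
    | add p q hp hq =>
      simp only [map_add, mul_add, Finset.sum_add_distrib]
      exact hp.add hq
    | mul_X p n hp =>
      have h1 := hp.mul (hζ n)
      simp only [map_mul, MvPolynomial.eval_X]
      refine h1.congr_deriv ?_
      have h2 : ∀ i, ζ' i * MvPolynomial.eval (ζ t) (MvPolynomial.pderiv i (p * MvPolynomial.X n)) =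
          ζ' i * MvPolynomial.eval (ζ t) (MvPolynomial.pderiv i p) * ζ t n +
            (if i = n then ζ' i * MvPolynomial.eval (ζ t) p else 0) := by
        intro i
        rw [MvPolynomial.pderiv_mul, MvPolynomial.pderiv_X]
        by_cases h : i = n
        · subst h
          simp
          ring
        · have h' : Pi.single (M := fun _ : M => MvPolynomial M ℂ) i (1 : MvPolynomial M ℂ) n = 0 := by
            rw [Pi.single_apply, if_neg (Ne.symm h)]
          rw [h', if_neg h]
          simp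
          ring
      rw [Finset.sum_congr rfl (fun i _ => h2 i), Finset.sum_add_distrib, Finset.sum_ite_eq',
        if_pos (Finset.mem_univ _), Finset.sum_mul]
      ring
  have h := key v.poly
  have e1 : (fun s => ev (ζ s) v) = fun s => MvPolynomial.eval (ζ s) v.poly := by
    funext s; exact ev_eq _ _
  have e2 : ∀ i, ev (ζ t) (an i v) = MvPolynomial.eval (ζ t) (MvPolynomial.pderiv i v.poly) := by
    intro i; exact ev_eq _ _
  rw [e1]
  simp only [e2]
  exact h

theorem hasDerivAt_evΨ {Ψ : E3 → Fock M} (hΨ : FS Ψ) (ζ : ℝ → M → ℂ) (ζ' : M → ℂ) (t : ℝ)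
    (x v : E3) (hζ : ∀ i, HasDerivAt (fun s => ζ s i) (ζ' i) t) :
    HasDerivAt (fun s : ℝ => ev (ζ s) (Ψ (x + s • v)))
      (ev (ζ t) (fderiv ℝ Ψ (x + t • v) v) + ∑ i, ζ' i * ev (ζ t) (an i (Ψ (x + t • v)))) t := by
  obtain ⟨r, c, e, hc, he⟩ := hΨ.expand
  have hy : HasDerivAt (fun s : ℝ => x + s • v) v t := by
    simpa using ((hasDerivAt_id t).smul_const v).const_add x
  have hcd : ∀ j, HasDerivAt (fun s : ℝ => c j (x + s • v)) (fderiv ℝ (c j) (x + t • v) v) t := by
    intro j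
    have h1 : DifferentiableAt ℝ (c j) (x + t • v) := ((hc j).differentiable (by simp)) _
    exact h1.hasFDerivAt.comp_hasDerivAt t hy
  have hfd : fderiv ℝ Ψ (x + t • v) v = ∑ j, fderiv ℝ (c j) (x + t • v) v • e j := by
    have h1 : Ψ = fun y => ∑ j, c j y • e j := by funext y; exact he y
    have h2 : HasFDerivAt (fun y => ∑ j, c j y • e j)
        (∑ j, (fderiv ℝ (c j) (x + t • v)).smulRight (e j)) (x + t • v) := by
      apply HasFDerivAt.fun_sum
      intro j _
      have h1 : DifferentiableAt ℝ (c j) (x + t • v) := ((hc j).differentiable (by simp)) _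
      exact h1.hasFDerivAt.smul_const (e j)
    rw [h1, h2.fderiv]
    simp
  have h3 : HasDerivAt (fun s : ℝ => ∑ j, c j (x + s • v) * ev (ζ s) (e j))
      (∑ j, (fderiv ℝ (c j) (x + t • v) v * ev (ζ t) (e j) +
        c j (x + t • v) * ∑ i, ζ' i * ev (ζ t) (an i (e j)))) t := by
    apply HasDerivAt.fun_sum
    intro j _
    exact (hcd j).mul (hasDerivAt_ev ζ ζ' t hζ (e j))
  have e1 : (fun s : ℝ => ev (ζ s) (Ψ (x + s • v))) =
      fun s : ℝ => ∑ j, c j (x + s • v) * ev (ζ s) (e j) := by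
    funext s
    rw [he]
    simp only [map_sum, map_smul, smul_eq_mul]
  rw [e1]
  refine h3.congr_deriv ?_
  rw [hfd, he, Finset.sum_add_distrib]
  simp only [map_sum, map_smul, smul_eq_mul]
  congr 1
  simp only [Finset.mul_sum]
  rw [Finset.sum_comm]
  apply Finset.sum_congr rfl
  intro i _
  apply Finset.sum_congr rfl
  intro j _
  ring

theorem hasDerivAt_gw (ζ : ℝ → M → ℂ) (ζ' : M → ℂ) (t : ℝ)
    (hζ : ∀ i, HasDerivAt (fun s => ζ s i) (ζ' i) t) :
    HasDerivAt (fun s => gw (ζ s)) (-(gw (ζ t)) * ∑ i, (conj (ζ t i) * ζ' i).re) t := by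
  unfold gw
  have h1 : HasDerivAt (fun s => ∑ i, ‖ζ s i‖ ^ 2) (∑ i, 2 * (conj (ζ t i) * ζ' i).re) t := by
    apply HasDerivAt.fun_sum
    intro i _
    have h2 := (hζ i).norm_sq
    refine h2.congr_deriv ?_
    rw [Complex.inner, mul_comm (conj (ζ t i))]
  have h3 := ((h1.neg).div_const 2).exp
  refine h3.congr_deriv ?_
  rw [← Finset.mul_sum]
  simp only [Pi.neg_apply]
  ring

/-- The generator `-i ∂_v + a*(γ) + a(γ̄)`. -/
noncomputable def gen (v : E3) (γ : E3 → M → ℂ) (Ψ : E3 → Fock M) : E3 → Fock M :=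
  fun x => (-Complex.I) • fderiv ℝ Ψ x v + crC (γ x) (Ψ x) + anC (fun i => conj (γ x i)) (Ψ x)

theorem FS.gen {Ψ : E3 → Fock M} (h : FS Ψ) (v : E3) {γ : E3 → M → ℂ}
    (hγ : ∀ i, ContDiff ℝ ((⊤ : ℕ∞) : WithTop ℕ∞) (fun x => γ x i)) : FS (SE.gen v γ Ψ) := by
  unfold SE.gen
  apply FS.add
  · exact ((h.deriv v).const_smul _).add (h.crC hγ)
  · exact h.anC (c := fun x i => conj (γ x i)) (fun i => Complex.conjCLE.contDiff.comp (hγ i))

theorem hasDerivAt_path {Ψ : E3 → Fock M} (hΨ : FS Ψ) (v : E3) (γ : E3 → M → ℂ)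
    (G : ℝ → E3 → M → ℂ) (x : E3) (z : M → ℂ) (t : ℝ)
    (hG : ∀ i, HasDerivAt (fun s => G s x i) (γ (x + t • v) i) t)
    (hre : (∑ i, γ (x + t • v) i * conj (G t x i)).im = 0) :
    HasDerivAt (fun s => SS (G s) (s • v) (BB Ψ) (x, z))
      (Complex.I * SS (G t) (t • v) (BB (gen v γ Ψ)) (x, z)) t := by
  set ζ : ℝ → M → ℂ := fun s i => z i + Complex.I * conj (G s x i) with hζdef
  have hζ : ∀ i, HasDerivAt (fun s => ζ s i) (Complex.I * conj (γ (x + t • v) i)) t := by
    intro i
    have h1 : HasDerivAt (fun s => conj (G s x i)) (conj (γ (x + t • v) i)) t :=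
      (Complex.conjCLE : ℂ ≃L[ℝ] ℂ).toContinuousLinearMap.hasFDerivAt.comp_hasDerivAt t (hG i)
    exact (h1.const_mul Complex.I).const_add (z i)
  have hr : HasDerivAt (fun s => (∑ i, G s x i * z i).re)
      (∑ i, γ (x + t • v) i * z i).re t := by
    have h1 : HasDerivAt (fun s => ∑ i, G s x i * z i) (∑ i, γ (x + t • v) i * z i) t := by
      apply HasDerivAt.fun_sum
      intro i _
      exact (hG i).mul_const (z i)
    exact Complex.reCLM.hasFDerivAt.comp_hasDerivAt t h1
  have hph : HasDerivAt (fun s => Complex.exp (Complex.I * (((∑ i, G s x i * z i).re : ℝ) : ℂ)))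
      (Complex.exp (Complex.I * (((∑ i, G t x i * z i).re : ℝ) : ℂ)) *
        (Complex.I * (((∑ i, γ (x + t • v) i * z i).re : ℝ) : ℂ))) t := by
    have h1 := (hr.ofReal_comp.const_mul Complex.I).cexp
    exact h1
  have hev := hasDerivAt_evΨ hΨ ζ _ t x v hζ
  have hg := (hasDerivAt_gw ζ _ t hζ).ofReal_comp
  have h := hph.fun_mul (hev.fun_mul hg)
  have e1 : (fun s => SS (G s) (s • v) (BB Ψ) (x, z)) = fun s =>
      Complex.exp (Complex.I * (((∑ i, G s x i * z i).re : ℝ) : ℂ)) *
        (ev (ζ s) (Ψ (x + s • v)) * ((gw (ζ s) : ℝ) : ℂ)) := by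
    funext s
    simp only [SS, BB, hζdef]
  rw [e1]
  refine h.congr_deriv ?_
  simp only [SS, BB, gen]
  have hζt : (fun i => z i + Complex.I * conj (G t x i)) = ζ t := rfl
  rw [hζt]
  simp only [map_add, map_smul, smul_eq_mul]
  have e2 : ev (ζ t) (crC (γ (x + t • v)) (Ψ (x + t • v))) =
      (∑ i, γ (x + t • v) i * ζ t i) * ev (ζ t) (Ψ (x + t • v)) := by
    rw [crC_apply]
    simp only [map_sum, map_smul, smul_eq_mul, ev_cr]
    rw [Finset.sum_mul]
    apply Finset.sum_congr rfl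
    intro i _
    ring
  have e3 : ev (ζ t) (anC (fun i => conj (γ (x + t • v) i)) (Ψ (x + t • v))) =
      ∑ i, conj (γ (x + t • v) i) * ev (ζ t) (an i (Ψ (x + t • v))) := by
    rw [anC_apply]
    simp only [map_sum, map_smul, smul_eq_mul]
  rw [e2, e3]
  have e4 : ∑ i, Complex.I * conj (γ (x + t • v) i) * ev (ζ t) (an i (Ψ (x + t • v))) =
      Complex.I * ∑ i, conj (γ (x + t • v) i) * ev (ζ t) (an i (Ψ (x + t • v))) := by
    rw [Finset.mul_sum]
    apply Finset.sum_congr rfl
    intro i _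
    ring
  rw [e4]
  set a : ℂ := ∑ i, γ (x + t • v) i * z i with ha
  set b : ℂ := ∑ i, γ (x + t • v) i * conj (G t x i) with hb
  have e5 : ∑ i, γ (x + t • v) i * ζ t i = a + Complex.I * b := by
    rw [ha, hb, Finset.mul_sum, ← Finset.sum_add_distrib]
    apply Finset.sum_congr rfl
    intro i _
    simp only [hζdef]
    ring
  have e6 : ∑ i, (conj (ζ t i) * (Complex.I * conj (γ (x + t • v) i))).re = (a + Complex.I * b).im := by
    rw [← e5, Complex.im_sum]
    apply Finset.sum_congr rfl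
    intro i _
    simp only [Complex.mul_re, Complex.mul_im, Complex.conj_re, Complex.conj_im, Complex.I_re,
      Complex.I_im]
    ring
  rw [e5, e6]
  have e7 : b = ((b.re : ℝ) : ℂ) := by
    apply Complex.ext
    · simp
    · simpa using hre
  have e8 : (a + Complex.I * b).im = a.im + b.re := by
    rw [Complex.add_im, Complex.I_mul_im]
  rw [e8]
  have e9 : a = (a.re : ℂ) + (a.im : ℂ) * Complex.I := (Complex.re_add_im a).symm
  set W := ∑ i, conj (γ (x + t • v) i) * ev (ζ t) (an i (Ψ (x + t • v)))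
  set U := ev (ζ t) (Ψ (x + t • v))
  set D := ev (ζ t) (fderiv ℝ Ψ (x + t • v) v)
  set g := ((gw (ζ t) : ℝ) : ℂ)
  set P := Complex.exp (Complex.I * (((∑ i, G t x i * z i).re : ℝ) : ℂ))
  have e10 : (((-gw (ζ t) * (a.im + b.re)) : ℝ) : ℂ) = -g * ((a.im : ℂ) + (b.re : ℂ)) := by
    push_cast; ring
  rw [e10]
  have hI : Complex.I * Complex.I = -1 := Complex.I_mul_I
  have e11 : Complex.I * a = Complex.I * (a.re : ℂ) - (a.im : ℂ) := by
    conv_lhs => rw [e9]
    linear_combination (a.im : ℂ) * hI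
  have e12 : Complex.I * (Complex.I * b) = -(b.re : ℂ) := by
    conv_lhs => rw [e7]
    linear_combination (b.re : ℂ) * hI
  linear_combination (P * g * D) * hI - P * U * g * e11 - P * U * g * e12

end Pool.Agent.Helper985.SE
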