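import Pool.Agent.Helper985.SE.Barg3

set_option autoImplicit false

open MeasureTheory
open scoped BigOperators ComplexConjugate ENNReal

namespace Pool.Agent.Helper985.SE

variable {M : Type} [Fintype M]

theorem continuous_path {Φ : E3 × (M → ℂ) → ℂ} (hΦ : Continuous Φ) (v : E3)
    (G : ℝ → E3 → M → ℂ) (hGc : ∀ i, Continuous (fun p : ℝ × E3 => G p.1 p.2 i)) :
    Continuous (fun q : (E3 × (M → ℂ)) × ℝ => SS (G q.2) (q.2 • v) Φ q.1) := by
  unfold SS
  have h2 : ∀ i, Continuous (fun q : (E3 × (M → ℂ)) × ℝ => G q.2 q.1.1 i) := by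
    intro i
    exact (hGc i).comp (continuous_snd.prodMk (continuous_fst.comp continuous_fst))
  have h3 : ∀ i, Continuous (fun q : (E3 × (M → ℂ)) × ℝ => q.1.2 i) := by
    intro i
    exact (continuous_apply i).comp (continuous_snd.comp continuous_fst)
  apply Continuous.mul
  · apply Complex.continuous_exp.comp
    apply continuous_const.mul
    apply Complex.continuous_ofReal.comp
    apply Complex.continuous_re.comp
    apply continuous_finset_sum
    intro i _
    exact (h2 i).mul (h3 i)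
  · apply hΦ.comp
    apply Continuous.prodMk
    · exact (continuous_fst.comp continuous_fst).add (continuous_snd.smul continuous_const)
    · apply continuous_pi
      intro i
      exact (h3 i).add (continuous_const.mul (Complex.continuous_conj.comp (h2 i)))

theorem path_L2 {K : (E3 × (M → ℂ)) → ℝ → ℂ}
    (hKc : Continuous (fun q : (E3 × (M → ℂ)) × ℝ => K q.1 q.2)) (A : E3 × (M → ℂ) → ℂ)
    (hA : ∀ p, A p = ∫ t in (0 : ℝ)..1, K p t) (c : ℝ≥0∞)
    (hc : ∀ t, ∫⁻ p, ‖K p t‖ₑ ^ 2 = c) : ∫⁻ p, ‖A p‖ₑ ^ 2 ≤ c := by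
  have hKp : ∀ p, Continuous (K p) := by
    intro p
    exact hKc.comp (Continuous.prodMk_right p)
  calc ∫⁻ p, ‖A p‖ₑ ^ 2
      ≤ ∫⁻ p, ∫⁻ t in Set.Ioc (0 : ℝ) 1, ‖K p t‖ₑ ^ 2 := by
        apply lintegral_mono
        intro p
        simp only
        rw [hA p]
        exact enorm_integral_sq_le (hKp p)
    _ = ∫⁻ t in Set.Ioc (0 : ℝ) 1, ∫⁻ p, ‖K p t‖ₑ ^ 2 := by
        apply lintegral_lintegral_swap
        apply Measurable.aemeasurable
        exact (hKc.measurable.enorm.pow_const 2)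
    _ = ∫⁻ _t in Set.Ioc (0 : ℝ) 1, c := by
        apply lintegral_congr
        intro t
        exact hc t
    _ = c := by
        rw [lintegral_const]
        simp

/-- The basic path inequality: a parallel transport is close to the identity when its generator
is small. -/
theorem path_bound {Ψ : E3 → Fock M} (hΨ : FS Ψ) (v : E3) (γ : E3 → M → ℂ)
    (hγ : ∀ i, ContDiff ℝ ((⊤ : ℕ∞) : WithTop ℕ∞) (fun x => γ x i))
    (G : ℝ → E3 → M → ℂ)
    (hGc : ∀ i, Continuous (fun p : ℝ × E3 => G p.1 p.2 i))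
    (hG0 : ∀ x, G 0 x = 0)
    (hG : ∀ x t i, HasDerivAt (fun s => G s x i) (γ (x + t • v) i) t)
    (hre : ∀ x t, (∑ i, γ (x + t • v) i * conj (G t x i)).im = 0) :
    NN (SS (G 1) v (BB Ψ) - BB Ψ) ≤ NN (BB (gen v γ Ψ)) := by
  have hgen : Continuous (BB (gen v γ Ψ)) := continuous_BB (hΨ.gen v hγ)
  obtain ⟨K, hK⟩ : ∃ K : (E3 × (M → ℂ)) → ℝ → ℂ, K = fun p t =>
      Complex.I * SS (G t) (t • v) (BB (gen v γ Ψ)) p := ⟨_, rfl⟩
  have hKc : Continuous (fun q : (E3 × (M → ℂ)) × ℝ => K q.1 q.2) := by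
    rw [hK]
    exact continuous_const.mul (continuous_path hgen v G hGc)
  have hKp : ∀ p, Continuous (K p) := by
    intro p
    exact hKc.comp (Continuous.prodMk_right p)
  have hd : ∀ (p : E3 × (M → ℂ)) (t : ℝ),
      HasDerivAt (fun s : ℝ => SS (G s) (s • v) (BB Ψ) p) (K p t) t := by
    intro p t
    rw [hK]
    exact hasDerivAt_path hΨ v γ G p.1 p.2 t (fun i => hG p.1 t i) (hre p.1 t)
  have h2 : SS (G 0) ((0 : ℝ) • v) (BB Ψ) = BB Ψ := by
    have : G 0 = fun _ => 0 := by funext x; exact hG0 x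
    rw [this, zero_smul]
    exact SS_zero _
  have hpt : ∀ p : E3 × (M → ℂ), (SS (G 1) v (BB Ψ) - BB Ψ) p = ∫ t in (0 : ℝ)..1, K p t := by
    intro p
    rw [intervalIntegral.integral_eq_sub_of_hasDerivAt (fun t _ => hd p t)
      ((hKp p).intervalIntegrable _ _)]
    rw [h2, one_smul]
    rfl
  have hc : ∀ t, ∫⁻ p, ‖K p t‖ₑ ^ 2 = NN (BB (gen v γ Ψ)) ^ 2 := by
    intro t
    have hGt : Continuous (G t) := by
      apply continuous_pi
      intro i
      exact (hGc i).comp (Continuous.prodMk_right t)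
    rw [← NN_SS hGt (t • v) hgen, NN_sq]
    apply lintegral_congr
    intro p
    have hI : ‖Complex.I‖ₑ = 1 := by
      rw [← ofReal_norm, Complex.norm_I, ENNReal.ofReal_one]
    rw [hK, enorm_mul, hI, one_mul]
  have h1 : NN (SS (G 1) v (BB Ψ) - BB Ψ) ^ 2 ≤ NN (BB (gen v γ Ψ)) ^ 2 := by
    rw [NN_sq]
    exact path_L2 hKc _ hpt _ hc
  exact (ENNReal.pow_le_pow_left_iff two_ne_zero).1 h1

theorem NN_BB {Ψ : E3 → Fock M} (hΨ : FS Ψ) :
    NN (BB Ψ) ^ 2 = ENNReal.ofReal (Real.pi ^ (Fintype.card M) * ∫ x, ‖Ψ x‖ ^ 2) := by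
  rw [NN_sq]
  have hc := continuous_BB hΨ
  have h1 : ∫⁻ p, ‖BB Ψ p‖ₑ ^ 2 = ∫⁻ x, ∫⁻ z, ‖BB Ψ (x, z)‖ₑ ^ 2 := by
    rw [Measure.volume_eq_prod]
    apply lintegral_prod
    exact (hc.measurable.enorm.pow_const 2).aemeasurable
  rw [h1]
  have h2 : ∀ x, ∫⁻ z, ‖BB Ψ (x, z)‖ₑ ^ 2 = ENNReal.ofReal (Real.pi ^ (Fintype.card M) * ‖Ψ x‖ ^ 2) := by
    intro x
    rw [← integral_ev_sq, ofReal_integral_eq_lintegral_ofReal (integrable_ev_sq (Ψ x))
      (Filter.Eventually.of_forall (fun z => by positivity))]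
    apply lintegral_congr
    intro z
    unfold BB
    simp only
    rw [← ofReal_norm, ← ENNReal.ofReal_pow (norm_nonneg _), norm_mul, mul_pow,
      Complex.norm_real, Real.norm_of_nonneg (gw_pos z).le]
  simp only [h2]
  rw [← integral_const_mul, ofReal_integral_eq_lintegral_ofReal]
  · exact (FS.integrable_norm_sq volume hΨ).const_mul _
  · apply Filter.Eventually.of_forall
    intro x
    have := Real.pi_pos
    positivity

/-- The constant relating the norms. -/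
noncomputable def cM (M : Type) [Fintype M] : ℝ := Real.sqrt (Real.pi ^ (Fintype.card M))

theorem cM_pos : 0 < cM M := by
  unfold cM
  have := Real.pi_pos
  positivity

/-- The `L²` norm of a wave function. -/
noncomputable def nrm (Ψ : E3 → Fock M) : ℝ := Real.sqrt (∫ x, ‖Ψ x‖ ^ 2)

omit [Fintype M] in
theorem nrm_sq (Ψ : E3 → Fock M) : nrm Ψ ^ 2 = ∫ x, ‖Ψ x‖ ^ 2 :=
  Real.sq_sqrt (integral_nonneg (fun x => by positivity))

omit [Fintype M] in
theorem nrm_nonneg (Ψ : E3 → Fock M) : 0 ≤ nrm Ψ := Real.sqrt_nonneg _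

theorem NN_BB_eq {Ψ : E3 → Fock M} (hΨ : FS Ψ) :
    NN (BB Ψ) = ENNReal.ofReal (cM M * nrm Ψ) := by
  have h1 : NN (BB Ψ) ^ 2 = ENNReal.ofReal (cM M * nrm Ψ) ^ 2 := by
    rw [NN_BB hΨ, ← ENNReal.ofReal_pow (mul_nonneg cM_pos.le (nrm_nonneg _)), mul_pow, nrm_sq]
    congr 2
    unfold cM
    rw [Real.sq_sqrt]
    have := Real.pi_pos
    positivity
  exact le_antisymm ((ENNReal.pow_le_pow_left_iff two_ne_zero).1 h1.le)
    ((ENNReal.pow_le_pow_left_iff two_ne_zero).1 h1.ge)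

end Pool.Agent.Helper985.SE
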