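import Pool.Agent.Helper985.SE.Seg4

set_option autoImplicit false

open MeasureTheory
open scoped BigOperators ComplexConjugate ENNReal

namespace Pool.Agent.Helper985.SE

variable {L Λ : ℝ}

theorem sum_k_lower (hL : 0 < L) (hΛ : 0 < Λ) [Fintype (Momentum L Λ)]
    (hρ : 4 ≤ L * Λ / (2 * Real.pi)) :
    2 * Λ ^ 2 * (L * Λ / (2 * Real.pi)) ^ 3 / 8 ^ 5 ≤
      ∑ n : Momentum L Λ, (n.k 0 ^ 2 + n.k 1 ^ 2) := by
  classical
  set ρ := L * Λ / (2 * Real.pi) with hρdef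
  have hpi := Real.pi_pos
  set N0 : ℕ := ⌊ρ / 4⌋₊ with hN0
  have hN1 : 1 ≤ N0 := by
    rw [hN0]
    apply Nat.le_floor
    push_cast
    linarith
  have hN2 : (N0 : ℝ) ≤ ρ / 4 := Nat.floor_le (by positivity)
  have hN3 : ρ / 4 < N0 + 1 := Nat.lt_floor_add_one _
  have hN1' : (1 : ℝ) ≤ N0 := by exact_mod_cast hN1
  have hN4 : ρ / 8 ≤ N0 := by linarith
  have hκ : (2 * Real.pi / L) ^ 2 * ρ ^ 2 = Λ ^ 2 := by
    rw [hρdef]; field_simp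
  have hκpos : 0 < 2 * Real.pi / L := by positivity
  -- the injection
  have hmem : ∀ j : Fin 3 → Fin N0,
      0 < ‖waveVector L (fun i => (N0 : ℤ) + ((j i : ℕ) : ℤ))‖ ∧
      ‖waveVector L (fun i => (N0 : ℤ) + ((j i : ℕ) : ℤ))‖ < Λ := by
    intro j
    have hb : ∀ i, (N0 : ℝ) ≤ (((N0 : ℤ) + ((j i : ℕ) : ℤ) : ℤ) : ℝ) ∧
        (((N0 : ℤ) + ((j i : ℕ) : ℤ) : ℤ) : ℝ) ≤ 2 * N0 := by
      intro i
      have h1 : ((j i : ℕ) : ℝ) ≤ N0 := by exact_mod_cast (j i).2.le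
      have h2 : (0 : ℝ) ≤ ((j i : ℕ) : ℝ) := Nat.cast_nonneg _
      push_cast
      constructor <;> linarith
    have hsq : ‖waveVector L (fun i => (N0 : ℤ) + ((j i : ℕ) : ℤ))‖ ^ 2 =
        (2 * Real.pi / L) ^ 2 * ∑ i, ((((N0 : ℤ) + ((j i : ℕ) : ℤ) : ℤ)) : ℝ) ^ 2 :=
      norm_waveVector_sq' L _
    rw [Fin.sum_univ_three] at hsq
    obtain ⟨a0, b0⟩ := hb 0
    obtain ⟨a1, b1⟩ := hb 1
    obtain ⟨a2, b2⟩ := hb 2
    constructor
    · rw [norm_pos_iff]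
      intro h0
      rw [h0, norm_zero] at hsq
      have : 0 < (2 * Real.pi / L) ^ 2 * (((((N0 : ℤ) + ((j 0 : ℕ) : ℤ) : ℤ)) : ℝ) ^ 2 +
          ((((N0 : ℤ) + ((j 1 : ℕ) : ℤ) : ℤ)) : ℝ) ^ 2 + ((((N0 : ℤ) + ((j 2 : ℕ) : ℤ) : ℤ)) : ℝ) ^ 2) := by
        apply mul_pos (by positivity)
        nlinarith
      rw [← hsq] at this
      norm_num at this
    · apply lt_of_pow_lt_pow_left₀ 2 hΛ.le
      rw [hsq, ← hκ]
      apply mul_lt_mul_of_pos_left _ (by positivity)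
      nlinarith
  let f : (Fin 3 → Fin N0) → Momentum L Λ := fun j =>
    ⟨fun i => (N0 : ℤ) + ((j i : ℕ) : ℤ), hmem j⟩
  have hf : Function.Injective f := by
    intro a b hab
    funext i
    have h1 := congrFun (congrArg (fun z : Momentum L Λ => z.1) hab) i
    simp only [f] at h1
    apply Fin.ext
    omega
  have h1 : ∑ j : Fin 3 → Fin N0, ((f j).k 0 ^ 2 + (f j).k 1 ^ 2) ≤
      ∑ n : Momentum L Λ, (n.k 0 ^ 2 + n.k 1 ^ 2) := by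
    have h0 := Finset.sum_map Finset.univ ⟨f, hf⟩
      (fun n : Momentum L Λ => n.k 0 ^ 2 + n.k 1 ^ 2)
    refine le_trans (le_of_eq h0.symm) ?_
    apply Finset.sum_le_sum_of_subset_of_nonneg (Finset.subset_univ _)
    intro n _ _
    positivity
  refine le_trans ?_ h1
  have h2 : ∀ j : Fin 3 → Fin N0, 2 * ((2 * Real.pi / L) ^ 2 * (N0 : ℝ) ^ 2) ≤
      (f j).k 0 ^ 2 + (f j).k 1 ^ 2 := by
    intro j
    have e : ∀ i, (f j).k i = (2 * Real.pi / L) * (((N0 : ℤ) + ((j i : ℕ) : ℤ) : ℤ) : ℝ) :=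
      fun i => rfl
    have hb : ∀ i, (2 * Real.pi / L) ^ 2 * (N0 : ℝ) ^ 2 ≤ (f j).k i ^ 2 := by
      intro i
      rw [e, mul_pow]
      apply mul_le_mul_of_nonneg_left _ (by positivity)
      apply pow_le_pow_left₀ (by positivity)
      push_cast
      have : (0 : ℝ) ≤ ((j i : ℕ) : ℝ) := Nat.cast_nonneg _
      linarith
    linarith [hb 0, hb 1]
  have h3 : (N0 : ℝ) ^ 3 * (2 * ((2 * Real.pi / L) ^ 2 * (N0 : ℝ) ^ 2)) ≤
      ∑ j : Fin 3 → Fin N0, ((f j).k 0 ^ 2 + (f j).k 1 ^ 2) := by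
    have h4 := Finset.card_nsmul_le_sum (Finset.univ : Finset (Fin 3 → Fin N0))
      (fun j => (f j).k 0 ^ 2 + (f j).k 1 ^ 2) _ (fun j _ => h2 j)
    rw [Finset.card_univ, Fintype.card_fun, Fintype.card_fin, Fintype.card_fin, nsmul_eq_mul] at h4
    push_cast at h4
    exact h4
  refine le_trans ?_ h3
  rw [← hκ]
  have h5 : (ρ / 8) ^ 5 ≤ (N0 : ℝ) ^ 5 := pow_le_pow_left₀ (by positivity) hN4 5
  calc 2 * ((2 * Real.pi / L) ^ 2 * ρ ^ 2) * ρ ^ 3 / 8 ^ 5 =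
      2 * (2 * Real.pi / L) ^ 2 * (ρ / 8) ^ 5 := by ring
    _ ≤ 2 * (2 * Real.pi / L) ^ 2 * (N0 : ℝ) ^ 5 := by gcongr
    _ = _ := by ring

/-- Lower bound for the commutator constant. -/
theorem S1_lower {α : ℝ} (hα : 0 < α) (hL : 0 < L) (hΛ : 0 < Λ) [Fintype (Momentum L Λ)]
    (hρ : 4 ≤ L * Λ / (2 * Real.pi)) (N : ℕ) (hN : 0 < N)
    (hn : ∀ (n : Momentum L Λ) (i : Fin 3), 2 * |n.1 i| < N) :
    α * (L / N) ^ 4 * Λ ^ 5 / (16384 * Real.pi ^ 7) ≤ S1 L Λ α (L / N) := by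
  have hpi := Real.pi_pos
  have h1 := sum_k_lower hL hΛ hρ
  have hN' : (0 : ℝ) < N := by exact_mod_cast hN
  have h2 : ∀ n : Momentum L Λ, α / (2 * L ^ 3) * (L / N) ^ 4 * (2 / Real.pi) ^ 4 *
      (n.k 0 ^ 2 + n.k 1 ^ 2) ≤ bn α (L / N) n := by
    intro n
    unfold bn
    have hθ : ∀ i, |L / N * n.k i| ≤ Real.pi := by
      intro i
      have e : n.k i = (2 * Real.pi / L) * (n.1 i : ℝ) := rfl
      rw [e]
      have e2 : L / N * (2 * Real.pi / L * (n.1 i : ℝ)) = Real.pi * (2 * (n.1 i : ℝ) / N) := by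
        field_simp
      rw [e2, abs_mul, abs_of_pos hpi, abs_div, abs_mul, abs_of_pos hN', abs_two]
      have h3 : (2 * |(n.1 i : ℝ)|) / N ≤ 1 := by
        rw [div_le_one hN']
        have := (hn n i).le
        exact_mod_cast this
      calc Real.pi * (2 * |(n.1 i : ℝ)| / N) ≤ Real.pi * 1 :=
            mul_le_mul_of_nonneg_left h3 hpi.le
        _ = Real.pi := mul_one _
    have h4 : (2 / Real.pi) * (2 / Real.pi) ≤ ‖sg 1 (L / N * n.k 0)‖ * ‖sg 1 (L / N * n.k 1)‖ :=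
      mul_le_mul (le_norm_sg _ (hθ 0)) (le_norm_sg _ (hθ 1)) (by positivity) (norm_nonneg _)
    have h5 : (2 / Real.pi) ^ 4 ≤ (‖sg 1 (L / N * n.k 0)‖ * ‖sg 1 (L / N * n.k 1)‖) ^ 2 := by
      calc (2 / Real.pi) ^ 4 = ((2 / Real.pi) * (2 / Real.pi)) ^ 2 := by ring
        _ ≤ _ := pow_le_pow_left₀ (by positivity) h4 2
    gcongr
  unfold S1
  calc α * (L / N) ^ 4 * Λ ^ 5 / (16384 * Real.pi ^ 7) =
      α / (2 * L ^ 3) * (L / N) ^ 4 * (2 / Real.pi) ^ 4 *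
        (2 * Λ ^ 2 * (L * Λ / (2 * Real.pi)) ^ 3 / 8 ^ 5) := by
        field_simp
        norm_num
    _ ≤ α / (2 * L ^ 3) * (L / N) ^ 4 * (2 / Real.pi) ^ 4 *
        ∑ n : Momentum L Λ, (n.k 0 ^ 2 + n.k 1 ^ 2) := by
        apply mul_le_mul_of_nonneg_left h1 (by positivity)
    _ = ∑ n : Momentum L Λ, α / (2 * L ^ 3) * (L / N) ^ 4 * (2 / Real.pi) ^ 4 *
        (n.k 0 ^ 2 + n.k 1 ^ 2) := by rw [Finset.mul_sum]
    _ ≤ ∑ n : Momentum L Λ, bn α (L / N) n := Finset.sum_le_sum (fun n _ => h2 n)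

end Pool.Agent.Helper985.SE
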