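import Pool.Agent.Helper985.SE.Modes

set_option autoImplicit false

open MeasureTheory
open scoped BigOperators ComplexConjugate

namespace Pool.Agent.Helper985.SE

variable {L Λ : ℝ}

theorem norm_waveVector_sq' (L : ℝ) (n : Fin 3 → ℤ) :
    ‖waveVector L n‖ ^ 2 = (2 * Real.pi / L) ^ 2 * ∑ i, (n i : ℝ) ^ 2 := by
  rw [norm_waveVector_sq, Finset.mul_sum]
  apply Finset.sum_congr rfl
  intro i _
  rw [waveVector_apply]
  ring

theorem coord_le (hL : 0 < L) (n : Momentum L Λ) (i : Fin 3) :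
    |(n.1 i : ℝ)| < L * Λ / (2 * Real.pi) := by
  have h1 : ‖waveVector L n.1‖ < Λ := n.2.2
  have hpi := Real.pi_pos
  have h2 : (2 * Real.pi / L * |(n.1 i : ℝ)|) ^ 2 ≤ ‖waveVector L n.1‖ ^ 2 := by
    rw [norm_waveVector_sq', mul_pow, sq_abs]
    apply mul_le_mul_of_nonneg_left _ (by positivity)
    exact Finset.single_le_sum (f := fun i => (n.1 i : ℝ) ^ 2) (fun i _ => sq_nonneg _)
      (Finset.mem_univ i)
  have h3 : 2 * Real.pi / L * |(n.1 i : ℝ)| ≤ ‖waveVector L n.1‖ :=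
    (pow_le_pow_iff_left₀ (by positivity) (norm_nonneg _) two_ne_zero).mp h2
  have h4 : 2 * Real.pi / L * |(n.1 i : ℝ)| < Λ := lt_of_le_of_lt h3 h1
  rw [lt_div_iff₀ (by positivity)]
  rw [div_mul_eq_mul_div, div_lt_iff₀ hL] at h4
  linarith

theorem mem_Icc_of_momentum (hL : 0 < L) (n : Momentum L Λ) :
    n.1 ∈ Finset.Icc (fun _ => -⌊L * Λ / (2 * Real.pi)⌋ : Fin 3 → ℤ)
      (fun _ => ⌊L * Λ / (2 * Real.pi)⌋) := by
  rw [Finset.mem_Icc]
  constructor
  · intro i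
    have h1 := coord_le hL n i
    have h2 : ((-(n.1 i) : ℤ) : ℝ) ≤ L * Λ / (2 * Real.pi) := by
      push_cast
      exact (neg_le_abs _).trans h1.le
    have h3 := Int.le_floor.mpr h2
    simp only
    linarith
  · intro i
    have h1 := coord_le hL n i
    have h2 : ((n.1 i : ℤ) : ℝ) ≤ L * Λ / (2 * Real.pi) := (le_abs_self _).trans h1.le
    exact Int.le_floor.mpr h2

theorem momentum_finite (hL : 0 < L) : Finite (Momentum L Λ) := by
  let S := Finset.Icc (fun _ => -⌊L * Λ / (2 * Real.pi)⌋ : Fin 3 → ℤ)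
      (fun _ => ⌊L * Λ / (2 * Real.pi)⌋)
  let f : Momentum L Λ → S := fun n => ⟨n.1, mem_Icc_of_momentum hL n⟩
  have hf : Function.Injective f := by
    intro a b hab
    apply Subtype.ext
    exact congrArg (fun z : S => z.1) hab
  exact Finite.of_injective f hf

theorem card_le (hL : 0 < L) [Fintype (Momentum L Λ)] (hρ : 1 ≤ L * Λ / (2 * Real.pi)) :
    (Fintype.card (Momentum L Λ) : ℝ) ≤ 27 * (L * Λ / (2 * Real.pi)) ^ 3 := by
  set ρ := L * Λ / (2 * Real.pi) with hρdef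
  let S := Finset.Icc (fun _ => -⌊ρ⌋ : Fin 3 → ℤ) (fun _ => ⌊ρ⌋)
  let f : Momentum L Λ → S := fun n => ⟨n.1, mem_Icc_of_momentum hL n⟩
  have hf : Function.Injective f := by
    intro a b hab
    apply Subtype.ext
    exact congrArg (fun z : S => z.1) hab
  have h1 := Fintype.card_le_of_injective f hf
  have h2 : Fintype.card S = (⌊ρ⌋ + 1 - -⌊ρ⌋).toNat ^ 3 := by
    rw [Fintype.card_coe]
    simp only [S]
    rw [Pi.card_Icc]
    simp
  rw [h2] at h1
  have h3 : 0 ≤ ⌊ρ⌋ := Int.floor_nonneg.mpr (by linarith)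
  have h4 : (((⌊ρ⌋ + 1 - -⌊ρ⌋).toNat : ℕ) : ℝ) = 2 * (⌊ρ⌋ : ℝ) + 1 := by
    have : (((⌊ρ⌋ + 1 - -⌊ρ⌋).toNat : ℕ) : ℤ) = 2 * ⌊ρ⌋ + 1 := by
      rw [Int.toNat_of_nonneg (by linarith)]
      ring
    exact_mod_cast this
  calc (Fintype.card (Momentum L Λ) : ℝ) ≤ (((⌊ρ⌋ + 1 - -⌊ρ⌋).toNat ^ 3 : ℕ) : ℝ) := by
        exact_mod_cast h1
    _ = (2 * (⌊ρ⌋ : ℝ) + 1) ^ 3 := by push_cast; rw [h4]
    _ ≤ (3 * ρ) ^ 3 := by
        have h5 : (⌊ρ⌋ : ℝ) ≤ ρ := Int.floor_le ρ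
        have h6 : (0 : ℝ) ≤ (⌊ρ⌋ : ℝ) := by exact_mod_cast h3
        apply pow_le_pow_left₀ (by linarith)
        linarith
    _ = 27 * ρ ^ 3 := by ring

theorem le_card (hL : 0 < L) [Fintype (Momentum L Λ)] (hρ : 3 ≤ L * Λ / (2 * Real.pi)) :
    (L * Λ / (2 * Real.pi)) ^ 3 / 16 ≤ (Fintype.card (Momentum L Λ) : ℝ) := by
  classical
  set ρ := L * Λ / (2 * Real.pi) with hρdef
  have hpi := Real.pi_pos
  set N0 : ℤ := ⌊ρ / 2⌋ with hN0
  have hN1 : 1 ≤ N0 := by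
    rw [hN0, Int.le_floor]
    push_cast; linarith
  have hN2 : (N0 : ℝ) ≤ ρ / 2 := Int.floor_le _
  have hN3 : ρ / 2 < N0 + 1 := Int.lt_floor_add_one _
  let S := (Finset.Icc (0 : Fin 3 → ℤ) (fun _ => N0)).erase 0
  have hS : ∀ n ∈ S, 0 < ‖waveVector L n‖ ∧ ‖waveVector L n‖ < Λ := by
    intro n hn
    rw [Finset.mem_erase, Finset.mem_Icc] at hn
    obtain ⟨hn0, hn1, hn2⟩ := hn
    have hsq : 0 < ∑ i, (n i : ℝ) ^ 2 := by
      by_contra hcon
      apply hn0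
      have h0 : ∑ i, (n i : ℝ) ^ 2 = 0 := le_antisymm (not_lt.mp hcon)
        (Finset.sum_nonneg (fun i _ => sq_nonneg _))
      rw [Finset.sum_eq_zero_iff_of_nonneg (fun i _ => sq_nonneg _)] at h0
      funext i
      have := h0 i (Finset.mem_univ i)
      have h5 : (n i : ℝ) = 0 := by simpa using this
      exact_mod_cast h5
    have hkpos : 0 < 2 * Real.pi / L := by positivity
    constructor
    · have : 0 < ‖waveVector L n‖ ^ 2 := by
        rw [norm_waveVector_sq']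
        positivity
      refine lt_of_le_of_ne (norm_nonneg _) ?_
      intro h
      rw [← h] at this
      norm_num at this
    · have h6 : ∑ i, (n i : ℝ) ^ 2 < ρ ^ 2 := by
        have h7 : ∀ i, (n i : ℝ) ^ 2 ≤ (N0 : ℝ) ^ 2 := by
          intro i
          have a1 : (0 : ℝ) ≤ n i := by exact_mod_cast hn1 i
          have a2 : (n i : ℝ) ≤ N0 := by exact_mod_cast hn2 i
          exact pow_le_pow_left₀ a1 a2 2
        have h8 : ∑ i, (n i : ℝ) ^ 2 ≤ 3 * (N0 : ℝ) ^ 2 := by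
          calc ∑ i, (n i : ℝ) ^ 2 ≤ ∑ _i : Fin 3, (N0 : ℝ) ^ 2 :=
                Finset.sum_le_sum (fun i _ => h7 i)
            _ = 3 * (N0 : ℝ) ^ 2 := by simp
        have h9 : (1 : ℝ) ≤ N0 := by exact_mod_cast hN1
        nlinarith
      have hΛ : 0 < Λ := by
        by_contra hcon
        have : ρ ≤ 0 := by
          rw [hρdef]
          apply div_nonpos_of_nonpos_of_nonneg
          · exact mul_nonpos_of_nonneg_of_nonpos hL.le (not_lt.mp hcon)
          · positivity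
        linarith
      have h10 : ‖waveVector L n‖ ^ 2 < Λ ^ 2 := by
        rw [norm_waveVector_sq']
        have h11 : Λ ^ 2 = (2 * Real.pi / L) ^ 2 * ρ ^ 2 := by
          rw [hρdef]; field_simp
        rw [h11]
        apply mul_lt_mul_of_pos_left h6 (by positivity)
      exact lt_of_pow_lt_pow_left₀ 2 hΛ.le h10
  let f : S → Momentum L Λ := fun n => ⟨n.1, hS n.1 n.2⟩
  have hf : Function.Injective f := by
    intro a b hab
    apply Subtype.ext
    exact congrArg (fun z : Momentum L Λ => z.1) hab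
  have h1 := Fintype.card_le_of_injective f hf
  rw [Fintype.card_coe] at h1
  have h2 : S.card = (N0 + 1).toNat ^ 3 - 1 := by
    simp only [S]
    rw [Finset.card_erase_of_mem, Pi.card_Icc]
    · simp
    · rw [Finset.mem_Icc]
      exact ⟨le_refl _, fun i => by simp only [Pi.zero_apply]; linarith⟩
  rw [h2] at h1
  have h4 : (((N0 + 1).toNat : ℕ) : ℝ) = (N0 : ℝ) + 1 := by
    have : (((N0 + 1).toNat : ℕ) : ℤ) = N0 + 1 := Int.toNat_of_nonneg (by linarith)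
    exact_mod_cast this
  have h5 : (((N0 + 1).toNat : ℕ) : ℝ) ^ 3 - 1 ≤ (Fintype.card (Momentum L Λ) : ℝ) := by
    have h6 : (N0 + 1).toNat ^ 3 ≤ Fintype.card (Momentum L Λ) + 1 := by omega
    have h7 : (((N0 + 1).toNat ^ 3 : ℕ) : ℝ) ≤ (Fintype.card (Momentum L Λ) : ℝ) + 1 := by
      exact_mod_cast h6
    push_cast at h7
    linarith
  rw [h4] at h5
  have h8 : (ρ / 2) ^ 3 ≤ ((N0 : ℝ) + 1) ^ 3 := pow_le_pow_left₀ (by linarith) hN3.le 3
  have h9 : (27 : ℝ) ≤ ρ ^ 3 := by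
    calc (27 : ℝ) = 3 ^ 3 := by norm_num
      _ ≤ ρ ^ 3 := pow_le_pow_left₀ (by norm_num) hρ 3
  have h10 : (ρ / 2) ^ 3 = ρ ^ 3 / 8 := by ring
  rw [h10] at h8
  linarith

end Pool.Agent.Helper985.SE
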