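import Pool.Agent.Helper985.SE.Modes
import Pool.Agent.Helper985.SE.Calc

set_option autoImplicit false

open MeasureTheory
open scoped BigOperators ComplexConjugate

namespace Pool.Agent.Helper985.SE

variable {L Λ : ℝ}

/-- Real coupling coefficients of the vector potential. -/
noncomputable def al (pol : Mode L Λ → E3) (i : Fin 3) (m : Mode L Λ) : ℝ :=
  pol m i / Real.sqrt (2 * L ^ 3 * ‖m.k‖)

/-- Real coupling coefficients of the electric field. -/
noncomputable def be (pol : Mode L Λ → E3) (i : Fin 3) (m : Mode L Λ) : ℝ :=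
  al pol i m * ‖m.k‖

/-- The phase `e^{ik·x}`. -/
noncomputable def ph (m : Mode L Λ) (x : E3) : ℂ :=
  Complex.exp (Complex.I * ((inner ℝ m.k x : ℝ) : ℂ))

theorem conj_ph (m : Mode L Λ) (x : E3) :
    conj (ph m x) = Complex.exp (-(Complex.I * ((inner ℝ m.k x : ℝ) : ℂ))) := by
  unfold ph
  rw [← Complex.exp_conj]
  simp

theorem ph_zero (m : Mode L Λ) : ph m 0 = 1 := by
  unfold ph; simp

theorem norm_ph (m : Mode L Λ) (x : E3) : ‖ph m x‖ = 1 := by
  unfold ph
  rw [mul_comm]
  exact Complex.norm_exp_ofReal_mul_I _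

theorem ph_mul_conj (m : Mode L Λ) (x : E3) : ph m x * conj (ph m x) = 1 := by
  rw [Complex.mul_conj', norm_ph]; simp

variable [Fintype (Momentum L Λ)]

/-- The vector potential as a linear map. -/
noncomputable def vp (pol : Mode L Λ → E3) (i : Fin 3) (x : E3) :
    Fock (Mode L Λ) →ₗ[ℂ] Fock (Mode L Λ) :=
  anC (fun m => (al pol i m : ℂ) * ph m x) + crC (fun m => (al pol i m : ℂ) * conj (ph m x))

theorem vectorPotential_eq (pol : Mode L Λ → E3) (i : Fin 3) (x : E3) (v : Fock (Mode L Λ)) :
    vectorPotential L Λ pol i x v = vp pol i x v := by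
  unfold vectorPotential vp
  rw [finsum_eq_sum_of_fintype, LinearMap.add_apply, anC_apply, crC_apply,
    ← Finset.sum_add_distrib]
  apply Finset.sum_congr rfl
  intro m _
  rw [smul_add, smul_smul, smul_smul, conj_ph]
  rfl

/-- The electric field as a linear map. -/
noncomputable def ef (pol : Mode L Λ → E3) (i : Fin 3) (x : E3) :
    Fock (Mode L Λ) →ₗ[ℂ] Fock (Mode L Λ) :=
  Complex.I • (anC (fun m => (be pol i m : ℂ) * ph m x) -
    crC (fun m => (be pol i m : ℂ) * conj (ph m x)))

theorem inner_vp (pol : Mode L Λ → E3) (i : Fin 3) (x : E3) (u v : Fock (Mode L Λ)) :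
    inner ℂ (vp pol i x u) v = inner ℂ u (vp pol i x v) := by
  unfold vp
  simp only [LinearMap.add_apply, inner_add_left, inner_add_right]
  rw [inner_crC_left, inner_crC_right]
  simp only [map_mul, Complex.conj_conj, Complex.conj_ofReal]
  rw [add_comm]

theorem inner_ef (pol : Mode L Λ → E3) (i : Fin 3) (x : E3) (u v : Fock (Mode L Λ)) :
    inner ℂ (ef pol i x u) v = inner ℂ u (ef pol i x v) := by
  unfold ef
  simp only [LinearMap.smul_apply, LinearMap.sub_apply, inner_sub_left, inner_sub_right,
    inner_smul_left, inner_smul_right]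
  rw [inner_crC_left, inner_crC_right]
  simp only [map_mul, Complex.conj_conj, Complex.conj_ofReal, Complex.conj_I]
  ring

/-- The field energy as a weighted number of quanta. -/
theorem inner_fieldEnergy (v : Fock (Mode L Λ)) :
    inner ℂ v (fieldEnergy L Λ v) = ((numE (fun m => ‖m.k‖) v : ℝ) : ℂ) := by
  unfold fieldEnergy numE
  rw [finsum_eq_sum_of_fintype, inner_sum]
  push_cast
  apply Finset.sum_congr rfl
  intro m _
  rw [inner_smul_right, inner_cr_right, inner_self_real]
  push_cast
  rfl

/-- Commutator `[A_i(x), F_j(x)] = -i μ δ_ij`, as a coefficient identity. -/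
theorem vp_ef_comm (pol : Mode L Λ → E3) (i : Fin 3) (x : E3) (v : Fock (Mode L Λ)) :
    vp pol i x (ef pol i x v) - ef pol i x (vp pol i x v) =
      (-(2 * Complex.I) * ((∑ m, al pol i m * be pol i m : ℝ) : ℂ)) • v := by
  unfold vp ef
  simp only [LinearMap.add_apply, LinearMap.smul_apply, LinearMap.sub_apply, map_smul, map_sub,
    map_add]
  simp only [anC_crC]
  rw [anC_anC (fun m => (be pol i m : ℂ) * ph m x) (fun m => (al pol i m : ℂ) * ph m x),
    crC_crC (fun m => (be pol i m : ℂ) * conj (ph m x)) (fun m => (al pol i m : ℂ) * conj (ph m x))]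
  have h1 : ∀ m : Mode L Λ, (al pol i m : ℂ) * ph m x * ((be pol i m : ℂ) * conj (ph m x)) =
      (al pol i m : ℂ) * (be pol i m : ℂ) := by
    intro m
    calc _ = (al pol i m : ℂ) * (be pol i m : ℂ) * (ph m x * conj (ph m x)) := by ring
      _ = _ := by rw [ph_mul_conj, mul_one]
  have h2 : ∀ m : Mode L Λ, (be pol i m : ℂ) * ph m x * ((al pol i m : ℂ) * conj (ph m x)) =
      (al pol i m : ℂ) * (be pol i m : ℂ) := by
    intro m
    calc _ = (al pol i m : ℂ) * (be pol i m : ℂ) * (ph m x * conj (ph m x)) := by ring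
      _ = _ := by rw [ph_mul_conj, mul_one]
  simp only [h1, h2]
  push_cast
  module

end Pool.Agent.Helper985.SE
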