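import Pool.Agent.Helper985.SE.Four1

set_option autoImplicit false

open MeasureTheory
open scoped BigOperators ComplexConjugate ENNReal

namespace Pool.Agent.Helper985.SE

variable {L Λ : ℝ}

/-- lattice points -/
noncomputable def lat (L : ℝ) (N : ℕ) (j : Fin 3 → Fin N) : E3 :=
  WithLp.toLp 2 (fun i => (L / N) * ((j i : ℕ) : ℝ))

theorem lat_apply (L : ℝ) (N : ℕ) (j : Fin 3 → Fin N) (i : Fin 3) :
    lat L N j i = (L / N) * ((j i : ℕ) : ℝ) := rfl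

theorem norm_lat_le (hL : 0 < L) (N : ℕ) (J : ℕ) (j : Fin 3 → Fin N) (hj : ∀ i, (j i : ℕ) < J) :
    ‖lat L N j‖ ≤ 2 * (J * (L / N)) := by
  have h0 : 0 ≤ 2 * ((J : ℝ) * (L / N)) := by positivity
  apply (pow_le_pow_iff_left₀ (norm_nonneg _) h0 two_ne_zero).mp
  rw [EuclideanSpace.norm_sq_eq]
  have h1 : ∀ i, ‖(lat L N j) i‖ ^ 2 ≤ (J * (L / N)) ^ 2 := by
    intro i
    rw [lat_apply, Real.norm_eq_abs, sq_abs]
    have h2 : (((j i : ℕ) : ℝ)) ≤ J := by exact_mod_cast (hj i).le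
    have h3 : 0 ≤ L / N := by positivity
    apply pow_le_pow_left₀ (by positivity)
    calc L / N * ((j i : ℕ) : ℝ) ≤ L / N * J := mul_le_mul_of_nonneg_left h2 h3
      _ = _ := by ring
  calc ∑ i, ‖(lat L N j) i‖ ^ 2 ≤ ∑ _i : Fin 3, ((J : ℝ) * (L / N)) ^ 2 :=
        Finset.sum_le_sum (fun i _ => h1 i)
    _ = 3 * ((J : ℝ) * (L / N)) ^ 2 := by simp
    _ ≤ (2 * (J * (L / N))) ^ 2 := by nlinarith [sq_nonneg ((J : ℝ) * (L / N))]

theorem ph_lat (hL : 0 < L) (N : ℕ) (hN : 0 < N) (m : Mode L Λ) (j : Fin 3 → Fin N) :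
    ph m (lat L N j) = ∏ i, ru N (m.1.1 i) (j i) := by
  unfold ph ru
  rw [← Complex.exp_sum]
  congr 1
  rw [← Finset.mul_sum, ← Complex.ofReal_sum]
  congr 2
  rw [PiLp.inner_apply]
  apply Finset.sum_congr rfl
  intro i _
  have h1 : (m.k) i = (2 * Real.pi / L) * (m.1.1 i : ℝ) := rfl
  rw [lat_apply]
  have hN' : (N : ℝ) ≠ 0 := by exact_mod_cast hN.ne'
  show (L / N * ((j i : ℕ) : ℝ)) * (m.k i) = _
  rw [h1]
  field_simp

theorem loop_shift (α : ℝ) (pol : Mode L Λ → E3) (h : ℝ) (x y : E3) (m : Mode L Λ) :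
    loop α pol h (x + y) m = loop α pol h x m * conj (ph m y) := by
  rw [loop_eq, loop_eq, ph_add, map_mul]
  ring

theorem bn_le {α : ℝ} (hα : 0 < α) (hL : 0 < L) (h : ℝ) (hh : 0 ≤ h) (n : Momentum L Λ) :
    bn α h n ≤ α / (2 * L ^ 3) * h ^ 4 * Λ ^ 2 := by
  unfold bn
  have h1 : (‖sg 1 (h * n.k 0)‖ * ‖sg 1 (h * n.k 1)‖) ^ 2 ≤ 1 := by
    apply pow_le_one₀ (by positivity)
    exact mul_le_one₀ (norm_sg_le _) (norm_nonneg _) (norm_sg_le _)
  have h2 : n.k 0 ^ 2 + n.k 1 ^ 2 ≤ Λ ^ 2 := by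
    have h3 : ‖n.k‖ ^ 2 = ∑ i, (n.k i) ^ 2 := norm_waveVector_sq L n.1
    rw [Fin.sum_univ_three] at h3
    have h4 : ‖n.k‖ < Λ := n.2.2
    have h5 : ‖n.k‖ ^ 2 ≤ Λ ^ 2 := pow_le_pow_left₀ (norm_nonneg _) h4.le 2
    nlinarith [sq_nonneg (n.k 2)]
  calc α / (2 * L ^ 3) * h ^ 4 * ((‖sg 1 (h * n.k 0)‖ * ‖sg 1 (h * n.k 1)‖) ^ 2) *
        (n.k 0 ^ 2 + n.k 1 ^ 2) ≤ α / (2 * L ^ 3) * h ^ 4 * 1 * Λ ^ 2 := by gcongr
    _ = _ := by ring

variable [Fintype (Momentum L Λ)]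

/-- Summation over lattice translates of the smeared annihilation operators. -/
theorem sum_anC_lat {α : ℝ} (hα : 0 < α) (hL : 0 < L) (pol : Mode L Λ → E3)
    (hp : IsPolarisation pol) (h τ : ℝ) (hh : 0 ≤ h) (N : ℕ) (hN : 0 < N)
    (hn : ∀ (n : Momentum L Λ) (i : Fin 3), 2 * |n.1 i| < N) (x : E3) (v : Fock (Mode L Λ)) :
    ∑ j : Fin 3 → Fin N, ‖anC (fun m => conj (gg α pol h τ (lat L N j) x m)) v‖ ^ 2 ≤
      (N : ℝ) ^ 3 * (τ ^ 2 * (α / (2 * L ^ 3) * h ^ 4 * Λ ^ 2)) * numE (fun m => ‖m.k‖) v := by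
  set w : Momentum L Λ → Fock (Mode L Λ) := fun n =>
    ∑ μ : Fin 2, conj (gg α pol h τ 0 x (n, μ)) • an ((n, μ) : Mode L Λ) v with hw
  have e1 : ∀ j : Fin 3 → Fin N, anC (fun m => conj (gg α pol h τ (lat L N j) x m)) v =
      ∑ n : Momentum L Λ, (∏ i, ru N (n.1 i) (j i)) • w n := by
    intro j
    rw [anC_apply, Fintype.sum_prod_type]
    apply Finset.sum_congr rfl
    intro n _
    rw [hw]
    simp only
    rw [Finset.smul_sum]
    apply Finset.sum_congr rfl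
    intro μ _
    rw [smul_smul]
    congr 1
    have h1 := ph_lat hL N hN ((n, μ) : Mode L Λ) j
    simp only at h1
    rw [← h1]
    unfold gg
    rw [loop_shift, add_zero]
    simp only [map_mul, Complex.conj_conj]
    ring
  have e2 := parseval N hN hn w
  simp only [← e1] at e2
  rw [e2]
  have e3 : ∀ n : Momentum L Λ, ‖w n‖ ^ 2 ≤
      τ ^ 2 * (α / (2 * L ^ 3) * h ^ 4 * Λ ^ 2) * ∑ μ : Fin 2, ‖n.k‖ * ‖an ((n, μ) : Mode L Λ) v‖ ^ 2 := by
    intro n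
    have hk := momentum_norm_pos n
    have h1 : ‖w n‖ ≤ ∑ μ : Fin 2, ‖gg α pol h τ 0 x (n, μ)‖ * ‖an ((n, μ) : Mode L Λ) v‖ := by
      rw [hw]
      refine (norm_sum_le _ _).trans (le_of_eq ?_)
      apply Finset.sum_congr rfl
      intro μ _
      rw [norm_smul, RCLike.norm_conj]
    have h2 : ‖w n‖ ^ 2 ≤ (∑ μ : Fin 2, ‖gg α pol h τ 0 x (n, μ)‖ ^ 2) *
        ∑ μ : Fin 2, ‖an ((n, μ) : Mode L Λ) v‖ ^ 2 :=
      (pow_le_pow_left₀ (norm_nonneg _) h1 2).trans (Finset.sum_mul_sq_le_sq_mul_sq _ _ _)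
    have h3 : ∑ μ : Fin 2, ‖gg α pol h τ 0 x (n, μ)‖ ^ 2 = τ ^ 2 * ‖n.k‖ * bn α h n := by
      rw [← sum_loop_pol hα hL pol hp h x n, Finset.mul_sum]
      apply Finset.sum_congr rfl
      intro μ _
      unfold gg
      have h4 : (Mode.k ((n, μ) : Mode L Λ) : E3) = n.k := rfl
      rw [norm_mul, norm_mul, Complex.norm_I, one_mul, Complex.norm_real, Real.norm_eq_abs,
        mul_pow, sq_abs, h4, add_zero]
      ring
    rw [h3] at h2
    have h5 := bn_le hα hL h hh n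
    calc ‖w n‖ ^ 2 ≤ τ ^ 2 * ‖n.k‖ * bn α h n * ∑ μ : Fin 2, ‖an ((n, μ) : Mode L Λ) v‖ ^ 2 := h2
      _ ≤ τ ^ 2 * ‖n.k‖ * (α / (2 * L ^ 3) * h ^ 4 * Λ ^ 2) *
          ∑ μ : Fin 2, ‖an ((n, μ) : Mode L Λ) v‖ ^ 2 := by
          gcongr
      _ = _ := by
          rw [Finset.mul_sum, Finset.mul_sum]
          apply Finset.sum_congr rfl
          intro μ _
          ring
  calc (N : ℝ) ^ 3 * ∑ n, ‖w n‖ ^ 2 ≤ (N : ℝ) ^ 3 * ∑ n : Momentum L Λ,
        τ ^ 2 * (α / (2 * L ^ 3) * h ^ 4 * Λ ^ 2) *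
          ∑ μ : Fin 2, ‖n.k‖ * ‖an ((n, μ) : Mode L Λ) v‖ ^ 2 := by
        apply mul_le_mul_of_nonneg_left _ (by positivity)
        exact Finset.sum_le_sum (fun n _ => e3 n)
    _ = _ := by
        rw [← Finset.mul_sum, ← mul_assoc]
        unfold numE
        rw [Fintype.sum_prod_type]
        rfl

/-- The commutator inequality for one lattice point. -/
theorem one_point {α : ℝ} (hα : 0 < α) (hL : 0 < L) (pol : Mode L Λ → E3)
    (hp : IsPolarisation pol) (h τ : ℝ) (hh : 0 ≤ h) (J : ℕ)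
    (hτ : τ * J * S1 L Λ α h = Real.pi / 2) (y : E3)
    {Ψ : E3 → Fock (Mode L Λ)} (hΨ : FS Ψ) :
    nrm Ψ ≤ (2 * ‖y‖ + 4 * h * J) * kin α pol Ψ + nrm (gen 0 (gg α pol h τ y) Ψ) := by
  have hc := continuous_BB hΨ
  have hcM : 0 < cM (Mode L Λ) := cM_pos
  have hF : Continuous (fun (x : E3) (m : Mode L Λ) => (J : ℂ) * loop α pol h (x + y) m) := by
    apply continuous_pi
    intro m
    apply continuous_const.mul
    have h1 : Continuous (loop α pol h) := continuous_Fl α pol (plq h)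
    have h2 : Continuous (fun x : E3 => loop α pol h x m) := (continuous_apply m).comp h1
    exact h2.comp (continuous_id.add continuous_const)
  have hG : Continuous (gg α pol h τ y) := by
    apply continuous_pi
    intro m
    exact (contDiff_gg α pol h τ y m).continuous
  have key := NN_le_of_anti hF hG hc (by
    intro x
    rw [gg_comm hα hL pol hp, hτ])
  have h1 := lasso_bound α hp hΨ h hh J y
  have h2 := field_bound α pol hΨ h τ y
  rw [NN_BB_eq (hΨ.gen 0 (contDiff_gg α pol h τ y))] at h2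
  rw [NN_BB_eq hΨ] at key
  have h3 : ENNReal.ofReal (cM (Mode L Λ) * nrm Ψ) ≤
      ENNReal.ofReal (cM (Mode L Λ) * ((2 * ‖y‖ + 4 * h * J) * kin α pol Ψ)) +
      ENNReal.ofReal (cM (Mode L Λ) * nrm (gen 0 (gg α pol h τ y) Ψ)) := by
    have h4 : 2 * ENNReal.ofReal (cM (Mode L Λ) * nrm Ψ) ≤ 2 * (
      ENNReal.ofReal (cM (Mode L Λ) * ((2 * ‖y‖ + 4 * h * J) * kin α pol Ψ)) +
      ENNReal.ofReal (cM (Mode L Λ) * nrm (gen 0 (gg α pol h τ y) Ψ))) :=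
      key.trans (mul_le_mul_right (add_le_add h1 h2) 2)
    exact (ENNReal.mul_le_mul_iff_right (by norm_num) (by norm_num)).mp h4
  have p1 : 0 ≤ cM (Mode L Λ) * ((2 * ‖y‖ + 4 * h * J) * kin α pol Ψ) := by
    have := kin_nonneg α pol Ψ
    positivity
  have p2 : 0 ≤ cM (Mode L Λ) * nrm (gen 0 (gg α pol h τ y) Ψ) :=
    mul_nonneg hcM.le (nrm_nonneg _)
  rw [← ENNReal.ofReal_add p1 p2, ENNReal.ofReal_le_ofReal_iff (add_nonneg p1 p2), ← mul_add] at h3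
  exact le_of_mul_le_mul_left h3 hcM

end Pool.Agent.Helper985.SE
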