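import Pool.Agent.Helper985.SE.Fin1

set_option autoImplicit false

open MeasureTheory
open scoped BigOperators ComplexConjugate ENNReal

namespace Pool.Agent.Helper985.SE

variable {L Λ : ℝ} [Fintype (Momentum L Λ)]

theorem integrable_numE {Ψ : E3 → Fock (Mode L Λ)} (hΨ : FS Ψ) :
    Integrable (fun x => numE (fun m => ‖m.k‖) (Ψ x)) := by
  unfold numE
  apply integrable_finsetSum
  intro m _
  exact (FS.integrable_norm_sq volume (hΨ.map (an m))).const_mul _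

theorem fs_anC_gg (α : ℝ) (pol : Mode L Λ → E3) {Ψ : E3 → Fock (Mode L Λ)} (hΨ : FS Ψ)
    (h τ : ℝ) (y : E3) : FS (fun x => anC (fun m => conj (gg α pol h τ y x m)) (Ψ x)) :=
  hΨ.anC (c := fun x m => conj (gg α pol h τ y x m))
    (fun m => Complex.conjCLE.contDiff.comp (contDiff_gg α pol h τ y m))

/-- The summed commutator inequality. -/
theorem core_sum {α : ℝ} (hα : 0 < α) (hL : 0 < L) (pol : Mode L Λ → E3)
    (hp : IsPolarisation pol) (τ : ℝ) (N J : ℕ) (hN : 0 < N) (hJN : J ≤ N)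
    (hn : ∀ (n : Momentum L Λ) (i : Fin 3), 2 * |n.1 i| < N)
    (hτ : τ * J * S1 L Λ α (L / N) = Real.pi / 2)
    (hsmall : 2 * (τ ^ 2 * Λ * S1 L Λ α (L / N)) ≤ 1 / 8)
    {Ψ : E3 → Fock (Mode L Λ)} (hΨ : FS Ψ)
    (hkin : 8 * (J * (L / N)) * kin α pol Ψ ≤ nrm Ψ / 2) :
    (J : ℝ) ^ 3 * nrm Ψ ^ 2 ≤
      32 * ((N : ℝ) ^ 3 * (τ ^ 2 * (α / (2 * L ^ 3) * (L / N) ^ 4 * Λ ^ 2))) *
        ∫ x, numE (fun m => ‖m.k‖) (Ψ x) := by
  classical
  set h := L / N with hh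
  have hh0 : 0 ≤ h := by rw [hh]; positivity
  set Y : Finset (Fin 3 → Fin N) :=
    Fintype.piFinset (fun _ => Finset.univ.filter (fun j : Fin N => (j : ℕ) < J)) with hY
  have hYcard : (Y.card : ℝ) = (J : ℝ) ^ 3 := by
    have h1 : (Finset.univ.filter (fun j : Fin N => (j : ℕ) < J)).card = J := by
      rw [Fin.card_filter_val_lt]
      exact min_eq_right hJN
    rw [hY, Fintype.card_piFinset]
    simp [h1]
  have hYmem : ∀ j ∈ Y, ∀ i, (j i : ℕ) < J := by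
    intro j hj i
    rw [hY, Fintype.mem_piFinset] at hj
    have := hj i
    rw [Finset.mem_filter] at this
    exact this.2
  have hK := kin_nonneg α pol Ψ
  have hint : ∀ y : E3, Integrable (fun x => ‖anC (fun m => conj (gg α pol h τ y x m)) (Ψ x)‖ ^ 2) :=
    fun y => FS.integrable_norm_sq volume (fs_anC_gg α pol hΨ h τ y)
  have hpt : ∀ j ∈ Y, nrm Ψ ^ 2 / 8 ≤
      4 * ∫ x, ‖anC (fun m => conj (gg α pol h τ (lat L N j) x m)) (Ψ x)‖ ^ 2 := by
    intro j hj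
    have h1 := one_point hα hL pol hp h τ hh0 J hτ (lat L N j) hΨ
    have h2 := norm_lat_le hL N J j (hYmem j hj)
    have h3 : (2 * ‖lat L N j‖ + 4 * h * J) * kin α pol Ψ ≤ nrm Ψ / 2 := by
      refine le_trans ?_ hkin
      apply mul_le_mul_of_nonneg_right _ hK
      rw [← hh] at h2
      linarith
    have h4 : nrm Ψ / 2 ≤ nrm (gen 0 (gg α pol h τ (lat L N j)) Ψ) := by linarith
    have h5 : (nrm Ψ / 2) ^ 2 ≤ nrm (gen 0 (gg α pol h τ (lat L N j)) Ψ) ^ 2 :=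
      pow_le_pow_left₀ (by have := nrm_nonneg Ψ; positivity) h4 2
    have h6 : nrm (gen 0 (gg α pol h τ (lat L N j)) Ψ) ^ 2 ≤
        4 * (∫ x, ‖anC (fun m => conj (gg α pol h τ (lat L N j) x m)) (Ψ x)‖ ^ 2) +
        2 * (τ ^ 2 * Λ * S1 L Λ α h) * nrm Ψ ^ 2 := by
      rw [nrm_sq, nrm_sq, ← integral_const_mul, ← integral_const_mul, ← integral_add
        ((hint _).const_mul _) ((FS.integrable_norm_sq volume hΨ).const_mul _)]
      apply integral_mono
        (FS.integrable_norm_sq volume (hΨ.gen 0 (contDiff_gg α pol h τ (lat L N j))))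
        (((hint _).const_mul _).add ((FS.integrable_norm_sq volume hΨ).const_mul _))
      intro x
      simp only [Pi.add_apply]
      refine (gen_gg_norm α pol Ψ h τ (lat L N j) x).trans ?_
      have h7 := sum_norm_gg hα hL pol hp h τ (lat L N j) x
      have h8 : 0 ≤ ‖Ψ x‖ ^ 2 := by positivity
      have h9 : 2 * (∑ m, ‖gg α pol h τ (lat L N j) x m‖ ^ 2) * ‖Ψ x‖ ^ 2 ≤
          2 * (τ ^ 2 * Λ * S1 L Λ α h) * ‖Ψ x‖ ^ 2 := by
        apply mul_le_mul_of_nonneg_right _ h8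
        linarith
      linarith
    have h10 : 2 * (τ ^ 2 * Λ * S1 L Λ α h) * nrm Ψ ^ 2 ≤ 1 / 8 * nrm Ψ ^ 2 :=
      mul_le_mul_of_nonneg_right hsmall (by positivity)
    nlinarith
  have hsum : (J : ℝ) ^ 3 * (nrm Ψ ^ 2 / 8) ≤
      4 * ∑ j ∈ Y, ∫ x, ‖anC (fun m => conj (gg α pol h τ (lat L N j) x m)) (Ψ x)‖ ^ 2 := by
    rw [Finset.mul_sum, ← hYcard, ← nsmul_eq_mul]
    exact Finset.card_nsmul_le_sum Y _ _ hpt
  have hle : ∑ j ∈ Y, ∫ x, ‖anC (fun m => conj (gg α pol h τ (lat L N j) x m)) (Ψ x)‖ ^ 2 ≤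
      ((N : ℝ) ^ 3 * (τ ^ 2 * (α / (2 * L ^ 3) * h ^ 4 * Λ ^ 2))) *
        ∫ x, numE (fun m => ‖m.k‖) (Ψ x) := by
    calc ∑ j ∈ Y, ∫ x, ‖anC (fun m => conj (gg α pol h τ (lat L N j) x m)) (Ψ x)‖ ^ 2 ≤
          ∑ j : Fin 3 → Fin N, ∫ x, ‖anC (fun m => conj (gg α pol h τ (lat L N j) x m)) (Ψ x)‖ ^ 2 := by
          apply Finset.sum_le_sum_of_subset_of_nonneg (Finset.subset_univ _)
          intro j _ _
          exact integral_nonneg (fun x => by positivity)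
      _ = ∫ x, ∑ j : Fin 3 → Fin N, ‖anC (fun m => conj (gg α pol h τ (lat L N j) x m)) (Ψ x)‖ ^ 2 := by
          rw [integral_finsetSum _ (fun j _ => hint _)]
      _ ≤ ∫ x, ((N : ℝ) ^ 3 * (τ ^ 2 * (α / (2 * L ^ 3) * h ^ 4 * Λ ^ 2))) *
            numE (fun m => ‖m.k‖) (Ψ x) := by
          apply integral_mono (integrable_finsetSum _ (fun j _ => hint _))
            ((integrable_numE hΨ).const_mul _)
          intro x
          exact sum_anC_lat hα hL pol hp h τ hh0 N hN hn x (Ψ x)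
      _ = _ := integral_const_mul _ _
  linarith

end Pool.Agent.Helper985.SE
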