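import Pool.Agent.Helper985.SE.Fin2
import Pool.Agent.Helper985.SE.Cnt

set_option autoImplicit false

open MeasureTheory
open scoped BigOperators ComplexConjugate ENNReal

namespace Pool.Agent.Helper985.SE

/-- numerical constant `c₁ = 1/(262144 π³)` -/
noncomputable def c1 : ℝ := 1 / (262144 * Real.pi ^ 3)

theorem c1_pos : 0 < c1 := by
  unfold c1
  have := Real.pi_pos
  positivity

variable {L Λ : ℝ}

/-- The quadratic form bound for a given integer scale `J`. -/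
theorem scale_bound {α : ℝ} (hα : 0 < α) (hL : 0 < L) (hΛ : 0 < Λ) [Fintype (Momentum L Λ)]
    (pol : Mode L Λ → E3) (hp : IsPolarisation pol) (J : ℕ) (hJ : 0 < J)
    (hρ : 4 ≤ L * Λ / (2 * Real.pi)) (hJL : (J : ℝ) ≤ L * Λ / Real.pi)
    (hJα : 4 * Real.pi ^ 2 / c1 ≤ (J : ℝ) ^ 2 * α)
    {Ψ : E3 → Fock (Mode L Λ)} (hΨ : FS Ψ) :
    min (Λ ^ 2 / (512 * Real.pi ^ 2 * (J : ℝ) ^ 2)) (c1 ^ 2 / (4 * Real.pi ^ 3) * (J : ℝ) ^ 5 * α * Λ) *
      nrm Ψ ^ 2 ≤ 1 / 2 * kin α pol Ψ ^ 2 + ∫ x, numE (fun m => ‖m.k‖) (Ψ x) := by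
  have hpi := Real.pi_pos
  have hc1 := c1_pos
  set N : ℕ := ⌊L * Λ / Real.pi⌋₊ + 1 with hNdef
  have hN : 0 < N := Nat.succ_pos _
  have hN' : (0 : ℝ) < N := by exact_mod_cast hN
  have hN1 : L * Λ / Real.pi < N := by
    rw [hNdef]; push_cast
    exact Nat.lt_floor_add_one _
  have hLΛ : 8 ≤ L * Λ / Real.pi := by
    have : L * Λ / Real.pi = 2 * (L * Λ / (2 * Real.pi)) := by field_simp
    rw [this]; linarith
  have hN2 : (N : ℝ) ≤ 2 * (L * Λ / Real.pi) := by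
    rw [hNdef]; push_cast
    have := Nat.floor_le (a := L * Λ / Real.pi) (by positivity)
    linarith
  have hJN : J ≤ N := by
    have : (J : ℝ) ≤ N := by linarith
    exact_mod_cast this
  set h := L / N with hh
  have hh0 : 0 < h := by rw [hh]; positivity
  have hhi : h * Λ ≤ Real.pi := by
    rw [hh, div_mul_eq_mul_div, div_le_iff₀ hN']
    rw [div_lt_iff₀ hpi] at hN1
    linarith
  have hlo : Real.pi / 2 ≤ h * Λ := by
    rw [hh, div_mul_eq_mul_div, le_div_iff₀ hN']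
    have : (N : ℝ) * Real.pi ≤ 2 * (L * Λ) := by
      have h1 : (N : ℝ) * Real.pi ≤ 2 * (L * Λ / Real.pi) * Real.pi :=
        mul_le_mul_of_nonneg_right hN2 hpi.le
      have h2 : 2 * (L * Λ / Real.pi) * Real.pi = 2 * (L * Λ) := by field_simp
      linarith
    linarith
  have hn : ∀ (n : Momentum L Λ) (i : Fin 3), 2 * |n.1 i| < N := by
    intro n i
    have h1 := coord_le hL n i
    have h2 : 2 * |(n.1 i : ℝ)| < N := by
      have h3 : L * Λ / Real.pi = 2 * (L * Λ / (2 * Real.pi)) := by field_simp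
      linarith
    exact_mod_cast h2
  set S := S1 L Λ α h with hS
  have hSlow : c1 * α * Λ ≤ S := by
    have h1 := S1_lower hα hL hΛ hρ N hN hn
    rw [← hh] at h1
    refine le_trans ?_ h1
    have h2 : α * h ^ 4 * Λ ^ 5 = α * Λ * (h * Λ) ^ 4 := by ring
    rw [h2]
    have h3 : (Real.pi / 2) ^ 4 ≤ (h * Λ) ^ 4 := pow_le_pow_left₀ (by positivity) hlo 4
    unfold c1
    calc 1 / (262144 * Real.pi ^ 3) * α * Λ = α * Λ * (Real.pi / 2) ^ 4 / (16384 * Real.pi ^ 7) := by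
          field_simp
          norm_num
      _ ≤ α * Λ * (h * Λ) ^ 4 / (16384 * Real.pi ^ 7) := by gcongr
  have hSpos : 0 < S := lt_of_lt_of_le (by positivity) hSlow
  have hJ' : (0 : ℝ) < J := by exact_mod_cast hJ
  set τ := Real.pi / (2 * J * S) with hτdef
  have hτ : τ * J * S = Real.pi / 2 := by
    rw [hτdef]; field_simp
  have hsmall : 2 * (τ ^ 2 * Λ * S) ≤ 1 / 8 := by
    have e : 2 * (τ ^ 2 * Λ * S) = Real.pi ^ 2 * Λ / (2 * (J : ℝ) ^ 2 * S) := by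
      rw [hτdef]; field_simp
    rw [e, div_le_iff₀ (by positivity)]
    have h1 : 4 * Real.pi ^ 2 ≤ (J : ℝ) ^ 2 * α * c1 := by
      rw [div_le_iff₀ hc1] at hJα
      exact hJα
    have h2 : (J : ℝ) ^ 2 * (c1 * α * Λ) ≤ (J : ℝ) ^ 2 * S :=
      mul_le_mul_of_nonneg_left hSlow (by positivity)
    have h3 : 4 * Real.pi ^ 2 * Λ ≤ (J : ℝ) ^ 2 * α * c1 * Λ :=
      mul_le_mul_of_nonneg_right h1 hΛ.le
    nlinarith
  by_cases hkin : 8 * (J * (L / N)) * kin α pol Ψ ≤ nrm Ψ / 2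
  · -- field energy is large
    have key := core_sum hα hL pol hp τ N J hN hJN hn hτ hsmall hΨ hkin
    rw [← hh] at key
    set F := ∫ x, numE (fun m => ‖m.k‖) (Ψ x) with hF
    have hF0 : 0 ≤ F := integral_nonneg (fun x => numE_nonneg _ (fun m => norm_nonneg _) _)
    have hM : (N : ℝ) ^ 3 * (τ ^ 2 * (α / (2 * L ^ 3) * h ^ 4 * Λ ^ 2)) ≤
        Real.pi ^ 3 / (8 * (J : ℝ) ^ 2 * c1 ^ 2 * α * Λ) := by
      have e : (N : ℝ) ^ 3 * (τ ^ 2 * (α / (2 * L ^ 3) * h ^ 4 * Λ ^ 2)) =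
          Real.pi ^ 2 * α * (h * Λ) * Λ / (8 * (J : ℝ) ^ 2 * S ^ 2) := by
        rw [hτdef, hh]; field_simp
        norm_num
      rw [e, div_le_div_iff₀ (by positivity) (by positivity)]
      have h2 : (c1 * α * Λ) ^ 2 ≤ S ^ 2 := pow_le_pow_left₀ (by positivity) hSlow 2
      calc Real.pi ^ 2 * α * (h * Λ) * Λ * (8 * (J : ℝ) ^ 2 * c1 ^ 2 * α * Λ) =
          8 * Real.pi ^ 2 * (J : ℝ) ^ 2 * (h * Λ) * (c1 * α * Λ) ^ 2 := by ring
        _ ≤ 8 * Real.pi ^ 2 * (J : ℝ) ^ 2 * Real.pi * S ^ 2 := by gcongr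
        _ = _ := by ring
    have h3 : (J : ℝ) ^ 3 * nrm Ψ ^ 2 ≤
        32 * (Real.pi ^ 3 / (8 * (J : ℝ) ^ 2 * c1 ^ 2 * α * Λ)) * F := by
      refine key.trans ?_
      gcongr
    have h4 : c1 ^ 2 / (4 * Real.pi ^ 3) * (J : ℝ) ^ 5 * α * Λ * nrm Ψ ^ 2 ≤ F := by
      have e2 : c1 ^ 2 / (4 * Real.pi ^ 3) * (J : ℝ) ^ 5 * α * Λ * nrm Ψ ^ 2 =
          (c1 ^ 2 / (4 * Real.pi ^ 3) * (J : ℝ) ^ 2 * α * Λ) * ((J : ℝ) ^ 3 * nrm Ψ ^ 2) := by ring
      rw [e2]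
      calc (c1 ^ 2 / (4 * Real.pi ^ 3) * (J : ℝ) ^ 2 * α * Λ) * ((J : ℝ) ^ 3 * nrm Ψ ^ 2) ≤
          (c1 ^ 2 / (4 * Real.pi ^ 3) * (J : ℝ) ^ 2 * α * Λ) *
            (32 * (Real.pi ^ 3 / (8 * (J : ℝ) ^ 2 * c1 ^ 2 * α * Λ)) * F) := by gcongr
        _ = F := by
          field_simp
          norm_num
    have h5 : min (Λ ^ 2 / (512 * Real.pi ^ 2 * (J : ℝ) ^ 2))
        (c1 ^ 2 / (4 * Real.pi ^ 3) * (J : ℝ) ^ 5 * α * Λ) * nrm Ψ ^ 2 ≤
        c1 ^ 2 / (4 * Real.pi ^ 3) * (J : ℝ) ^ 5 * α * Λ * nrm Ψ ^ 2 :=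
      mul_le_mul_of_nonneg_right (min_le_right _ _) (by positivity)
    have h6 : 0 ≤ 1 / 2 * kin α pol Ψ ^ 2 := by positivity
    linarith
  · -- kinetic energy is large
    rw [not_le, ← hh] at hkin
    have hF0 : 0 ≤ ∫ x, numE (fun m => ‖m.k‖) (Ψ x) :=
      integral_nonneg (fun x => numE_nonneg _ (fun m => norm_nonneg _) _)
    have hk0 := kin_nonneg α pol Ψ
    have hn0 := nrm_nonneg Ψ
    have h1 : nrm Ψ * Λ ≤ 16 * J * Real.pi * kin α pol Ψ := by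
      have h2 : nrm Ψ / 2 * Λ ≤ 8 * (J * h) * kin α pol Ψ * Λ :=
        mul_le_mul_of_nonneg_right hkin.le hΛ.le
      have h3 : 8 * (J * h) * kin α pol Ψ * Λ = 8 * J * kin α pol Ψ * (h * Λ) := by ring
      have h4 : 8 * J * kin α pol Ψ * (h * Λ) ≤ 8 * J * kin α pol Ψ * Real.pi :=
        mul_le_mul_of_nonneg_left hhi (by positivity)
      linarith
    have h2 : (nrm Ψ * Λ) ^ 2 ≤ (16 * J * Real.pi * kin α pol Ψ) ^ 2 :=
      pow_le_pow_left₀ (by positivity) h1 2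
    have h3 : Λ ^ 2 / (512 * Real.pi ^ 2 * (J : ℝ) ^ 2) * nrm Ψ ^ 2 ≤ 1 / 2 * kin α pol Ψ ^ 2 := by
      rw [div_mul_eq_mul_div, div_le_iff₀ (by positivity)]
      nlinarith
    have h5 : min (Λ ^ 2 / (512 * Real.pi ^ 2 * (J : ℝ) ^ 2))
        (c1 ^ 2 / (4 * Real.pi ^ 3) * (J : ℝ) ^ 5 * α * Λ) * nrm Ψ ^ 2 ≤
        Λ ^ 2 / (512 * Real.pi ^ 2 * (J : ℝ) ^ 2) * nrm Ψ ^ 2 :=
      mul_le_mul_of_nonneg_right (min_le_left _ _) (by positivity)
    linarith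

theorem nrm_pos_of_ne_zero {M : Type} {Ψ : WaveFunction M} (h : FS Ψ) (h0 : Ψ ≠ 0) :
    0 < ∫ x, ‖Ψ x‖ ^ 2 := by
  have : ∃ x, Ψ x ≠ 0 := by
    by_contra hcon
    push Not at hcon
    apply h0
    funext x
    exact hcon x
  obtain ⟨x0, hx⟩ := this
  apply Continuous.integral_pos_of_hasCompactSupport_nonneg_nonzero (x := x0)
  · exact h.smooth.continuous.norm.pow 2
  · exact h.compact.comp_left (g := fun v : Fock M => ‖v‖ ^ 2) (by simp)
  · intro x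
    positivity
  · positivity

/-- There is at least one state. -/
theorem state_exists (M : Type) : ∃ Ψ : WaveFunction M, IsState Ψ ∧ Ψ ≠ 0 := by
  let f : ContDiffBump (0 : E3) := ⟨1 / 2, 1, by norm_num, by norm_num⟩
  have hf : ContDiff ℝ ((⊤ : ℕ∞) : WithTop ℕ∞) (f : E3 → ℝ) := f.contDiff
  have hfc : HasCompactSupport (f : E3 → ℝ) := f.hasCompactSupport
  refine ⟨fun x => ((f x : ℝ) : ℂ) • vacuum M, ⟨?_, ?_, ?_⟩, ?_⟩
  · exact (Complex.ofRealCLM.contDiff.comp hf).smul contDiff_const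
  · apply HasCompactSupport.intro hfc
    intro x hx
    have h0 : f x = 0 := image_eq_zero_of_notMem_tsupport hx
    rw [h0]; simp
  · exact ⟨Submodule.span ℂ {vacuum M}, inferInstance,
      fun x => Submodule.smul_mem _ _ (Submodule.mem_span_singleton_self _)⟩
  · intro h
    have h1 := congrFun h 0
    simp only [Pi.zero_apply] at h1
    have h2 : f (0 : E3) = 1 := by
      apply f.one_of_mem_closedBall
      simp [f.rIn_pos.le]
    rw [h2] at h1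
    simp at h1
    have h3 := inner_vacuum (M := M)
    rw [h1] at h3
    simp at h3

/-- Polarisation vectors exist for every box and cutoff. -/
theorem exists_polarisation (L Λ : ℝ) : ∃ pol : Mode L Λ → E3, IsPolarisation pol := by
  have : Fact (Module.finrank ℝ E3 = 2 + 1) := ⟨by simp⟩
  have hk : ∀ n : Momentum L Λ, waveVector L n.1 ≠ 0 := by
    intro n h
    have h1 := n.2.1
    rw [h, norm_zero] at h1
    exact lt_irrefl _ h1
  refine ⟨fun m => ((OrthonormalBasis.fromOrthogonalSpanSingleton (𝕜 := ℝ) 2 (hk m.1)) m.2 : E3), ?_, ?_⟩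
  · intro n μ ν
    have h1 := (OrthonormalBasis.fromOrthogonalSpanSingleton (𝕜 := ℝ) 2 (hk n)).orthonormal
    have h2 := (orthonormal_iff_ite.mp h1) μ ν
    rw [Submodule.coe_inner] at h2
    exact h2
  · intro m
    have h1 := ((OrthonormalBasis.fromOrthogonalSpanSingleton (𝕜 := ℝ) 2 (hk m.1)) m.2).2
    rw [Submodule.mem_orthogonal_singleton_iff_inner_left] at h1
    exact h1

/-- A form bound gives a bound of the ground state energy. -/
theorem le_groundEnergy [Fintype (Momentum L Λ)] (α : ℝ) (pol : Mode L Λ → E3) (e : ℝ)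
    (hform : ∀ Ψ : E3 → Fock (Mode L Λ), FS Ψ → e * nrm Ψ ^ 2 ≤
      1 / 2 * kin α pol Ψ ^ 2 + ∫ x, numE (fun m => ‖m.k‖) (Ψ x)) :
    e ≤ groundEnergy α L Λ pol := by
  apply le_csInf
  · obtain ⟨Ψ, h1, h2⟩ := state_exists (Mode L Λ)
    exact ⟨_, Ψ, h1, h2, rfl⟩
  · rintro e' ⟨Ψ, h1, h2, rfl⟩
    have h3 := nrm_pos_of_ne_zero h1.fs h2
    rw [braket_self, braket_hamiltonian α pol h1.fs, le_div_iff₀ h3]
    have h4 := hform Ψ h1.fs
    rw [nrm_sq, kin_sq] at h4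
    exact h4

end Pool.Agent.Helper985.SE
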