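import Pool.Agent.Helper985.SE.Seg4

set_option autoImplicit false

open MeasureTheory
open scoped BigOperators ComplexConjugate ENNReal

namespace Pool.Agent.Helper985.SE

/-- the root of unity phase `e^{2πi d j / N}` -/
noncomputable def ru (N : ℕ) (d : ℤ) (j : ℕ) : ℂ :=
  Complex.exp (Complex.I * ((2 * Real.pi * d * j / N : ℝ) : ℂ))

theorem ru_pow (N : ℕ) (d : ℤ) (j : ℕ) : ru N d j = (ru N d 1) ^ j := by
  unfold ru
  rw [← Complex.exp_nat_mul]
  congr 1
  push_cast
  ring

theorem sum_ru (N : ℕ) (hN : 0 < N) (d : ℤ) (hd : |d| < N) :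
    ∑ j : Fin N, ru N d j = if d = 0 then (N : ℂ) else 0 := by
  split_ifs with h
  · subst h
    simp [ru]
  · have h1 : ru N d 1 ≠ 1 := by
      intro h2
      unfold ru at h2
      rw [Complex.exp_eq_one_iff] at h2
      obtain ⟨n, hn⟩ := h2
      have h3 : ((2 * Real.pi * d * (1 : ℕ) / N : ℝ) : ℂ) = ((n * (2 * Real.pi) : ℝ) : ℂ) := by
        have h4 : Complex.I * ((2 * Real.pi * d * (1 : ℕ) / N : ℝ) : ℂ) =
            Complex.I * ((n * (2 * Real.pi) : ℝ) : ℂ) := by
          rw [hn]; push_cast; ring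
        exact mul_left_cancel₀ Complex.I_ne_zero h4
      have h5 : (2 * Real.pi * d * (1 : ℕ) / N : ℝ) = n * (2 * Real.pi) := by exact_mod_cast h3
      have hN' : (N : ℝ) ≠ 0 := by exact_mod_cast hN.ne'
      have hpi := Real.pi_pos
      have h6 : (d : ℝ) = n * N := by
        field_simp at h5
        push_cast at h5
        linarith
      have h7 : d = n * N := by exact_mod_cast h6
      have h8 : n ≠ 0 := by
        rintro rfl
        apply h
        rw [h7]; simp
      have h9 : (N : ℤ) ≤ |d| := by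
        rw [h7, abs_mul, Nat.abs_cast]
        have : 1 ≤ |n| := Int.one_le_abs h8
        nlinarith
      linarith
    have h2 : ∑ j : Fin N, ru N d j = ∑ j ∈ Finset.range N, (ru N d 1) ^ j := by
      rw [Finset.sum_range]
      apply Finset.sum_congr rfl
      intro j _
      exact ru_pow N d j
    rw [h2, geom_sum_eq h1, ← ru_pow]
    have h3 : ru N d N = 1 := by
      unfold ru
      rw [Complex.exp_eq_one_iff]
      refine ⟨d, ?_⟩
      have hN' : (N : ℝ) ≠ 0 := by exact_mod_cast hN.ne'
      have : (2 * Real.pi * d * N / N : ℝ) = 2 * Real.pi * d := by field_simp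
      rw [this]
      push_cast
      ring
    rw [h3, sub_self, zero_div]

theorem sum_ru3 (N : ℕ) (hN : 0 < N) (d : Fin 3 → ℤ) (hd : ∀ i, |d i| < N) :
    ∑ j : Fin 3 → Fin N, ∏ i, ru N (d i) (j i) = if d = 0 then ((N : ℂ) ^ 3) else 0 := by
  classical
  have h1 : ∑ j : Fin 3 → Fin N, ∏ i, ru N (d i) (j i) = ∏ i, ∑ j : Fin N, ru N (d i) j := by
    rw [Finset.prod_univ_sum]
    rw [Fintype.piFinset_univ]
  rw [h1]
  have h2 : ∀ i, ∑ j : Fin N, ru N (d i) j = if d i = 0 then (N : ℂ) else 0 :=
    fun i => sum_ru N hN (d i) (hd i)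
  simp only [h2]
  split_ifs with h
  · subst h
    simp
  · have : ∃ i, d i ≠ 0 := by
      by_contra hcon
      push Not at hcon
      exact h (funext hcon)
    obtain ⟨i, hi⟩ := this
    apply Finset.prod_eq_zero (Finset.mem_univ i)
    rw [if_neg hi]

variable {L Λ : ℝ} [Fintype (Momentum L Λ)]

/-- Parseval on the lattice. -/
theorem parseval {V : Type} [NormedAddCommGroup V] [InnerProductSpace ℂ V] (N : ℕ) (hN : 0 < N)
    (hn : ∀ (n : Momentum L Λ) (i : Fin 3), 2 * |n.1 i| < N) (w : Momentum L Λ → V) :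
    ∑ j : Fin 3 → Fin N, ‖∑ n : Momentum L Λ, (∏ i, ru N (n.1 i) (j i)) • w n‖ ^ 2 =
      (N : ℝ) ^ 3 * ∑ n, ‖w n‖ ^ 2 := by
  classical
  have hself : ∀ v : V, inner ℂ v v = ((‖v‖ ^ 2 : ℝ) : ℂ) := by
    intro v
    rw [inner_self_eq_norm_sq_to_K]
    push_cast
    rfl
  have hconj : ∀ (n : Momentum L Λ) (j : Fin 3 → Fin N),
      conj (∏ i, ru N (n.1 i) (j i)) = ∏ i, ru N (-(n.1 i)) (j i) := by
    intro n j
    rw [map_prod]
    apply Finset.prod_congr rfl
    intro i _
    unfold ru
    rw [← Complex.exp_conj]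
    congr 1
    rw [map_mul, Complex.conj_I, Complex.conj_ofReal]
    push_cast
    ring
  have key : ((∑ j : Fin 3 → Fin N, ‖∑ n : Momentum L Λ, (∏ i, ru N (n.1 i) (j i)) • w n‖ ^ 2 : ℝ) : ℂ)
      = (((N : ℝ) ^ 3 * ∑ n, ‖w n‖ ^ 2 : ℝ) : ℂ) := by
    push_cast
    have e1 : ∀ j : Fin 3 → Fin N,
        ((‖∑ n : Momentum L Λ, (∏ i, ru N (n.1 i) (j i)) • w n‖ : ℝ) : ℂ) ^ 2 =
        ∑ n : Momentum L Λ, ∑ n' : Momentum L Λ,
          (∏ i, ru N (n'.1 i - n.1 i) (j i)) * inner ℂ (w n) (w n') := by
      intro j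
      rw [← Complex.ofReal_pow, ← hself, sum_inner]
      apply Finset.sum_congr rfl
      intro n _
      rw [inner_sum]
      apply Finset.sum_congr rfl
      intro n' _
      rw [inner_smul_left, inner_smul_right, hconj, ← mul_assoc, ← Finset.prod_mul_distrib]
      congr 1
      apply Finset.prod_congr rfl
      intro i _
      unfold ru
      rw [← Complex.exp_add]
      congr 1
      push_cast
      ring
    rw [Finset.sum_congr rfl (fun j _ => e1 j), Finset.sum_comm, Finset.mul_sum]
    apply Finset.sum_congr rfl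
    intro n _
    rw [Finset.sum_comm]
    have e2 : ∀ n' : Momentum L Λ, ∑ j : Fin 3 → Fin N,
        (∏ i, ru N (n'.1 i - n.1 i) (j i)) * inner ℂ (w n) (w n') =
        if n' = n then (N : ℂ) ^ 3 * inner ℂ (w n) (w n') else 0 := by
      intro n'
      rw [← Finset.sum_mul]
      have h1 := sum_ru3 N hN (fun i => n'.1 i - n.1 i) (by
        intro i
        have a1 := hn n i
        have a2 := hn n' i
        have a3 := abs_sub (n'.1 i) (n.1 i)
        linarith)
      rw [h1]
      have h2 : ((fun i => n'.1 i - n.1 i) = (0 : Fin 3 → ℤ)) ↔ n' = n := by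
        constructor
        · intro h
          apply Subtype.ext
          funext i
          have := congrFun h i
          simp only [Pi.zero_apply] at this
          linarith
        · rintro rfl
          funext i
          simp
      by_cases h3 : n' = n
      · rw [if_pos (h2.mpr h3), if_pos h3]
      · rw [if_neg (fun h => h3 (h2.mp h)), if_neg h3, zero_mul]
    rw [Finset.sum_congr rfl (fun n' _ => e2 n'), Finset.sum_ite_eq', if_pos (Finset.mem_univ _),
      hself]
    push_cast
    rfl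
  exact_mod_cast key

end Pool.Agent.Helper985.SE
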