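import Pool.Agent.Helper985.SE.Barg4
import Pool.Agent.Helper985.SE.Count

set_option autoImplicit false

open MeasureTheory
open scoped BigOperators ComplexConjugate ENNReal

namespace Pool.Agent.Helper985.SE

/-- `∫₀ᵗ e^{-iθs} ds` -/
noncomputable def sg (t θ : ℝ) : ℂ := ∫ s in (0 : ℝ)..t, Complex.exp (-(Complex.I * ((θ * s : ℝ) : ℂ)))

theorem continuous_sgi (θ : ℝ) : Continuous (fun s : ℝ => Complex.exp (-(Complex.I * ((θ * s : ℝ) : ℂ)))) := by
  fun_prop

theorem hasDerivAt_sg (θ t : ℝ) :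
    HasDerivAt (fun t => sg t θ) (Complex.exp (-(Complex.I * ((θ * t : ℝ) : ℂ)))) t := by
  unfold sg
  exact intervalIntegral.integral_hasDerivAt_right ((continuous_sgi θ).intervalIntegrable _ _)
    ((continuous_sgi θ).stronglyMeasurableAtFilter _ _) (continuous_sgi θ).continuousAt

theorem sg_zero (θ : ℝ) : sg 0 θ = 0 := by
  unfold sg; simp

theorem conj_sg (t θ : ℝ) : conj (sg t θ) = sg t (-θ) := by
  unfold sg
  have h := ((Complex.conjCLE : ℂ ≃L[ℝ] ℂ) : ℂ →L[ℝ] ℂ).intervalIntegral_comp_comm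
    (μ := volume) (a := 0) (b := t) ((continuous_sgi θ).intervalIntegrable _ _)
  refine h.symm.trans ?_
  apply intervalIntegral.integral_congr
  intro s _
  show conj (Complex.exp (-(Complex.I * ((θ * s : ℝ) : ℂ)))) = _
  rw [← Complex.exp_conj]
  congr 1
  simp

theorem sg_formula (θ : ℝ) :
    Complex.I * (θ : ℂ) * sg 1 θ = 1 - Complex.exp (-(Complex.I * (θ : ℂ))) := by
  have h1 : ∀ s : ℝ, HasDerivAt (fun s : ℝ => -Complex.exp (-(Complex.I * ((θ * s : ℝ) : ℂ))))
      (Complex.I * (θ : ℂ) * Complex.exp (-(Complex.I * ((θ * s : ℝ) : ℂ)))) s := by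
    intro s
    have h2 : HasDerivAt (fun s : ℝ => θ * s) θ s := by
      simpa using (hasDerivAt_id s).const_mul θ
    have h3 := (((h2.ofReal_comp).const_mul Complex.I).neg.cexp).neg
    refine h3.congr_deriv ?_
    simp only [Pi.neg_apply]
    ring
  have h4 := intervalIntegral.integral_eq_sub_of_hasDerivAt (a := 0) (b := 1) (fun s _ => h1 s)
    ((continuous_const.mul (continuous_sgi θ)).intervalIntegrable _ _)
  rw [intervalIntegral.integral_const_mul] at h4
  unfold sg
  rw [h4]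
  simp
  ring

theorem exp_mul_sg (θ : ℝ) :
    Complex.exp (-(Complex.I * (θ : ℂ))) * sg 1 (-θ) = sg 1 θ := by
  by_cases h : θ = 0
  · subst h
    simp
  · have h1 := sg_formula θ
    have h2 := sg_formula (-θ)
    have h3 : Complex.I * (θ : ℂ) ≠ 0 := mul_ne_zero Complex.I_ne_zero (by exact_mod_cast h)
    apply mul_left_cancel₀ h3
    rw [h1]
    have h4 : Complex.exp (-(Complex.I * (θ : ℂ))) * Complex.exp (-(Complex.I * (((-θ : ℝ)) : ℂ))) = 1 := by
      rw [← Complex.exp_add]
      have : -(Complex.I * (θ : ℂ)) + -(Complex.I * (((-θ : ℝ)) : ℂ)) = 0 := by push_cast; ring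
      rw [this, Complex.exp_zero]
    have h5 : Complex.I * (θ : ℂ) * (Complex.exp (-(Complex.I * (θ : ℂ))) * sg 1 (-θ)) =
        -(Complex.exp (-(Complex.I * (θ : ℂ))) * (Complex.I * ((-θ : ℝ) : ℂ) * sg 1 (-θ))) := by
      push_cast; ring
    rw [h5, h2]
    linear_combination h4

theorem norm_sg_le (θ : ℝ) : ‖sg 1 θ‖ ≤ 1 := by
  unfold sg
  have h := intervalIntegral.norm_integral_le_of_norm_le_const (a := 0) (b := 1) (C := 1)
    (f := fun s : ℝ => Complex.exp (-(Complex.I * ((θ * s : ℝ) : ℂ)))) (by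
      intro s _
      rw [show -(Complex.I * ((θ * s : ℝ) : ℂ)) = (((-(θ * s)) : ℝ) : ℂ) * Complex.I by
        push_cast; ring, Complex.norm_exp_ofReal_mul_I])
  simpa using h

theorem le_norm_sg (θ : ℝ) (h : |θ| ≤ Real.pi) : 2 / Real.pi ≤ ‖sg 1 θ‖ := by
  have hpi := Real.pi_pos
  by_cases h0 : θ = 0
  · subst h0
    have : sg 1 0 = 1 := by
      unfold sg; simp
    rw [this, norm_one, div_le_one hpi]
    linarith [Real.pi_gt_three]
  · have h1 := sg_formula θ
    have h2 : ‖1 - Complex.exp (-(Complex.I * (θ : ℂ)))‖ = 2 * |Real.sin (θ / 2)| := by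
      have h3 : 1 - Complex.exp (-(Complex.I * (θ : ℂ))) =
          Complex.exp (-(Complex.I * ((θ / 2 : ℝ) : ℂ))) * (2 * Complex.I * Complex.sin ((θ / 2 : ℝ) : ℂ)) := by
        rw [Complex.sin]
        have e1 : Complex.exp (-(Complex.I * (θ : ℂ))) =
            Complex.exp (-(Complex.I * ((θ / 2 : ℝ) : ℂ))) * Complex.exp (-((θ / 2 : ℝ) : ℂ) * Complex.I) := by
          rw [← Complex.exp_add]
          congr 1
          push_cast; ring
        have e2 : (1 : ℂ) = Complex.exp (-(Complex.I * ((θ / 2 : ℝ) : ℂ))) *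
            Complex.exp (((θ / 2 : ℝ) : ℂ) * Complex.I) := by
          rw [← Complex.exp_add]
          have : -(Complex.I * ((θ / 2 : ℝ) : ℂ)) + ((θ / 2 : ℝ) : ℂ) * Complex.I = 0 := by ring
          rw [this, Complex.exp_zero]
        rw [e1]
        nth_rewrite 1 [e2]
        have hI : Complex.I * Complex.I = -1 := Complex.I_mul_I
        linear_combination (-Complex.exp (-(Complex.I * ((θ / 2 : ℝ) : ℂ))) * (Complex.exp (-((θ / 2 : ℝ) : ℂ) * Complex.I) -
          Complex.exp (((θ / 2 : ℝ) : ℂ) * Complex.I))) * hI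
      rw [h3, norm_mul, norm_mul, norm_mul, Complex.norm_I, ← Complex.ofReal_sin, Complex.norm_real,
        Real.norm_eq_abs, show -(Complex.I * ((θ / 2 : ℝ) : ℂ)) = (((-(θ / 2)) : ℝ) : ℂ) * Complex.I by
        push_cast; ring, Complex.norm_exp_ofReal_mul_I]
      simp
    have h3 : |θ| * ‖sg 1 θ‖ = 2 * |Real.sin (θ / 2)| := by
      rw [← h2, ← h1, norm_mul, norm_mul, Complex.norm_I, Complex.norm_real, Real.norm_eq_abs, one_mul]
    have h4 : 0 < |θ| := abs_pos.mpr h0
    have h5 : 2 / Real.pi * (|θ| / 2) ≤ Real.sin (|θ| / 2) :=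
      Real.mul_le_sin (by positivity) (by linarith)
    have h6 : |Real.sin (θ / 2)| = Real.sin (|θ| / 2) := by
      rcases abs_cases θ with ⟨h7, _⟩ | ⟨h7, _⟩
      · rw [h7, abs_of_nonneg]
        rw [h7] at h5
        refine le_trans ?_ h5
        rw [← h7]
        positivity
      · rw [h7, neg_div, Real.sin_neg, abs_of_nonpos]
        have h8 : 0 ≤ Real.sin (|θ| / 2) := le_trans (by positivity) h5
        rw [h7, neg_div, Real.sin_neg] at h8
        linarith
    rw [h6] at h3
    have h7 : |θ| * (2 / Real.pi) ≤ |θ| * ‖sg 1 θ‖ := by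
      rw [h3]
      calc |θ| * (2 / Real.pi) = 2 * (2 / Real.pi * (|θ| / 2)) := by ring
        _ ≤ _ := by linarith
    exact le_of_mul_le_mul_left h7 h4

end Pool.Agent.Helper985.SE
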