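import Pool.Agent.Helper985.SE.Seg1

set_option autoImplicit false

open MeasureTheory
open scoped BigOperators ComplexConjugate ENNReal

namespace Pool.Agent.Helper985.SE

variable {L Λ : ℝ}

theorem waveVector_neg (L : ℝ) (n : Fin 3 → ℤ) : waveVector L (-n) = -waveVector L n := by
  ext i
  show (2 * Real.pi / L) * (((-n) i : ℤ) : ℝ) = -((2 * Real.pi / L) * (n i : ℝ))
  simp

/-- negation of momenta -/
def negMom (L Λ : ℝ) : Momentum L Λ ≃ Momentum L Λ where
  toFun n := ⟨-n.1, by rw [waveVector_neg, norm_neg]; exact n.2⟩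
  invFun n := ⟨-n.1, by rw [waveVector_neg, norm_neg]; exact n.2⟩
  left_inv n := Subtype.ext (neg_neg n.1)
  right_inv n := Subtype.ext (neg_neg n.1)

theorem k_negMom (n : Momentum L Λ) : (negMom L Λ n).k = -n.k := waveVector_neg L n.1

/-- The real subspace of one-photon vectors on which the fields commute. -/
def IsReal (pol : Mode L Λ → E3) (f : Mode L Λ → ℂ) : Prop :=
  ∃ w : Momentum L Λ → Fin 3 → ℂ, (∀ n i, w (negMom L Λ n) i = conj (w n i)) ∧
    ∀ n μ, f (n, μ) = ∑ i, ((pol (n, μ) i : ℝ) : ℂ) * w n i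

theorem IsReal.zero (pol : Mode L Λ → E3) : IsReal pol 0 :=
  ⟨fun _ _ => 0, by simp, by simp⟩

theorem IsReal.add {pol : Mode L Λ → E3} {f g : Mode L Λ → ℂ} (hf : IsReal pol f)
    (hg : IsReal pol g) : IsReal pol (f + g) := by
  obtain ⟨w, h1, h2⟩ := hf
  obtain ⟨w', h1', h2'⟩ := hg
  refine ⟨fun n i => w n i + w' n i, ?_, ?_⟩
  · intro n i
    simp only
    rw [h1, h1', map_add]
  · intro n μ
    rw [Pi.add_apply, h2, h2', ← Finset.sum_add_distrib]
    apply Finset.sum_congr rfl
    intro i _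
    ring

theorem IsReal.smul {pol : Mode L Λ → E3} {f : Mode L Λ → ℂ} (hf : IsReal pol f) (c : ℝ) :
    IsReal pol (fun m => (c : ℂ) * f m) := by
  obtain ⟨w, h1, h2⟩ := hf
  refine ⟨fun n i => (c : ℂ) * w n i, ?_, ?_⟩
  · intro n i
    simp only
    rw [h1, map_mul, Complex.conj_ofReal]
  · intro n μ
    simp only
    rw [h2, Finset.mul_sum]
    apply Finset.sum_congr rfl
    intro i _
    ring

theorem IsReal.im_inner [Fintype (Momentum L Λ)] {pol : Mode L Λ → E3} (hp : IsPolarisation pol)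
    {f g : Mode L Λ → ℂ} (hf : IsReal pol f) (hg : IsReal pol g) :
    (∑ m, f m * conj (g m)).im = 0 := by
  obtain ⟨w, h1, h2⟩ := hf
  obtain ⟨w', h1', h2'⟩ := hg
  set P : Momentum L Λ → Fin 3 → Fin 3 → ℝ := fun n i j =>
    (if i = j then 1 else 0) - n.k i * n.k j / ‖n.k‖ ^ 2 with hP
  have hPneg : ∀ n i j, P (negMom L Λ n) i j = P n i j := by
    intro n i j
    simp only [hP]
    rw [k_negMom, norm_neg]
    simp
  have hs : ∑ m, f m * conj (g m) =
      ∑ n : Momentum L Λ, ∑ i, ∑ j, (P n i j : ℂ) * (w n i * conj (w' n j)) := by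
    rw [Fintype.sum_prod_type]
    apply Finset.sum_congr rfl
    intro n _
    have e1 : ∀ μ : Fin 2, f (n, μ) * conj (g (n, μ)) =
        ∑ i, ∑ j, ((pol (n, μ) i * pol (n, μ) j : ℝ) : ℂ) * (w n i * conj (w' n j)) := by
      intro μ
      rw [h2, h2', map_sum, Finset.sum_mul_sum]
      apply Finset.sum_congr rfl
      intro i _
      apply Finset.sum_congr rfl
      intro j _
      rw [map_mul, Complex.conj_ofReal]
      push_cast
      ring
    rw [Finset.sum_congr rfl (fun μ _ => e1 μ), Finset.sum_comm]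
    apply Finset.sum_congr rfl
    intro i _
    rw [Finset.sum_comm]
    apply Finset.sum_congr rfl
    intro j _
    rw [← Finset.sum_mul, ← Complex.ofReal_sum, pol_complete pol hp n i j]
  have hconj : conj (∑ m, f m * conj (g m)) = ∑ m, f m * conj (g m) := by
    rw [hs]
    conv_rhs => rw [← Equiv.sum_comp (negMom L Λ)]
    simp only [map_sum]
    apply Finset.sum_congr rfl
    intro n _
    apply Finset.sum_congr rfl
    intro i _
    apply Finset.sum_congr rfl
    intro j _
    rw [hPneg, h1, h1']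
    simp only [map_mul, Complex.conj_conj, Complex.conj_ofReal]
  exact Complex.conj_eq_iff_im.mp hconj

/-- `√α / √(2V|k|)` -/
noncomputable def cpl (α : ℝ) (n : Momentum L Λ) : ℝ :=
  Real.sqrt α / Real.sqrt (2 * L ^ 3 * ‖n.k‖)

/-- The coefficient `√α A_v(x)` of the creation operators. -/
noncomputable def gam (α : ℝ) (pol : Mode L Λ → E3) (v : E3) (x : E3) (m : Mode L Λ) : ℂ :=
  ((cpl α m.1 * inner ℝ (pol m) v : ℝ) : ℂ) * conj (ph m x)

/-- The coefficient of the parallel transport from `x` to `x + t v`. -/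
noncomputable def GG (α : ℝ) (pol : Mode L Λ → E3) (v : E3) (t : ℝ) (x : E3) (m : Mode L Λ) : ℂ :=
  ((cpl α m.1 * inner ℝ (pol m) v : ℝ) : ℂ) * conj (ph m x) * sg t (inner ℝ m.k v)

theorem ph_add (m : Mode L Λ) (x y : E3) : ph m (x + y) = ph m x * ph m y := by
  unfold ph
  rw [← Complex.exp_add, inner_add_right]
  congr 1
  push_cast
  ring

theorem conj_ph_smul (m : Mode L Λ) (t : ℝ) (v : E3) :
    conj (ph m (t • v)) = Complex.exp (-(Complex.I * (((inner ℝ m.k v : ℝ) * t : ℝ) : ℂ))) := by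
  rw [conj_ph, inner_smul_right]
  congr 3
  push_cast
  ring

theorem hasDerivAt_GG (α : ℝ) (pol : Mode L Λ → E3) (v x : E3) (t : ℝ) (m : Mode L Λ) :
    HasDerivAt (fun s => GG α pol v s x m) (gam α pol v (x + t • v) m) t := by
  unfold GG gam
  have h := (hasDerivAt_sg (inner ℝ m.k v) t).const_mul
    (((cpl α m.1 * inner ℝ (pol m) v : ℝ) : ℂ) * conj (ph m x))
  refine h.congr_deriv ?_
  rw [ph_add, map_mul, conj_ph_smul]
  ring

theorem continuous_sg (θ : ℝ) : Continuous (fun t => sg t θ) :=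
  continuous_iff_continuousAt.mpr (fun t => (hasDerivAt_sg θ t).continuousAt)

theorem continuous_conj_ph (m : Mode L Λ) : Continuous (fun x : E3 => conj (ph m x)) :=
  (contDiff_conj_ph m).continuous

theorem continuous_GG (α : ℝ) (pol : Mode L Λ → E3) (v : E3) (m : Mode L Λ) :
    Continuous (fun p : ℝ × E3 => GG α pol v p.1 p.2 m) := by
  unfold GG
  exact (continuous_const.mul ((continuous_conj_ph m).comp continuous_snd)).mul
    ((continuous_sg _).comp continuous_fst)

theorem GG_zero (α : ℝ) (pol : Mode L Λ → E3) (v x : E3) : GG α pol v 0 x = 0 := by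
  funext m
  unfold GG
  rw [sg_zero, mul_zero]
  rfl

theorem ph_negMom (n : Momentum L Λ) (μ : Fin 2) (x : E3) :
    ph ((negMom L Λ n, μ) : Mode L Λ) x = conj (ph ((n, μ) : Mode L Λ) x) := by
  have h : (Mode.k ((negMom L Λ n, μ) : Mode L Λ) : E3) = -(Mode.k ((n, μ) : Mode L Λ)) :=
    waveVector_neg L n.1
  rw [conj_ph]
  unfold ph
  rw [h, inner_neg_left]
  congr 1
  push_cast
  ring

theorem cpl_negMom (α : ℝ) (n : Momentum L Λ) : cpl α (negMom L Λ n) = cpl α n := by
  unfold cpl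
  rw [k_negMom, norm_neg]

theorem inner_sum_pol (pol : Mode L Λ → E3) (m : Mode L Λ) (v : E3) :
    (inner ℝ (pol m) v : ℝ) = ∑ i, pol m i * v i := by
  rw [PiLp.inner_apply]
  apply Finset.sum_congr rfl
  intro i _
  simp [mul_comm]

theorem IsReal.GG (α : ℝ) (pol : Mode L Λ → E3) (v : E3) (t : ℝ) (x : E3) :
    IsReal pol (SE.GG α pol v t x) := by
  refine ⟨fun n i => ((cpl α n * v i : ℝ) : ℂ) * conj (ph ((n, 0) : Mode L Λ) x) *
    sg t (inner ℝ n.k v), ?_, ?_⟩
  · intro n i
    simp only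
    rw [cpl_negMom, k_negMom, inner_neg_left, ph_negMom, map_mul, map_mul, Complex.conj_ofReal,
      conj_sg, Complex.conj_conj]
  · intro n μ
    unfold SE.GG
    rw [inner_sum_pol]
    have h : ph ((n, μ) : Mode L Λ) x = ph ((n, 0) : Mode L Λ) x := rfl
    have h' : (Mode.k ((n, μ) : Mode L Λ) : E3) = n.k := rfl
    rw [h, h']
    push_cast
    rw [Finset.mul_sum, Finset.sum_mul, Finset.sum_mul]
    apply Finset.sum_congr rfl
    intro i _
    ring

theorem IsReal.gam (α : ℝ) (pol : Mode L Λ → E3) (v : E3) (x : E3) :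
    IsReal pol (SE.gam α pol v x) := by
  refine ⟨fun n i => ((cpl α n * v i : ℝ) : ℂ) * conj (ph ((n, 0) : Mode L Λ) x), ?_, ?_⟩
  · intro n i
    simp only
    rw [cpl_negMom, ph_negMom, map_mul, Complex.conj_ofReal, Complex.conj_conj]
  · intro n μ
    unfold SE.gam
    rw [inner_sum_pol]
    have h : ph ((n, μ) : Mode L Λ) x = ph ((n, 0) : Mode L Λ) x := rfl
    rw [h]
    push_cast
    rw [Finset.mul_sum, Finset.sum_mul]
    apply Finset.sum_congr rfl
    intro i _
    ring

/-- The segment coefficient. -/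
noncomputable def seg (α : ℝ) (pol : Mode L Λ → E3) (v : E3) : E3 → Mode L Λ → ℂ := GG α pol v 1

variable [Fintype (Momentum L Λ)]

theorem gen_gam (α : ℝ) (pol : Mode L Λ → E3) (v : E3) (Ψ : E3 → Fock (Mode L Λ)) (x : E3) :
    gen v (gam α pol v) Ψ x = ∑ i, ((v i : ℝ) : ℂ) • velocity α L Λ pol i Ψ x := by
  unfold gen
  simp only [velocity_eq, smul_add, Finset.sum_add_distrib]
  have e1 : fderiv ℝ Ψ x v = ∑ i, ((v i : ℝ) : ℂ) • fderiv ℝ Ψ x (EuclideanSpace.single i (1 : ℝ)) := by
    have h : v = ∑ i, v i • (EuclideanSpace.single i (1 : ℝ) : E3) := by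
      ext j
      simp [Pi.single_apply]
    conv_lhs => rw [h]
    rw [map_sum]
    apply Finset.sum_congr rfl
    intro i _
    rw [map_smul, Complex.coe_smul]
  rw [e1, Finset.smul_sum]
  have e2 : ∀ i, (-Complex.I) • ((v i : ℝ) : ℂ) • fderiv ℝ Ψ x (EuclideanSpace.single i (1 : ℝ)) =
      ((v i : ℝ) : ℂ) • (-Complex.I) • fderiv ℝ Ψ x (EuclideanSpace.single i (1 : ℝ)) := by
    intro i
    rw [smul_comm]
  rw [Finset.sum_congr rfl (fun i _ => e2 i), add_assoc]
  congr 1
  unfold vp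
  simp only [LinearMap.add_apply, crC_apply, anC_apply]
  have hcoef : ∀ m : Mode L Λ, ∑ i, ((v i : ℝ) : ℂ) * (((Real.sqrt α : ℝ) : ℂ) * (al pol i m : ℂ)) =
      ((cpl α m.1 * inner ℝ (pol m) v : ℝ) : ℂ) := by
    intro m
    rw [inner_sum_pol]
    unfold al cpl
    push_cast
    rw [Finset.mul_sum]
    apply Finset.sum_congr rfl
    intro i _
    have : (Mode.k m : E3) = m.1.k := rfl
    rw [this]
    ring
  simp only [smul_add, Finset.smul_sum, smul_smul, Finset.sum_add_distrib]
  rw [Finset.sum_comm (s := Finset.univ) (t := Finset.univ)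
      (f := fun i m => (((v i : ℝ) : ℂ) * (((Real.sqrt α : ℝ) : ℂ) * ((al pol i m : ℂ) * ph m x))) • an m (Ψ x)),
    Finset.sum_comm (s := Finset.univ) (t := Finset.univ)
      (f := fun i m => (((v i : ℝ) : ℂ) * (((Real.sqrt α : ℝ) : ℂ) * ((al pol i m : ℂ) * conj (ph m x)))) • cr m (Ψ x)),
    add_comm]
  congr 1
  · apply Finset.sum_congr rfl
    intro m _
    rw [← Finset.sum_smul]
    congr 1
    unfold gam
    rw [map_mul, Complex.conj_ofReal, Complex.conj_conj, ← hcoef, Finset.sum_mul]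
    apply Finset.sum_congr rfl
    intro i _
    ring
  · apply Finset.sum_congr rfl
    intro m _
    rw [← Finset.sum_smul]
    congr 1
    unfold gam
    rw [← hcoef, Finset.sum_mul]
    apply Finset.sum_congr rfl
    intro i _
    ring

end Pool.Agent.Helper985.SE
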