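import Pool.Agent.Helper985.SE.Seg2

set_option autoImplicit false

open MeasureTheory
open scoped BigOperators ComplexConjugate ENNReal

namespace Pool.Agent.Helper985.SE

variable {L Λ : ℝ}

/-- The coefficient of the parallel transport along a list of displacements. -/
noncomputable def Fl (α : ℝ) (pol : Mode L Λ → E3) : List E3 → E3 → Mode L Λ → ℂ
  | [] => fun _ => 0
  | v :: l => fun x => seg α pol v x + Fl α pol l (x + v)

/-- `√(∑_i ‖D_i Ψ‖²)` -/
noncomputable def kin (α : ℝ) (pol : Mode L Λ → E3) (Ψ : E3 → Fock (Mode L Λ)) : ℝ :=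
  Real.sqrt (∑ i, ∫ x, ‖velocity α L Λ pol i Ψ x‖ ^ 2)

theorem Fl_real (α : ℝ) (pol : Mode L Λ → E3) (l : List E3) (x : E3) : IsReal pol (Fl α pol l x) := by
  induction l generalizing x with
  | nil => exact IsReal.zero pol
  | cons v l ih => exact (IsReal.GG α pol v 1 x).add (ih (x + v))

theorem continuous_seg (α : ℝ) (pol : Mode L Λ → E3) (v : E3) : Continuous (seg α pol v) := by
  apply continuous_pi
  intro m
  have h : Continuous (fun x : E3 => GG α pol v 1 x m) := by
    unfold GG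
    exact (continuous_const.mul (continuous_conj_ph m)).mul continuous_const
  exact h

theorem continuous_Fl (α : ℝ) (pol : Mode L Λ → E3) (l : List E3) : Continuous (Fl α pol l) := by
  induction l with
  | nil => exact continuous_const
  | cons v l ih => exact (continuous_seg α pol v).add (ih.comp (continuous_id.add continuous_const))

theorem Fl_append (α : ℝ) (pol : Mode L Λ → E3) (l l' : List E3) (x : E3) :
    Fl α pol (l ++ l') x = Fl α pol l x + Fl α pol l' (x + l.sum) := by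
  induction l generalizing x with
  | nil => simp [Fl]
  | cons v l ih =>
    simp only [List.cons_append, Fl, List.sum_cons]
    rw [ih, add_assoc, add_assoc]

theorem SS_Fl_cons [Fintype (Momentum L Λ)] (α : ℝ) {pol : Mode L Λ → E3} (hp : IsPolarisation pol) (v : E3) (l : List E3)
    (Φ : E3 × (Mode L Λ → ℂ) → ℂ) :
    SS (seg α pol v) v (SS (Fl α pol l) l.sum Φ) = SS (Fl α pol (v :: l)) (v :: l).sum Φ := by
  rw [SS_SS]
  · rw [List.sum_cons]
    rfl
  · intro x
    exact IsReal.im_inner hp (Fl_real α pol l (x + v)) (IsReal.GG α pol v 1 x)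

theorem seg_bound [Fintype (Momentum L Λ)] (α : ℝ) {pol : Mode L Λ → E3} (hp : IsPolarisation pol) {Ψ : E3 → Fock (Mode L Λ)}
    (hΨ : FS Ψ) (v : E3) :
    NN (SS (seg α pol v) v (BB Ψ) - BB Ψ) ≤ NN (BB (gen v (gam α pol v) Ψ)) := by
  apply path_bound hΨ v (gam α pol v) _ (GG α pol v)
  · exact fun m => continuous_GG α pol v m
  · exact fun x => GG_zero α pol v x
  · exact fun x t m => hasDerivAt_GG α pol v x t m
  · exact fun x t => IsReal.im_inner hp (IsReal.gam α pol v _) (IsReal.GG α pol v t x)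
  · intro m
    unfold gam
    exact contDiff_const.mul (contDiff_conj_ph m)

theorem contDiff_gam (α : ℝ) (pol : Mode L Λ → E3) (v : E3) (m : Mode L Λ) :
    ContDiff ℝ ((⊤ : ℕ∞) : WithTop ℕ∞) (fun x => gam α pol v x m) := by
  unfold gam
  exact contDiff_const.mul (contDiff_conj_ph m)

theorem kin_nonneg (α : ℝ) (pol : Mode L Λ → E3) (Ψ : E3 → Fock (Mode L Λ)) : 0 ≤ kin α pol Ψ :=
  Real.sqrt_nonneg _

theorem kin_sq (α : ℝ) (pol : Mode L Λ → E3) (Ψ : E3 → Fock (Mode L Λ)) :
    kin α pol Ψ ^ 2 = ∑ i, ∫ x, ‖velocity α L Λ pol i Ψ x‖ ^ 2 :=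
  Real.sq_sqrt (Finset.sum_nonneg (fun _ _ => integral_nonneg (fun x => by positivity)))

theorem nrm_gen_le [Fintype (Momentum L Λ)] (α : ℝ) (pol : Mode L Λ → E3) {Ψ : E3 → Fock (Mode L Λ)} (hΨ : FS Ψ) (v : E3) :
    nrm (gen v (gam α pol v) Ψ) ≤ ‖v‖ * kin α pol Ψ := by
  have h0 : 0 ≤ ‖v‖ * kin α pol Ψ := mul_nonneg (norm_nonneg _) (kin_nonneg _ _ _)
  apply (pow_le_pow_iff_left₀ (nrm_nonneg _) h0 two_ne_zero).mp
  rw [nrm_sq, mul_pow, kin_sq, Finset.mul_sum]
  have hi : ∀ i, Integrable (fun x => ‖velocity α L Λ pol i Ψ x‖ ^ 2) :=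
    fun i => FS.integrable_norm_sq volume (hΨ.velocity α pol i)
  have h1 : ∑ i, ‖v‖ ^ 2 * ∫ x, ‖velocity α L Λ pol i Ψ x‖ ^ 2 =
      ∫ x, ‖v‖ ^ 2 * ∑ i, ‖velocity α L Λ pol i Ψ x‖ ^ 2 := by
    rw [integral_const_mul, integral_finsetSum _ (fun i _ => hi i), Finset.mul_sum]
  rw [h1]
  apply integral_mono (FS.integrable_norm_sq volume (hΨ.gen v (contDiff_gam α pol v)))
  · exact (integrable_finsetSum _ (fun i _ => hi i)).const_mul _
  · intro x
    simp only
    rw [gen_gam]
    have h2 : ‖∑ i, ((v i : ℝ) : ℂ) • velocity α L Λ pol i Ψ x‖ ≤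
        ∑ i, |v i| * ‖velocity α L Λ pol i Ψ x‖ := by
      refine (norm_sum_le _ _).trans (le_of_eq ?_)
      apply Finset.sum_congr rfl
      intro i _
      rw [norm_smul, Complex.norm_real, Real.norm_eq_abs]
    calc ‖∑ i, ((v i : ℝ) : ℂ) • velocity α L Λ pol i Ψ x‖ ^ 2 ≤
          (∑ i, |v i| * ‖velocity α L Λ pol i Ψ x‖) ^ 2 := pow_le_pow_left₀ (norm_nonneg _) h2 2
      _ ≤ (∑ i, |v i| ^ 2) * ∑ i, ‖velocity α L Λ pol i Ψ x‖ ^ 2 :=
          Finset.sum_mul_sq_le_sq_mul_sq _ _ _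
      _ = ‖v‖ ^ 2 * ∑ i, ‖velocity α L Λ pol i Ψ x‖ ^ 2 := by
          congr 1
          rw [EuclideanSpace.norm_sq_eq]
          rfl

theorem list_bound [Fintype (Momentum L Λ)] (α : ℝ) {pol : Mode L Λ → E3} (hp : IsPolarisation pol)
    {Ψ : E3 → Fock (Mode L Λ)} (hΨ : FS Ψ) (l : List E3) :
    NN (SS (Fl α pol l) l.sum (BB Ψ) - BB Ψ) ≤
      ENNReal.ofReal (cM (Mode L Λ) * ((l.map (fun v => ‖v‖)).sum * kin α pol Ψ)) := by
  have hc := continuous_BB hΨ
  have hcM : 0 < cM (Mode L Λ) := cM_pos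
  induction l with
  | nil =>
    have h1 : SS (Fl α pol []) ([] : List E3).sum (BB Ψ) = BB Ψ := SS_zero _
    rw [h1, sub_self]
    have h2 : NN (0 : E3 × (Mode L Λ → ℂ) → ℂ) = 0 := by
      unfold NN
      exact eLpNorm_zero
    rw [h2]
    exact zero_le
  | cons v l ih =>
    rw [← SS_Fl_cons α hp v l]
    have hcl := continuous_SS (continuous_Fl α pol l) l.sum hc
    have e1 : SS (seg α pol v) v (SS (Fl α pol l) l.sum (BB Ψ)) - BB Ψ =
        SS (seg α pol v) v (SS (Fl α pol l) l.sum (BB Ψ) - BB Ψ) +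
          (SS (seg α pol v) v (BB Ψ) - BB Ψ) := by
      rw [SS_sub]
      abel
    rw [e1]
    have hcv := continuous_seg α pol v
    refine (NN_add_le (continuous_SS hcv v (hcl.sub hc)) ((continuous_SS hcv v hc).sub hc)).trans ?_
    rw [NN_SS hcv v (hcl.sub hc)]
    have h2 := seg_bound α hp hΨ v
    rw [NN_BB_eq (hΨ.gen v (contDiff_gam α pol v))] at h2
    have h3 : ENNReal.ofReal (cM (Mode L Λ) * nrm (gen v (gam α pol v) Ψ)) ≤
        ENNReal.ofReal (cM (Mode L Λ) * (‖v‖ * kin α pol Ψ)) := by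
      apply ENNReal.ofReal_le_ofReal
      exact mul_le_mul_of_nonneg_left (nrm_gen_le α pol hΨ v) hcM.le
    refine (add_le_add ih (h2.trans h3)).trans (le_of_eq ?_)
    rw [← ENNReal.ofReal_add]
    · congr 1
      rw [List.map_cons, List.sum_cons]
      ring
    · apply mul_nonneg hcM.le
      apply mul_nonneg _ (kin_nonneg _ _ _)
      apply List.sum_nonneg
      intro a ha
      obtain ⟨w, _, rfl⟩ := List.mem_map.mp ha
      exact norm_nonneg w
    · exact mul_nonneg hcM.le (mul_nonneg (norm_nonneg _) (kin_nonneg _ _ _))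

theorem seg_neg (α : ℝ) (pol : Mode L Λ → E3) (v x : E3) :
    seg α pol (-v) (x + v) = -seg α pol v x := by
  funext m
  simp only [seg, GG, Pi.neg_apply]
  rw [inner_neg_right, inner_neg_right, ph_add, map_mul]
  have h1 := exp_mul_sg (inner ℝ m.k v)
  have h2 : conj (ph m v) = Complex.exp (-(Complex.I * ((inner ℝ m.k v : ℝ) : ℂ))) := conj_ph m v
  rw [h2]
  push_cast
  linear_combination (-(((cpl α m.1 : ℝ) : ℂ) * ((inner ℝ (pol m) v : ℝ) : ℂ)) * conj (ph m x)) * h1

theorem seg_shift (α : ℝ) (pol : Mode L Λ → E3) (v x y : E3) (m : Mode L Λ) :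
    seg α pol v (x + y) m = seg α pol v x m * conj (ph m y) := by
  simp only [seg, GG]
  rw [ph_add, map_mul]
  ring

/-- a coordinate vector of length `h` -/
noncomputable def ax (h : ℝ) (j : Fin 3) : E3 := EuclideanSpace.single j h

/-- the plaquette -/
noncomputable def plq (h : ℝ) : List E3 := [ax h 0, ax h 1, -ax h 0, -ax h 1]

theorem plq_sum (h : ℝ) : (plq h).sum = 0 := by
  unfold plq
  simp

/-- The coefficient of the plaquette based at `x`. -/
noncomputable def loop (α : ℝ) (pol : Mode L Λ → E3) (h : ℝ) (x : E3) : Mode L Λ → ℂ :=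
  Fl α pol (plq h) x

theorem rep_sum (h : ℝ) (n : ℕ) : ((List.replicate n (plq h)).flatten).sum = 0 := by
  induction n with
  | zero => simp
  | succ n ih => rw [List.replicate_succ, List.flatten_cons, List.sum_append, ih, plq_sum, add_zero]

theorem Fl_rep (α : ℝ) (pol : Mode L Λ → E3) (h : ℝ) (n : ℕ) (x : E3) :
    Fl α pol ((List.replicate n (plq h)).flatten) x = fun m => (n : ℂ) * loop α pol h x m := by
  induction n with
  | zero =>
    funext m
    simp [Fl]
  | succ n ih =>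
    rw [List.replicate_succ, List.flatten_cons, Fl_append, plq_sum, add_zero, ih]
    funext m
    simp only [Pi.add_apply]
    push_cast
    have : Fl α pol (plq h) x m = loop α pol h x m := rfl
    rw [this]
    ring

/-- The lasso: go to `x + y`, run `n` times around the plaquette, and return. -/
noncomputable def lasso (h : ℝ) (n : ℕ) (y : E3) : List E3 :=
  (y :: (List.replicate n (plq h)).flatten) ++ [-y]

theorem lasso_sum (h : ℝ) (n : ℕ) (y : E3) : (lasso h n y).sum = 0 := by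
  unfold lasso
  rw [List.sum_append, List.sum_cons, rep_sum]
  simp

theorem Fl_lasso (α : ℝ) (pol : Mode L Λ → E3) (h : ℝ) (n : ℕ) (y x : E3) :
    Fl α pol (lasso h n y) x = fun m => (n : ℂ) * loop α pol h (x + y) m := by
  unfold lasso
  rw [Fl_append]
  have h1 : Fl α pol (y :: (List.replicate n (plq h)).flatten) x =
      seg α pol y x + Fl α pol ((List.replicate n (plq h)).flatten) (x + y) := rfl
  have h2 : Fl α pol [-y] (x + (y :: (List.replicate n (plq h)).flatten).sum) =
      -seg α pol y x := by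
    rw [List.sum_cons, rep_sum, add_zero]
    show seg α pol (-y) (x + y) + (0 : Mode L Λ → ℂ) = _
    rw [seg_neg, add_zero]
  rw [h1, h2, Fl_rep]
  abel

theorem norm_ax (h : ℝ) (hh : 0 ≤ h) (j : Fin 3) : ‖ax h j‖ = h := by
  unfold ax
  rw [PiLp.norm_single, Real.norm_of_nonneg hh]

theorem rep_len (h : ℝ) (hh : 0 ≤ h) (n : ℕ) :
    (((List.replicate n (plq h)).flatten).map (fun v => ‖v‖)).sum = 4 * h * n := by
  induction n with
  | zero => simp
  | succ n ih =>
    rw [List.replicate_succ, List.flatten_cons, List.map_append, List.sum_append, ih]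
    unfold plq
    simp only [List.map_cons, List.map_nil, List.sum_cons, List.sum_nil, norm_neg, norm_ax h hh]
    push_cast
    ring

theorem lasso_len (h : ℝ) (hh : 0 ≤ h) (n : ℕ) (y : E3) :
    ((lasso h n y).map (fun v => ‖v‖)).sum = 2 * ‖y‖ + 4 * h * n := by
  unfold lasso
  rw [List.map_append, List.sum_append, List.map_cons, List.sum_cons, rep_len h hh]
  simp only [List.map_cons, List.map_nil, List.sum_cons, List.sum_nil, norm_neg]
  ring

theorem lasso_bound [Fintype (Momentum L Λ)] (α : ℝ) {pol : Mode L Λ → E3} (hp : IsPolarisation pol)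
    {Ψ : E3 → Fock (Mode L Λ)} (hΨ : FS Ψ) (h : ℝ) (hh : 0 ≤ h) (n : ℕ) (y : E3) :
    NN (SS (fun x m => (n : ℂ) * loop α pol h (x + y) m) 0 (BB Ψ) - BB Ψ) ≤
      ENNReal.ofReal (cM (Mode L Λ) * ((2 * ‖y‖ + 4 * h * n) * kin α pol Ψ)) := by
  have h1 := list_bound α hp hΨ (lasso h n y)
  rw [lasso_len h hh, lasso_sum] at h1
  have h2 : Fl α pol (lasso h n y) = fun x m => (n : ℂ) * loop α pol h (x + y) m := by
    funext x
    exact Fl_lasso α pol h n y x
  rw [h2] at h1
  exact h1

end Pool.Agent.Helper985.SE
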