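import Pool.Agent.Helper985.SE.Seg3

set_option autoImplicit false

open MeasureTheory
open scoped BigOperators ComplexConjugate ENNReal

namespace Pool.Agent.Helper985.SE

variable {L Λ : ℝ}

theorem inner_ax (w : E3) (h : ℝ) (j : Fin 3) : (inner ℝ w (ax h j) : ℝ) = h * w j := by
  unfold ax
  rw [EuclideanSpace.inner_single_right]
  simp

/-- The explicit form of the plaquette coefficient. -/
theorem loop_eq (α : ℝ) (pol : Mode L Λ → E3) (h : ℝ) (x : E3) (m : Mode L Λ) :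
    loop α pol h x m = ((cpl α m.1 * h ^ 2 * (pol m 0 * m.k 1 - pol m 1 * m.k 0) : ℝ) : ℂ) *
      (Complex.I * (sg 1 (h * m.k 0) * sg 1 (h * m.k 1))) * conj (ph m x) := by
  have e0 : loop α pol h x = seg α pol (ax h 0) x + (seg α pol (ax h 1) (x + ax h 0) +
      (seg α pol (-ax h 0) (x + ax h 0 + ax h 1) +
        (seg α pol (-ax h 1) (x + ax h 0 + ax h 1 + -ax h 0) + (0 : Mode L Λ → ℂ)))) := rfl
  have e1 : x + ax h 0 + ax h 1 = (x + ax h 1) + ax h 0 := by abel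
  have e2 : x + ax h 0 + ax h 1 + -ax h 0 = x + ax h 1 := by abel
  rw [e0, e2, e1, seg_neg, seg_neg]
  simp only [Pi.add_apply, Pi.neg_apply, Pi.zero_apply, add_zero]
  rw [seg_shift, seg_shift]
  have c0 : conj (ph m (ax h 0)) = Complex.exp (-(Complex.I * ((h * m.k 0 : ℝ) : ℂ))) := by
    rw [conj_ph, inner_ax]
  have c1 : conj (ph m (ax h 1)) = Complex.exp (-(Complex.I * ((h * m.k 1 : ℝ) : ℂ))) := by
    rw [conj_ph, inner_ax]
  rw [c0, c1]
  have f0 := sg_formula (h * m.k 0)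
  have f1 := sg_formula (h * m.k 1)
  simp only [seg, GG, inner_ax]
  push_cast at f0 f1 ⊢
  linear_combination (-((cpl α m.1 : ℂ) * (h * (pol m 0 : ℂ))) * conj (ph m x) *
      sg 1 (h * m.k 0)) * f1 + ((cpl α m.1 : ℂ) * (h * (pol m 1 : ℂ))) * conj (ph m x) *
      sg 1 (h * m.k 1) * f0

/-- `|loop|²` without the polarisation factor -/
noncomputable def bn (α h : ℝ) (n : Momentum L Λ) : ℝ :=
  α / (2 * L ^ 3) * h ^ 4 * ((‖sg 1 (h * n.k 0)‖ * ‖sg 1 (h * n.k 1)‖) ^ 2) *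
    (n.k 0 ^ 2 + n.k 1 ^ 2)

theorem bn_nonneg {α : ℝ} (hα : 0 < α) (hL : 0 < L) (h : ℝ) (n : Momentum L Λ) :
    0 ≤ bn α h n := by
  unfold bn; positivity

theorem cpl_sq {α : ℝ} (hα : 0 < α) (hL : 0 < L) (n : Momentum L Λ) :
    cpl α n ^ 2 = α / (2 * L ^ 3 * ‖n.k‖) := by
  have hk := momentum_norm_pos n
  unfold cpl
  rw [div_pow, Real.sq_sqrt hα.le, Real.sq_sqrt (by positivity)]

theorem norm_loop_sq (α : ℝ) (pol : Mode L Λ → E3) (h : ℝ) (x : E3) (m : Mode L Λ) :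
    ‖loop α pol h x m‖ ^ 2 = cpl α m.1 ^ 2 * h ^ 4 * (pol m 0 * m.k 1 - pol m 1 * m.k 0) ^ 2 *
      (‖sg 1 (h * m.k 0)‖ * ‖sg 1 (h * m.k 1)‖) ^ 2 := by
  rw [loop_eq]
  simp only [norm_mul, Complex.norm_I, RCLike.norm_conj, norm_ph, Complex.norm_real,
    Real.norm_eq_abs]
  rw [← abs_mul, ← abs_mul]
  rw [mul_one, one_mul, mul_pow, sq_abs]
  ring

theorem sum_pol_cross (pol : Mode L Λ → E3) (hp : IsPolarisation pol) (n : Momentum L Λ) :
    ∑ μ : Fin 2, (pol (n, μ) 0 * n.k 1 - pol (n, μ) 1 * n.k 0) ^ 2 = n.k 0 ^ 2 + n.k 1 ^ 2 := by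
  have h00 := pol_complete pol hp n 0 0
  have h01 := pol_complete pol hp n 0 1
  have h11 := pol_complete pol hp n 1 1
  simp only [Fin.sum_univ_two] at h00 h01 h11 ⊢
  simp only [if_true] at h00 h11
  rw [if_neg (by decide)] at h01
  have hk := momentum_norm_pos n
  have e : (pol (n, 0) 0 * n.k 1 - pol (n, 0) 1 * n.k 0) ^ 2 +
      (pol (n, 1) 0 * n.k 1 - pol (n, 1) 1 * n.k 0) ^ 2 =
      (pol (n, 0) 0 * pol (n, 0) 0 + pol (n, 1) 0 * pol (n, 1) 0) * n.k 1 ^ 2 -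
      2 * (pol (n, 0) 0 * pol (n, 0) 1 + pol (n, 1) 0 * pol (n, 1) 1) * (n.k 0 * n.k 1) +
      (pol (n, 0) 1 * pol (n, 0) 1 + pol (n, 1) 1 * pol (n, 1) 1) * n.k 0 ^ 2 := by ring
  rw [e, h00, h01, h11]
  field_simp
  ring

theorem sum_loop_pol {α : ℝ} (hα : 0 < α) (hL : 0 < L) (pol : Mode L Λ → E3)
    (hp : IsPolarisation pol) (h : ℝ) (x : E3) (n : Momentum L Λ) :
    ∑ μ : Fin 2, ‖n.k‖ * ‖loop α pol h x (n, μ)‖ ^ 2 = bn α h n := by
  have hk := momentum_norm_pos n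
  have e : ∀ μ : Fin 2, ‖n.k‖ * ‖loop α pol h x (n, μ)‖ ^ 2 =
      ‖n.k‖ * (α / (2 * L ^ 3 * ‖n.k‖)) * h ^ 4 * ((‖sg 1 (h * n.k 0)‖ * ‖sg 1 (h * n.k 1)‖) ^ 2) *
        (pol (n, μ) 0 * n.k 1 - pol (n, μ) 1 * n.k 0) ^ 2 := by
    intro μ
    rw [norm_loop_sq]
    have h1 : (Mode.k ((n, μ) : Mode L Λ) : E3) = n.k := rfl
    rw [h1]
    have h2 : cpl α ((n, μ) : Mode L Λ).1 ^ 2 = α / (2 * L ^ 3 * ‖n.k‖) := cpl_sq hα hL n
    rw [h2]
    ring
  rw [Finset.sum_congr rfl (fun μ _ => e μ), ← Finset.mul_sum, sum_pol_cross pol hp n]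
  unfold bn
  field_simp

variable [Fintype (Momentum L Λ)]

/-- the commutator constant -/
noncomputable def S1 (L Λ : ℝ) [Fintype (Momentum L Λ)] (α h : ℝ) : ℝ :=
  ∑ n : Momentum L Λ, bn α h n

theorem sum_loop {α : ℝ} (hα : 0 < α) (hL : 0 < L) (pol : Mode L Λ → E3)
    (hp : IsPolarisation pol) (h : ℝ) (x : E3) :
    ∑ m : Mode L Λ, ‖m.k‖ * ‖loop α pol h x m‖ ^ 2 = S1 L Λ α h := by
  rw [Fintype.sum_prod_type]
  unfold S1
  apply Finset.sum_congr rfl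
  intro n _
  exact sum_loop_pol hα hL pol hp h x n

/-- The coefficient of the smeared electric field near `x + y`. -/
noncomputable def gg (α : ℝ) (pol : Mode L Λ → E3) (h τ : ℝ) (y x : E3) (m : Mode L Λ) : ℂ :=
  Complex.I * ((τ * ‖m.k‖ : ℝ) : ℂ) * loop α pol h (x + y) m

theorem gg_comm {α : ℝ} (hα : 0 < α) (hL : 0 < L) (pol : Mode L Λ → E3)
    (hp : IsPolarisation pol) (h τ : ℝ) (y x : E3) (N : ℕ) :
    (∑ m, gg α pol h τ y x m * conj ((N : ℂ) * loop α pol h (x + y) m)).im =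
      τ * N * S1 L Λ α h := by
  have e : ∀ m : Mode L Λ, gg α pol h τ y x m * conj ((N : ℂ) * loop α pol h (x + y) m) =
      Complex.I * ((τ * N * (‖m.k‖ * ‖loop α pol h (x + y) m‖ ^ 2) : ℝ) : ℂ) := by
    intro m
    unfold gg
    have h1 : loop α pol h (x + y) m * conj (loop α pol h (x + y) m) =
        ((‖loop α pol h (x + y) m‖ ^ 2 : ℝ) : ℂ) := by
      rw [Complex.mul_conj']
      push_cast
      rfl
    rw [map_mul, Complex.conj_natCast]
    push_cast at h1 ⊢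
    linear_combination (Complex.I * ((τ : ℂ) * (‖m.k‖ : ℂ)) * (N : ℂ)) * h1
  rw [Finset.sum_congr rfl (fun m _ => e m), ← Finset.mul_sum, ← Complex.ofReal_sum,
    Complex.I_mul_im, Complex.ofReal_re, ← Finset.mul_sum, sum_loop hα hL pol hp]

theorem contDiff_seg (α : ℝ) (pol : Mode L Λ → E3) (v : E3) (m : Mode L Λ) :
    ContDiff ℝ ((⊤ : ℕ∞) : WithTop ℕ∞) (fun x => seg α pol v x m) := by
  have h : (fun x => seg α pol v x m) = fun x =>
      ((cpl α m.1 * inner ℝ (pol m) v : ℝ) : ℂ) * conj (ph m x) * sg 1 (inner ℝ m.k v) := rfl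
  rw [h]
  exact (contDiff_const.mul (contDiff_conj_ph m)).mul contDiff_const

theorem contDiff_gg (α : ℝ) (pol : Mode L Λ → E3) (h τ : ℝ) (y : E3) (m : Mode L Λ) :
    ContDiff ℝ ((⊤ : ℕ∞) : WithTop ℕ∞) (fun x => gg α pol h τ y x m) := by
  have e : (fun x => gg α pol h τ y x m) = fun x =>
      Complex.I * ((τ * ‖m.k‖ : ℝ) : ℂ) *
      (((cpl α m.1 * h ^ 2 * (pol m 0 * m.k 1 - pol m 1 * m.k 0) : ℝ) : ℂ) *
      (Complex.I * (sg 1 (h * m.k 0) * sg 1 (h * m.k 1))) * conj (ph m (x + y))) := by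
    funext x
    unfold gg
    rw [loop_eq]
  rw [e]
  apply contDiff_const.mul
  apply contDiff_const.mul
  exact (contDiff_conj_ph m).comp (contDiff_id.add contDiff_const)

theorem sum_norm_gg {α : ℝ} (hα : 0 < α) (hL : 0 < L) (pol : Mode L Λ → E3)
    (hp : IsPolarisation pol) (h τ : ℝ) (y x : E3) :
    ∑ m, ‖gg α pol h τ y x m‖ ^ 2 ≤ τ ^ 2 * Λ * S1 L Λ α h := by
  rw [← sum_loop hα hL pol hp h (x + y), Finset.mul_sum]
  apply Finset.sum_le_sum
  intro m _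
  unfold gg
  have hk : ‖m.k‖ < Λ := m.1.2.2
  have hk0 : 0 < ‖m.k‖ := m.1.2.1
  rw [norm_mul, norm_mul, Complex.norm_I, one_mul, Complex.norm_real, Real.norm_eq_abs, mul_pow,
    sq_abs]
  have h1 : 0 ≤ ‖loop α pol h (x + y) m‖ ^ 2 := by positivity
  have h2 : ‖m.k‖ * ‖m.k‖ ≤ Λ * ‖m.k‖ := mul_le_mul_of_nonneg_right hk.le hk0.le
  calc (τ * ‖m.k‖) ^ 2 * ‖loop α pol h (x + y) m‖ ^ 2 =
      τ ^ 2 * (‖m.k‖ * ‖m.k‖) * ‖loop α pol h (x + y) m‖ ^ 2 := by ring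
    _ ≤ τ ^ 2 * (Λ * ‖m.k‖) * ‖loop α pol h (x + y) m‖ ^ 2 := by gcongr
    _ = _ := by ring

theorem field_bound (α : ℝ) (pol : Mode L Λ → E3)
    {Ψ : E3 → Fock (Mode L Λ)} (hΨ : FS Ψ) (h τ : ℝ) (y : E3) :
    NN (SS (gg α pol h τ y) 0 (BB Ψ) - BB Ψ) ≤ NN (BB (gen 0 (gg α pol h τ y) Ψ)) := by
  have key := path_bound hΨ 0 (gg α pol h τ y) (contDiff_gg α pol h τ y)
    (fun t x m => (t : ℂ) * gg α pol h τ y x m)
    (by
      intro m
      exact (Complex.continuous_ofReal.comp continuous_fst).mul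
        ((contDiff_gg α pol h τ y m).continuous.comp continuous_snd))
    (by intro x; funext m; simp)
    (by
      intro x t m
      rw [smul_zero, add_zero]
      have := (hasDerivAt_id t).ofReal_comp.mul_const (gg α pol h τ y x m)
      simpa using this)
    (by
      intro x t
      rw [smul_zero, add_zero]
      have e : ∀ m, gg α pol h τ y x m * conj ((t : ℂ) * gg α pol h τ y x m) =
          ((t * ‖gg α pol h τ y x m‖ ^ 2 : ℝ) : ℂ) := by
        intro m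
        rw [map_mul, Complex.conj_ofReal]
        push_cast
        rw [← Complex.mul_conj']
        ring
      rw [Finset.sum_congr rfl (fun m _ => e m), ← Complex.ofReal_sum, Complex.ofReal_im])
  have e : (fun (x : E3) (m : Mode L Λ) => ((1 : ℝ) : ℂ) * gg α pol h τ y x m) =
      gg α pol h τ y := by
    funext x m
    simp
  rw [e] at key
  exact key

theorem gen_gg_norm (α : ℝ) (pol : Mode L Λ → E3) (Ψ : E3 → Fock (Mode L Λ)) (h τ : ℝ) (y x : E3) :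
    ‖gen 0 (gg α pol h τ y) Ψ x‖ ^ 2 ≤
      4 * ‖anC (fun m => conj (gg α pol h τ y x m)) (Ψ x)‖ ^ 2 +
      2 * (∑ m, ‖gg α pol h τ y x m‖ ^ 2) * ‖Ψ x‖ ^ 2 := by
  have h1 := norm_anC_add_crC_sq_le (fun m => conj (gg α pol h τ y x m)) (Ψ x)
  simp only [Complex.conj_conj, RCLike.norm_conj] at h1
  have h2 : gen 0 (gg α pol h τ y) Ψ x = anC (fun m => conj (gg α pol h τ y x m)) (Ψ x) +
      crC (fun m => gg α pol h τ y x m) (Ψ x) := by
    unfold gen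
    rw [map_zero, smul_zero, zero_add, add_comm]
  rw [h2]
  exact h1

end Pool.Agent.Helper985.SE
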