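import Pool.Agent.Helper985.SE.Field

set_option autoImplicit false

open MeasureTheory
open scoped BigOperators ComplexConjugate

namespace Pool.Agent.Helper985.SE

variable {L Λ : ℝ}

theorem contDiff_ph (m : Mode L Λ) :
    ContDiff ℝ ((⊤ : ℕ∞) : WithTop ℕ∞) (fun x : E3 => ph m x) := by
  unfold ph
  apply ContDiff.cexp
  apply contDiff_const.mul
  apply Complex.ofRealCLM.contDiff.comp
  exact contDiff_const.inner ℝ contDiff_id

theorem contDiff_conj_ph (m : Mode L Λ) :
    ContDiff ℝ ((⊤ : ℕ∞) : WithTop ℕ∞) (fun x : E3 => conj (ph m x)) :=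
  Complex.conjCLE.contDiff.comp (contDiff_ph m)

variable [Fintype (Momentum L Λ)]

theorem FS.anC {M : Type} [Fintype M] {f : E3 → Fock M} (hf : FS f) {c : E3 → M → ℂ}
    (hc : ∀ m, ContDiff ℝ ((⊤ : ℕ∞) : WithTop ℕ∞) (fun x => c x m)) :
    FS (fun x => SE.anC (c x) (f x)) := by
  simp only [anC_apply]
  exact FS.sum Finset.univ (fun m _ => (hf.map (an m)).smul (hc m))

theorem FS.crC {M : Type} [Fintype M] {f : E3 → Fock M} (hf : FS f) {c : E3 → M → ℂ}
    (hc : ∀ m, ContDiff ℝ ((⊤ : ℕ∞) : WithTop ℕ∞) (fun x => c x m)) :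
    FS (fun x => SE.crC (c x) (f x)) := by
  simp only [crC_apply]
  exact FS.sum Finset.univ (fun m _ => (hf.map (cr m)).smul (hc m))

theorem FS.vp {f : E3 → Fock (Mode L Λ)} (hf : FS f) (pol : Mode L Λ → E3)
    (i : Fin 3) : FS (fun x => SE.vp pol i x (f x)) := by
  unfold SE.vp
  simp only [LinearMap.add_apply]
  exact (hf.anC (fun m => contDiff_const.mul (contDiff_ph m))).add
    (hf.crC (fun m => contDiff_const.mul (contDiff_conj_ph m)))

theorem velocity_eq (α : ℝ) (pol : Mode L Λ → E3) (i : Fin 3)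
    (Ψ : WaveFunction (Mode L Λ)) (x : E3) :
    velocity α L Λ pol i Ψ x = (-Complex.I) • fderiv ℝ Ψ x (EuclideanSpace.single i (1 : ℝ)) +
      ((Real.sqrt α : ℝ) : ℂ) • vp pol i x (Ψ x) := by
  unfold velocity
  rw [vectorPotential_eq]

theorem FS.velocity {Ψ : WaveFunction (Mode L Λ)} (h : FS Ψ) (α : ℝ) (pol : Mode L Λ → E3)
    (i : Fin 3) : FS (SE.velocity α L Λ pol i Ψ) := by
  have h1 : SE.velocity α L Λ pol i Ψ = fun x =>
      (-Complex.I) • fderiv ℝ Ψ x (EuclideanSpace.single i (1 : ℝ)) +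
      ((Real.sqrt α : ℝ) : ℂ) • SE.vp pol i x (Ψ x) := by
    funext x
    exact velocity_eq α pol i Ψ x
  rw [h1]
  exact ((h.deriv _).const_smul _).add ((h.vp pol i).const_smul _)

theorem braket_velocity (α : ℝ) (pol : Mode L Λ → E3) (i : Fin 3)
    {Φ Ψ : WaveFunction (Mode L Λ)} (hΦ : FS Φ) (hΨ : FS Ψ) :
    braket Φ (velocity α L Λ pol i Ψ) = braket (velocity α L Λ pol i Φ) Ψ := by
  unfold braket
  simp only [velocity_eq, inner_add_left, inner_add_right, inner_smul_left, inner_smul_right]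
  have i1 := (FS.integrable_inner volume hΦ (hΨ.deriv (EuclideanSpace.single i (1 : ℝ)))).const_mul
    (-Complex.I)
  have i2 := (FS.integrable_inner volume hΦ (hΨ.vp pol i)).const_mul ((Real.sqrt α : ℝ) : ℂ)
  have i3 := (FS.integrable_inner volume (hΦ.deriv (EuclideanSpace.single i (1 : ℝ))) hΨ).const_mul
    (conj (-Complex.I))
  have i4 := (FS.integrable_inner volume (hΦ.vp pol i) hΨ).const_mul
    (conj ((Real.sqrt α : ℝ) : ℂ))
  rw [integral_add i1 i2, integral_add i3 i4, integral_const_mul, integral_const_mul,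
    integral_const_mul, integral_const_mul, FS.integral_by_parts volume hΦ hΨ]
  simp only [inner_vp, map_neg, Complex.conj_I, Complex.conj_ofReal]
  ring

theorem fieldEnergy_eq (v : Fock (Mode L Λ)) :
    fieldEnergy L Λ v = (∑ m : Mode L Λ, ((‖m.k‖ : ℝ) : ℂ) • (cr m ∘ₗ an m)) v := by
  unfold fieldEnergy
  rw [finsum_eq_sum_of_fintype, LinearMap.sum_apply]
  rfl

theorem FS.fieldEnergy {Ψ : WaveFunction (Mode L Λ)} (h : FS Ψ) :
    FS (fun x => SE.fieldEnergy L Λ (Ψ x)) := by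
  simp only [fieldEnergy_eq]
  exact h.map _

/-- The quadratic form of the Hamiltonian. -/
theorem braket_hamiltonian (α : ℝ) (pol : Mode L Λ → E3) {Ψ : WaveFunction (Mode L Λ)}
    (h : FS Ψ) :
    (braket Ψ (hamiltonian α L Λ pol Ψ)).re =
      (1 / 2) * (∑ i : Fin 3, ∫ x, ‖velocity α L Λ pol i Ψ x‖ ^ 2) +
        ∫ x, numE (fun m => ‖m.k‖) (Ψ x) := by
  have hvel : ∀ i, FS (velocity α L Λ pol i Ψ) := fun i => h.velocity α pol i
  have hvv : ∀ i, FS (velocity α L Λ pol i (velocity α L Λ pol i Ψ)) :=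
    fun i => (hvel i).velocity α pol i
  have e1 : braket Ψ (hamiltonian α L Λ pol Ψ) =
      (1 / 2 : ℂ) * ∑ i : Fin 3, braket Ψ (velocity α L Λ pol i (velocity α L Λ pol i Ψ)) +
      ∫ x, (inner ℂ (Ψ x) (fieldEnergy L Λ (Ψ x)) : ℂ) := by
    unfold braket hamiltonian
    simp only [inner_add_right, inner_smul_right, inner_sum]
    rw [integral_add, integral_const_mul, integral_finsetSum]
    · intro i _
      exact FS.integrable_inner volume h (hvv i)
    · apply Integrable.const_mul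
      apply integrable_finsetSum
      intro i _
      exact FS.integrable_inner volume h (hvv i)
    · exact FS.integrable_inner volume h h.fieldEnergy
  have e2 : ∀ i, braket Ψ (velocity α L Λ pol i (velocity α L Λ pol i Ψ)) =
      ((∫ x, ‖velocity α L Λ pol i Ψ x‖ ^ 2 : ℝ) : ℂ) := by
    intro i
    rw [braket_velocity α pol i h (hvel i)]
    unfold braket
    rw [← integral_complex_ofReal]
    congr 1
    funext x
    exact inner_self_real _
  have e3 : ∫ x, (inner ℂ (Ψ x) (fieldEnergy L Λ (Ψ x)) : ℂ) =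
      ((∫ x, numE (fun m => ‖m.k‖) (Ψ x) : ℝ) : ℂ) := by
    rw [← integral_complex_ofReal]
    congr 1
    funext x
    exact inner_fieldEnergy _
  rw [e1, e3]
  simp only [e2]
  rw [← Complex.ofReal_sum]
  have : (1 / 2 : ℂ) = ((1 / 2 : ℝ) : ℂ) := by push_cast; rfl
  rw [this, ← Complex.ofReal_mul, ← Complex.ofReal_add, Complex.ofReal_re]

omit [Fintype (Momentum L Λ)] in
theorem braket_self {M : Type} (Ψ : WaveFunction M) :
    (braket Ψ Ψ).re = ∫ x, ‖Ψ x‖ ^ 2 := by
  unfold braket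
  have : ∀ x, (inner ℂ (Ψ x) (Ψ x) : ℂ) = ((‖Ψ x‖ ^ 2 : ℝ) : ℂ) := by
    intro x
    rw [inner_self_eq_norm_sq_to_K]
    push_cast
    rfl
  simp only [this]
  rw [integral_complex_ofReal, Complex.ofReal_re]

omit [Fintype (Momentum L Λ)] in
theorem IsState.fs {M : Type} {Ψ : WaveFunction M} (h : IsState Ψ) : FS Ψ :=
  ⟨h.smooth, h.compact, h.finite⟩

end Pool.Agent.Helper985.SE
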